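import Pool.Agent.Y862.CH.Four
import Pool.Agent.Y302.CH.Poly
import Pool.Agent.Y302.CH.Ext
import Pool.Agent.Y25.CH.Five

set_option autoImplicit false

/-!
The number of moves needed to straighten a planar chain: the threshold between four and five links.
-/

namespace Pool.Agent.Y862.CH

open Real CH134 ComplexConjugate

/-- prolongation of a chain by a link in the direction of the last one -/
theorem ext_straight (n : ℕ) (l : ℕ → ℝ) (q : ℕ → ℂ) (hl : ∀ i < n, 0 < l i) (hq : HasLengths n l q)
    (hs : Simple n q) : ∃ (l' : ℕ → ℝ) (q' : ℕ → ℂ), (∀ i < n + 1, 0 < l' i) ∧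
      HasLengths (n + 1) l' q' ∧ Simple (n + 1) q' ∧ (∀ i < n, l' i = l i) ∧ (∀ i ≤ n, q' i = q i) ∧
      ∀ m, n = m + 1 → JointAngle q' m π := by
  rcases n with _ | m
  · refine ⟨Function.update l 0 1, Function.update q 1 (q 0 + 1), ?_, ?_, ?_, ?_, ?_, ?_⟩
    · intro i hi
      have : i = 0 := by omega
      subst this; simp
    · intro i hi
      have : i = 0 := by omega
      subst this
      simp [dist_eq_norm]
    · intro i j hij hj
      omega
    · intro i hi; omega
    · intro i hi
      have : i = 0 := by omega
      subst this; simp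
    · intro m hm; omega
  · have hlm : 0 < l m := hl m (by omega)
    have hdm : dist (q m) (q (m + 1)) = l m := hq m (by omega)
    set e : ℂ := q (m + 1) - q m with he
    have hne : ‖e‖ = l m := by
      rw [he, ← dist_eq_norm, dist_comm]; exact hdm
    have he0 : e ≠ 0 := by
      intro h; rw [h, norm_zero] at hne; linarith
    -- the end is away from the other links
    set C : Set ℂ := ⋃ j ∈ Finset.range m, segment ℝ (q j) (q (j + 1)) with hC
    have hCc : IsClosed C := by
      apply IsCompact.isClosed
      apply (Finset.range m).isCompact_biUnion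
      intro j _
      rw [segment_eq_image_lineMap]
      exact isCompact_Icc.image AffineMap.lineMap_continuous
    have hCn : q (m + 1) ∉ C := by
      intro h
      simp only [hC, Set.mem_iUnion, Finset.mem_range] at h
      obtain ⟨j, hj, hz⟩ := h
      have := (hs j m hj (by omega) (q (m + 1)) hz (right_mem_segment ℝ _ _)).2
      apply he0
      rw [he, this, sub_self]
    obtain ⟨ε, hε, hball⟩ := Metric.isOpen_iff.1 hCc.isOpen_compl (q (m + 1)) hCn
    set δ : ℝ := ε / (2 * l m) with hδ
    have hδ0 : 0 < δ := by positivity
    have hδe : δ * ‖e‖ < ε := by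
      rw [hne, hδ]
      field_simp
      linarith
    refine ⟨Function.update l (m + 1) (δ * l m), Function.update q (m + 2) (q (m + 1) + δ * e),
      ?_, ?_, ?_, ?_, ?_, ?_⟩
    · intro i hi
      by_cases h : i = m + 1
      · subst h; rw [Function.update_self]; positivity
      · rw [Function.update_of_ne h]; exact hl i (by omega)
    · intro i hi
      by_cases h : i = m + 1
      · subst h
        rw [Function.update_of_ne (by omega), Function.update_self, Function.update_self,
          dist_eq_norm]
        have : q (m + 1) - (q (m + 1) + δ * e) = -((δ : ℂ) * e) := by ring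
        rw [this, norm_neg, norm_mul, Complex.norm_real, Real.norm_of_nonneg hδ0.le, hne]
      · rw [Function.update_of_ne (by omega), Function.update_of_ne (by omega),
          Function.update_of_ne h]
        exact hq i (by omega)
    · intro i j hij hj z hz1 hz2
      by_cases hjm : j = m + 1
      · subst hjm
        rw [Function.update_of_ne (by omega), Function.update_self] at hz2
        rw [Function.update_of_ne (by omega), Function.update_of_ne (by omega)] at hz1
        obtain ⟨a, b, ha, hb, hab, hz⟩ := hz2
        have hz' : z = q (m + 1) + (b * δ : ℝ) * e := by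
          rw [← hz]
          have : (a : ℂ) = 1 - b := by
            have : a = 1 - b := by linarith
            rw [this]; push_cast; ring
          simp only [Complex.real_smul]
          rw [this]; push_cast; ring
        by_cases him : i = m
        · subst him
          refine ⟨rfl, ?_⟩
          rw [Function.update_of_ne (by omega)]
          obtain ⟨a', b', ha', hb', hab', hz3⟩ := hz1
          have hz4 : z = q (i + 1) - (a' : ℝ) * e := by
            rw [← hz3, he]
            have : (b' : ℂ) = 1 - a' := by
              have : b' = 1 - a' := by linarith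
              rw [this]; push_cast; ring
            simp only [Complex.real_smul]
            rw [this]; ring
          have h5 : ((b * δ + a' : ℝ) : ℂ) * e = 0 := by
            have : q (i + 1) + (b * δ : ℝ) * e = q (i + 1) - (a' : ℝ) * e := by
              rw [← hz', ← hz4]
            push_cast at this ⊢
            linear_combination this
          rcases mul_eq_zero.1 h5 with h6 | h6
          · have h7 : b * δ + a' = 0 := by exact_mod_cast h6
            have h8 : 0 ≤ b * δ := by positivity
            have h9 : a' = 0 := by linarith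
            rw [hz4, h9]; simp
          · exact absurd h6 he0
        · exfalso
          have hzC : z ∈ C := by
            simp only [hC, Set.mem_iUnion, Finset.mem_range]
            exact ⟨i, by omega, hz1⟩
          have hzb : z ∈ Metric.ball (q (m + 1)) ε := by
            rw [Metric.mem_ball, hz', dist_eq_norm]
            have : q (m + 1) + (b * δ : ℝ) * e - q (m + 1) = ((b * δ : ℝ) : ℂ) * e := by ring
            rw [this, norm_mul, Complex.norm_real, Real.norm_of_nonneg (by positivity)]
            have hb1 : b ≤ 1 := by linarith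
            have h10 : 0 ≤ δ * ‖e‖ := by positivity
            nlinarith
          exact hball hzb hzC
      · rw [Function.update_of_ne (by omega), Function.update_of_ne (by omega)] at hz1 hz2
        rw [Function.update_of_ne (by omega)]
        exact hs i j hij (by omega) z hz1 hz2
    · intro i hi
      rw [Function.update_of_ne (by omega)]
    · intro i hi
      rw [Function.update_of_ne (by omega)]
    · intro m' hm'
      have : m' = m := by omega
      subst this
      refine ⟨Real.pi_pos, by linarith [Real.pi_pos], ?_⟩
      have f1 : Function.update q (m' + 2) (q (m' + 1) + δ * e) m' = q m' :=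
        Function.update_of_ne (by omega) _ _
      have f2 : Function.update q (m' + 2) (q (m' + 1) + δ * e) (m' + 1) = q (m' + 1) :=
        Function.update_of_ne (by omega) _ _
      have f3 : Function.update q (m' + 2) (q (m' + 1) + δ * e) (m' + 2) = q (m' + 1) + δ * e :=
        Function.update_self _ _ _
      rw [f1, f2, f3]
      have e1 : q m' - q (m' + 1) = -e := by rw [he]; ring
      have e2 : q (m' + 1) + (δ : ℂ) * e - q (m' + 1) = (δ : ℂ) * e := by ring
      rw [e1, e2, norm_neg, norm_mul, Complex.norm_real, Real.norm_of_nonneg hδ0.le,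
        Complex.exp_pi_mul_I]
      push_cast
      ring

open Classical in
/-- the number of the joints of the `n`-link chain `q` which are not straight -/
noncomputable def bentJoints (n : ℕ) (q : ℕ → ℂ) : ℕ :=
  ((Finset.range (n - 1)).filter (fun i => ¬ JointAngle q i π)).card

theorem bent_four {q : ℕ → ℂ} {l : ℕ → ℝ} (hl : ∀ i < 4, 0 < l i) (h : HasLengths 4 l q)
    {t1 t2 t3 : ℝ} (h1 : JointAngle q 0 t1) (h2 : JointAngle q 1 t2) (h3 : JointAngle q 2 t3) :
    bent t1 t2 t3 ≤ bentJoints 4 q := by
  classical
  have hne : ∀ i < 4, q i ≠ q (i + 1) := by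
    intro i hi e
    have := h i hi
    rw [e, dist_self] at this
    have := hl i hi
    linarith
  have key : ∀ (i : ℕ) (t : ℝ), i + 1 < 4 → JointAngle q i t → JointAngle q i π → t = π := by
    intro i t hi ht hp
    exact angle_unique _ _ t π (sub_ne_zero.2 (hne i (by omega)))
      (sub_ne_zero.2 (hne (i + 1) hi).symm) ht hp
  have e : ((Finset.range 3).filter (fun i => ¬ JointAngle q i π)).card =
      (if ¬ JointAngle q 0 π then 1 else 0) + (if ¬ JointAngle q 1 π then 1 else 0) +
      (if ¬ JointAngle q 2 π then 1 else 0) := by
    rw [Finset.card_filter, Finset.sum_range_succ, Finset.sum_range_succ, Finset.sum_range_succ,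
      Finset.sum_range_zero, zero_add]
  have e' : bentJoints 4 q = (if ¬ JointAngle q 0 π then 1 else 0) +
      (if ¬ JointAngle q 1 π then 1 else 0) + (if ¬ JointAngle q 2 π then 1 else 0) := by
    unfold bentJoints
    rw [← e]
  rw [e']
  unfold bent
  have g : ∀ (i : ℕ) (t : ℝ), i + 1 < 4 → JointAngle q i t →
      (if t = π then 0 else 1) ≤ (if ¬ JointAngle q i π then 1 else 0) := by
    intro i t hi ht
    by_cases hp : JointAngle q i π
    · rw [if_pos (key i t hi ht hp)]
      exact Nat.zero_le _
    · rw [if_pos hp]
      split_ifs <;> omega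
  exact Nat.add_le_add (Nat.add_le_add (g 0 t1 (by norm_num) h1) (g 1 t2 (by norm_num) h2))
    (g 2 t3 (by norm_num) h3)

/-- chains with at most four links -/
theorem at_most_four : ∀ (j n : ℕ), n + j = 4 → ∀ (l : ℕ → ℝ) (q : ℕ → ℂ), (∀ i < n, 0 < l i) →
    HasLengths n l q → Simple n q → ∃ k ≤ bentJoints n q, StraightenedBy n l q k := by
  classical
  intro j
  induction j with
  | zero =>
    intro n hn l q hl h hs
    have : n = 4 := by omega
    subst this
    obtain ⟨t1, h1⟩ := angles_exist hl h hs 0 (by norm_num)
    obtain ⟨t2, h2⟩ := angles_exist hl h hs 1 (by norm_num)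
    obtain ⟨t3, h3⟩ := angles_exist hl h hs 2 (by norm_num)
    exact four_aux l hl (bentJoints 4 q) q t1 t2 t3 h hs h1 h2 h3 (bent_four hl h h1 h2 h3)
  | succ j ih =>
    intro n hn l q hl h hs
    obtain ⟨l', q', a1, a2, a3, a4, a5, a6⟩ := ext_straight n l q hl h hs
    obtain ⟨k, hk, hst⟩ := ih (n + 1) (by omega) l' q' a1 a2 a3
    refine ⟨k, hk.trans ?_, Pool.Agent.Y302.CH.res.1 n l l' q q' k a4 a5 hst⟩
    unfold bentJoints
    apply Finset.card_le_card
    intro i hi
    rw [Finset.mem_filter, Finset.mem_range] at hi ⊢
    obtain ⟨hi1, hi2⟩ := hi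
    rcases n with _ | m
    · omega
    · by_cases him : i = m
      · subst him
        exact absurd (a6 i rfl) hi2
      · refine ⟨by omega, fun hc => hi2 ?_⟩
        unfold JointAngle at hc ⊢
        rw [a5 i (by omega), a5 (i + 1) (by omega), a5 (i + 2) (by omega)]
        exact hc

/-- chains with at least five links -/
theorem at_least_five (n : ℕ) (hn : 5 ≤ n) : ∀ d N : ℕ, ∃ (l : ℕ → ℝ) (q : ℕ → ℂ),
    (∀ i < n, 0 < l i) ∧ HasLengths n l q ∧ Simple n q ∧
    ∀ k : ℕ, PolyStraightenedBy n d l q k → N < k := by
  induction n, hn using Nat.le_induction with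
  | base => exact Pool.Agent.Y25.CH.five Pool.Agent.Y302.CH.poly
  | succ n _ ih =>
    intro d N
    obtain ⟨l, q, h1, h2, h3, h4⟩ := ih d N
    obtain ⟨l', q', a1, a2, a3, a4, a5⟩ := Pool.Agent.Y302.CH.ext n l q h1 h2 h3
    exact ⟨l', q', a1, a2, a3, fun k hk =>
      h4 k (Pool.Agent.Y302.CH.res.2 n d l l' q q' k a4 a5 hk)⟩

/-- moves are polynomial pieces of degree at most one -/
theorem poly_of_moves {n : ℕ} {l : ℕ → ℝ} {q : ℕ → ℂ} {k : ℕ} (h : StraightenedBy n l q k) :
    PolyStraightenedBy n 1 l q k := by
  obtain ⟨T, p, hT, hm, h0, ⟨τ, t0, tk, tm, hp⟩, hst⟩ := h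
  refine ⟨T, p, hT, hm, h0, ⟨τ, t0, tk, tm, fun j hj i hi => ?_⟩, hst⟩
  obtain ⟨α, β, hab⟩ := hp j hj i hi
  refine ⟨Polynomial.C α + Polynomial.C β * Polynomial.X, ?_, fun t ht => ?_⟩
  · refine (Polynomial.natDegree_add_le _ _).trans (max_le ?_ ?_)
    · rw [Polynomial.natDegree_C]; exact Nat.zero_le _
    · exact (Polynomial.natDegree_C_mul_le _ _).trans Polynomial.natDegree_X_le
  · have := hab t ht
    simpa using this

end Pool.Agent.Y862.CH
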