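import Pool.Agent.Y862.CH.Geo5
import Pool.Agent.Y302.CH.Turn
import Pool.Agent.Helper134.ChainSanity

set_option autoImplicit false

/-!
Four-link chains are straightened by at most as many moves as there are bent joints.
-/

namespace Pool.Agent.Y862.CH

open Real CH134 ComplexConjugate

/-- two consecutive links with a joint angle in `(0, 2π)` meet only in the joint -/
lemma adj_seg {p0 p1 p2 : ℂ} {t : ℝ} (h01 : p0 ≠ p1) (h12 : p1 ≠ p2)
    (ha : IsAngle (p0 - p1) (p2 - p1) t) {z : ℂ} (h0 : z ∈ segment ℝ p0 p1) (h1 : z ∈ segment ℝ p1 p2) :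
    z = p1 := by
  obtain ⟨r, hr0, hr1, hr⟩ := mem_seg'.1 h0
  obtain ⟨s, hs0, hs1, hs⟩ := mem_seg.1 h1
  rcases hr0.lt_or_eq with h | h
  · exfalso
    have hrc : (r : ℂ) ≠ 0 := by exact_mod_cast h.ne'
    have e : p0 - p1 = ((s / r : ℝ) : ℂ) * (p2 - p1) := by
      push_cast
      field_simp
      linear_combination hs - hr
    exact angle_ne (sub_ne_zero.2 h01) (sub_ne_zero.2 h12.symm) ha (by positivity) e
  · rw [hr, ← h]; simp

/-- segments of the turned part -/
lemma turn_seg {q : ℕ → ℂ} {k j : ℕ} {s : ℝ} (hkj : k ≤ j) {z : ℂ}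
    (hz : z ∈ segment ℝ (turn k s q j) (turn k s q (j + 1))) :
    ∃ y ∈ segment ℝ (q j) (q (j + 1)), z = q k + (y - q k) * Complex.exp (s * Complex.I) := by
  rw [Pool.Agent.Y302.CH.turn_ge s q hkj, Pool.Agent.Y302.CH.turn_ge s q (by omega : k ≤ j + 1)] at hz
  obtain ⟨t, h0, h1, rfl⟩ := mem_seg.1 hz
  exact ⟨q j + t * (q (j + 1) - q j), mem_seg.2 ⟨t, h0, h1, rfl⟩, by ring⟩

lemma simple_turn {n k : ℕ} {s : ℝ} {q : ℕ → ℂ} (hs : Simple n q)
    (hadj : k + 1 < n → ∀ z ∈ segment ℝ (q k) (q (k + 1)),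
      z ∈ segment ℝ (q (k + 1)) (turn (k + 1) s q (k + 2)) → z = q (k + 1))
    (hav : ∀ i j : ℕ, i < k + 1 → k + 1 ≤ j → j < n → ¬ (i = k ∧ j = k + 1) →
      Av (q (k + 1)) s (q i) (q (i + 1)) (q j) (q (j + 1))) :
    Simple n (turn (k + 1) s q) := by
  intro i j hij hjn z hz1 hz2
  rcases Nat.lt_or_ge j (k + 1) with hj | hj
  · -- both links are before the joint
    rw [Pool.Agent.Y302.CH.turn_le s q (by omega : i ≤ k + 1),
      Pool.Agent.Y302.CH.turn_le s q (by omega : i + 1 ≤ k + 1)] at hz1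
    rw [Pool.Agent.Y302.CH.turn_le s q (by omega : j ≤ k + 1),
      Pool.Agent.Y302.CH.turn_le s q (by omega : j + 1 ≤ k + 1)] at hz2
    rw [Pool.Agent.Y302.CH.turn_le s q (by omega : j ≤ k + 1)]
    exact hs i j hij hjn z hz1 hz2
  · rcases Nat.lt_or_ge i (k + 1) with hi | hi
    · rw [Pool.Agent.Y302.CH.turn_le s q (by omega : i ≤ k + 1),
        Pool.Agent.Y302.CH.turn_le s q (by omega : i + 1 ≤ k + 1)] at hz1
      by_cases hc : i = k ∧ j = k + 1
      · obtain ⟨rfl, rfl⟩ := hc
        rw [Pool.Agent.Y302.CH.turn_le s q (le_refl (i + 1))] at hz2 ⊢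
        exact ⟨rfl, hadj hjn z hz1 hz2⟩
      · exfalso
        obtain ⟨y, hy, hyz⟩ := turn_seg hj hz2
        apply hav i j hi hj hjn hc z hz1 y hy
        rw [hyz]; ring
    · obtain ⟨y1, hy1, e1⟩ := turn_seg hi hz1
      obtain ⟨y2, hy2, e2⟩ := turn_seg hj hz2
      have hne : Complex.exp (s * Complex.I) ≠ 0 := Complex.exp_ne_zero _
      have h12 : y1 = y2 := by
        have : (y1 - q (k + 1)) * Complex.exp (s * Complex.I) =
            (y2 - q (k + 1)) * Complex.exp (s * Complex.I) := by linear_combination e2 - e1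
        have := mul_right_cancel₀ hne this
        linear_combination this
      subst h12
      obtain ⟨h3, h4⟩ := hs i j hij hjn y1 hy1 hy2
      refine ⟨h3, ?_⟩
      rw [Pool.Agent.Y302.CH.turn_ge s q hj, e1, h4]

lemma cfg_of {q : ℕ → ℂ} {l : ℕ → ℝ} (hl : ∀ i < 4, 0 < l i) (h : HasLengths 4 l q) (hs : Simple 4 q)
    {t1 t2 t3 : ℝ} (h1 : JointAngle q 0 t1) (h2 : JointAngle q 1 t2) (h3 : JointAngle q 2 t3) :
    Cfg (q 0) (q 1) (q 2) (q 3) (q 4) t1 t2 t3 := by
  have hne : ∀ i < 4, q i ≠ q (i + 1) := by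
    intro i hi e
    have := h i hi
    rw [e, dist_self] at this
    have := hl i hi
    linarith
  exact {
    hda := hne 0 (by norm_num)
    hao := hne 1 (by norm_num)
    hob := hne 2 (by norm_num)
    hbc := hne 3 (by norm_num)
    a1 := h1
    a2 := h2
    a3 := h3
    DB := fun z hz hz' => by
      have := (hs 0 2 (by norm_num) (by norm_num) z hz hz').1
      omega
    DC := fun z hz hz' => by
      have := (hs 0 3 (by norm_num) (by norm_num) z hz hz').1
      omega
    AC := fun z hz hz' => by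
      have := (hs 1 3 (by norm_num) (by norm_num) z hz hz').1
      omega }

/-- every joint of a simple chain has a joint angle -/
lemma angles_exist {n : ℕ} {q : ℕ → ℂ} {l : ℕ → ℝ} (hl : ∀ i < n, 0 < l i) (h : HasLengths n l q)
    (hs : Simple n q) (i : ℕ) (hi : i + 1 < n) : ∃ t, JointAngle q i t := by
  have hne : ∀ i < n, q i ≠ q (i + 1) := by
    intro i hi e
    have := h i hi
    rw [e, dist_self] at this
    have := hl i hi
    linarith
  obtain ⟨t, ht⟩ := two_links_angle (fun j => q (i + j)) (sub_ne_zero.2 (hne i (by omega)))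
    (sub_ne_zero.2 (hne (i + 1) (by omega)).symm) (by
      intro a b hab hb z hz1 hz2
      have ha0 : a = 0 := by omega
      have hb1 : b = 1 := by omega
      subst ha0 hb1
      obtain ⟨_, h2⟩ := hs i (i + 1) (by omega) (by omega) z hz1 hz2
      exact ⟨rfl, h2⟩)
  exact ⟨t, ht⟩

lemma between {t s : ℝ} (h0 : 0 < t) (h1 : t < 2 * π) (hs : s ∈ Set.uIcc 0 (π - t)) :
    0 < t + s ∧ t + s < 2 * π := by
  have := Real.pi_pos
  rw [Set.mem_uIcc] at hs
  rcases hs with h | h
  · constructor <;> linarith [h.1, h.2]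
  · constructor <;> linarith [h.1, h.2]

open Classical in
/-- the number of bent joints among the first three -/
noncomputable def bent (t1 t2 t3 : ℝ) : ℕ :=
  (if t1 = π then 0 else 1) + (if t2 = π then 0 else 1) + (if t3 = π then 0 else 1)

lemma adj_turn {n k : ℕ} {s t : ℝ} {q : ℕ → ℂ} {l : ℕ → ℝ} (hl : ∀ i < n, 0 < l i)
    (h : HasLengths n l q) (ht : JointAngle q k t) (hs : s ∈ Set.uIcc 0 (π - t)) :
    k + 1 < n → ∀ z ∈ segment ℝ (q k) (q (k + 1)),
      z ∈ segment ℝ (q (k + 1)) (turn (k + 1) s q (k + 2)) → z = q (k + 1) := by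
  intro hk z hz1 hz2
  obtain ⟨b1, b2⟩ := between ht.1 ht.2.1 hs
  have h1 := Pool.Agent.Y302.CH.turn2 q k s t ht b1 b2
  have h2 : HasLengths n l (turn (k + 1) s q) := Pool.Agent.Y302.CH.turn3 n l q (k + 1) s h
  have h3 := h2 (k + 1) hk
  have h4 := hl (k + 1) hk
  have h5 := h k (by omega)
  have h6 := hl k (by omega)
  unfold JointAngle at h1
  rw [Pool.Agent.Y302.CH.turn_le s q (by omega : k ≤ k + 1),
    Pool.Agent.Y302.CH.turn_le s q (le_refl (k + 1))] at h1
  rw [Pool.Agent.Y302.CH.turn_le s q (le_refl (k + 1))] at h3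
  refine adj_seg (p0 := q k) (p1 := q (k + 1)) (p2 := turn (k + 1) s q (k + 2)) ?_ ?_ h1 hz1 hz2
  · intro e
    rw [e, dist_self] at h5
    linarith
  · intro e
    rw [← e, dist_self] at h3
    linarith

theorem four_aux (l : ℕ → ℝ) (hl : ∀ i < 4, 0 < l i) (m : ℕ) : ∀ (q : ℕ → ℂ) (t1 t2 t3 : ℝ),
    HasLengths 4 l q → Simple 4 q → JointAngle q 0 t1 → JointAngle q 1 t2 → JointAngle q 2 t3 →
    bent t1 t2 t3 ≤ m → ∃ k ≤ m, StraightenedBy 4 l q k := by
  induction m with
  | zero =>
    intro q t1 t2 t3 h hs h1 h2 h3 hm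
    have e1 : t1 = π := by
      by_contra e
      unfold bent at hm
      rw [if_neg e] at hm
      omega
    have e2 : t2 = π := by
      by_contra e
      unfold bent at hm
      rw [if_neg e] at hm
      omega
    have e3 : t3 = π := by
      by_contra e
      unfold bent at hm
      rw [if_neg e] at hm
      omega
    rw [e1] at h1
    rw [e2] at h2
    rw [e3] at h3
    refine ⟨0, le_rfl, 0, fun _ => q, le_rfl, ⟨fun i _ => continuousOn_const, fun t _ => ⟨h, hs⟩⟩,
      fun i _ => rfl, ⟨fun _ => 0, rfl, rfl, ?_, ?_⟩, ?_⟩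
    · intro j hj; omega
    · intro j hj; omega
    · intro i hi
      have : i = 0 ∨ i = 1 ∨ i = 2 := by omega
      rcases this with rfl | rfl | rfl
      · exact h1
      · exact h2
      · exact h3
  | succ m ih =>
    intro q t1 t2 t3 h hs h1 h2 h3 hm
    have hcfg := cfg_of hl h hs h1 h2 h3
    have hex : ∀ i : ℕ, i + 1 < 4 → ∃ t, JointAngle q i t := by
      intro i hi
      have : i = 0 ∨ i = 1 ∨ i = 2 := by omega
      rcases this with rfl | rfl | rfl
      · exact ⟨_, h1⟩
      · exact ⟨_, h2⟩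
      · exact ⟨_, h3⟩
    obtain ⟨T1, T2, T3, T4⟩ := Pool.Agent.Y302.CH.turn_facts
    have hend : ∀ t : ℝ, π - t ∈ Set.uIcc 0 (π - t) := fun t => Set.right_mem_uIcc
    have hpi := Real.pi_pos
    rcases core hcfg with ⟨b1, hf⟩ | ⟨b2, hf⟩ | ⟨b3, hf⟩ | ⟨e1, e2, e3⟩
    · -- first joint
      have hsim : ∀ s ∈ Set.uIcc 0 (π - t1), Simple 4 (turn (0 + 1) s q) := by
        intro s hs'
        apply simple_turn hs (adj_turn hl h h1 hs')
        intro i j hi hj hj4 hne
        have hi0 : i = 0 := by omega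
        subst hi0
        have : j = 2 ∨ j = 3 := by omega
        rcases this with rfl | rfl
        · exact (hf s hs').1
        · exact (hf s hs').2
      have g1 : JointAngle (turn (0 + 1) (π - t1) q) 0 π := by
        have := T2 q 0 (π - t1) t1 h1 (by linarith) (by linarith)
        rwa [show t1 + (π - t1) = π by ring] at this
      have g2 := (T1 q (0 + 1) 1 (π - t1) t2 (by norm_num)).2 h2
      have g3 := (T1 q (0 + 1) 2 (π - t1) t3 (by norm_num)).2 h3
      obtain ⟨k, hk, hst⟩ := ih _ _ _ _ (T3 4 l q (0 + 1) (π - t1) h) (hsim _ (hend t1)) g1 g2 g3 (by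
        unfold bent at hm ⊢
        rw [if_neg b1] at hm
        rw [if_pos rfl]
        omega)
      exact ⟨k + 1, by omega, T4 4 l q 0 t1 (π - t1) k h hex h1 (by linarith) (by linarith) hsim hst⟩
    · -- second joint
      have hsim : ∀ s ∈ Set.uIcc 0 (π - t2), Simple 4 (turn (1 + 1) s q) := by
        intro s hs'
        apply simple_turn hs (adj_turn hl h h2 hs')
        intro i j hi hj hj4 hne
        have hi0 : i = 0 ∨ i = 1 := by omega
        have hj0 : j = 2 ∨ j = 3 := by omega
        rcases hi0 with rfl | rfl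
        · rcases hj0 with rfl | rfl
          · exact (hf s hs').1
          · exact (hf s hs').2.1
        · rcases hj0 with rfl | rfl
          · exact absurd ⟨rfl, rfl⟩ hne
          · exact (hf s hs').2.2
      have g1 : JointAngle (turn (1 + 1) (π - t2) q) 1 π := by
        have := T2 q 1 (π - t2) t2 h2 (by linarith) (by linarith)
        rwa [show t2 + (π - t2) = π by ring] at this
      have g2 := (T1 q (1 + 1) 0 (π - t2) t1 (by norm_num)).2 h1
      have g3 := (T1 q (1 + 1) 2 (π - t2) t3 (by norm_num)).2 h3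
      obtain ⟨k, hk, hst⟩ := ih _ _ _ _ (T3 4 l q (1 + 1) (π - t2) h) (hsim _ (hend t2)) g2 g1 g3 (by
        unfold bent at hm ⊢
        rw [if_neg b2] at hm
        rw [if_pos (rfl : π = π)]
        omega)
      exact ⟨k + 1, by omega, T4 4 l q 1 t2 (π - t2) k h hex h2 (by linarith) (by linarith) hsim hst⟩
    · -- third joint
      have hsim : ∀ s ∈ Set.uIcc 0 (π - t3), Simple 4 (turn (2 + 1) s q) := by
        intro s hs'
        apply simple_turn hs (adj_turn hl h h3 hs')
        intro i j hi hj hj4 hne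
        have hj0 : j = 3 := by omega
        subst hj0
        have hi0 : i = 0 ∨ i = 1 ∨ i = 2 := by omega
        rcases hi0 with rfl | rfl | rfl
        · exact (hf s hs').1
        · exact (hf s hs').2
        · exact absurd ⟨rfl, rfl⟩ hne
      have g1 : JointAngle (turn (2 + 1) (π - t3) q) 2 π := by
        have := T2 q 2 (π - t3) t3 h3 (by linarith) (by linarith)
        rwa [show t3 + (π - t3) = π by ring] at this
      have g2 := (T1 q (2 + 1) 0 (π - t3) t1 (by norm_num)).2 h1
      have g3 := (T1 q (2 + 1) 1 (π - t3) t2 (by norm_num)).2 h2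
      obtain ⟨k, hk, hst⟩ := ih _ _ _ _ (T3 4 l q (2 + 1) (π - t3) h) (hsim _ (hend t3)) g2 g3 g1 (by
        unfold bent at hm ⊢
        rw [if_neg b3] at hm
        rw [if_pos (rfl : π = π)]
        omega)
      exact ⟨k + 1, by omega, T4 4 l q 2 t3 (π - t3) k h hex h3 (by linarith) (by linarith) hsim hst⟩
    · obtain ⟨k, hk, hst⟩ := ih q t1 t2 t3 h hs h1 h2 h3 (by
        unfold bent
        rw [if_pos e1, if_pos e2, if_pos e3]
        omega)
      exact ⟨k, by omega, hst⟩

end Pool.Agent.Y862.CH
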