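import Mathlib

set_option autoImplicit false

/-!
Second case, in coordinates with the first link `[0, δ]` on the real axis, `o` below the axis, the last
link in the closed upper half-plane; `a = (a1, 0)` is one of the two ends of the first link.
-/

namespace Pool.Agent.Y862.CH

lemma k2_left {δ a1 o1 o2 b1 b2 c1 c2 w l μ : ℝ} (ha0 : 0 ≤ a1) (ha1 : a1 ≤ δ) (ho2 : o2 < 0)
    (hb2 : 0 ≤ b2) (hc2 : 0 ≤ c2) (hor : 0 < (a1 - o1) * (b2 - o2) - (0 - o2) * (b1 - o1))
    (hDB : ∀ x ∈ Set.Icc (0 : ℝ) δ, ∀ r ∈ Set.Icc (0 : ℝ) 1,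
      ¬ (x = o1 + r * (b1 - o1) ∧ 0 = o2 + r * (b2 - o2)))
    (hDC : ∀ x ∈ Set.Icc (0 : ℝ) δ, ∀ r ∈ Set.Icc (0 : ℝ) 1,
      ¬ (x = b1 + r * (c1 - b1) ∧ 0 = b2 + r * (c2 - b2)))
    (hw0 : 0 ≤ w) (hw1 : w ≤ δ) (hl : 0 ≤ l) (hμ : 0 ≤ μ)
    (e1 : w - b1 = l * (c1 - b1) + μ * (b1 - o1)) (e2 : 0 - b2 = l * (c2 - b2) + μ * (b2 - o2))
    (hn : (w - b1) ^ 2 + b2 ^ 2 ≤ (c1 - b1) ^ 2 + (c2 - b2) ^ 2) :
    ∃ x3 σ : ℝ, x3 < 0 ∧ o1 < x3 ∧ 0 < σ ∧ σ ≤ 1 ∧ x3 = o1 + σ * (b1 - o1) ∧ 0 = o2 + σ * (b2 - o2) := by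
  have hbo : 0 < b2 - o2 := by linarith
  obtain ⟨σ, hσ⟩ : ∃ σ, σ = -o2 / (b2 - o2) := ⟨_, rfl⟩
  have hσ0 : 0 < σ := by
    rw [hσ]
    exact div_pos (by linarith) hbo
  have hσ1 : σ ≤ 1 := by
    rw [hσ, div_le_one hbo]; linarith
  have hσe : σ * (b2 - o2) = -o2 := by rw [hσ]; field_simp
  obtain ⟨x3, hx3⟩ : ∃ x3, x3 = o1 + σ * (b1 - o1) := ⟨_, rfl⟩
  have hx3a : x3 < a1 := by
    have h1 : σ * ((a1 - o1) * (b2 - o2) - (0 - o2) * (b1 - o1)) = (-o2) * (a1 - x3) := by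
      rw [hx3]
      linear_combination (a1 - o1) * hσe
    have h2 : 0 < (-o2) * (a1 - x3) := by rw [← h1]; exact mul_pos hσ0 hor
    have h3 : 0 < a1 - x3 := (mul_pos_iff_of_pos_left (by linarith)).1 h2
    linarith
  have hx30 : x3 < 0 := by
    by_contra h
    push Not at h
    exact hDB x3 ⟨h, by linarith⟩ σ ⟨hσ0.le, hσ1⟩ ⟨hx3, by linarith⟩
  have hob : o1 < b1 := by
    by_contra hcon
    push Not at hcon
    obtain ⟨τ, hτ⟩ : ∃ τ, τ = 1 - σ := ⟨_, rfl⟩
    have hτ0 : 0 ≤ τ := by linarith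
    have hτb : b2 = τ * (b2 - o2) := by rw [hτ]; linear_combination hσe
    have hτx : x3 - b1 = τ * (o1 - b1) := by rw [hτ, hx3]; ring
    have hxb : 0 ≤ x3 - b1 := by rw [hτx]; exact mul_nonneg hτ0 (by linarith)
    have hwb : 0 < w - b1 := by linarith
    rcases hτ0.lt_or_eq with hτp | hτz
    · -- `b2 > 0`
      have hb2p : 0 < b2 := by rw [hτb]; positivity
      obtain ⟨ν, hν⟩ : ∃ ν, ν = μ / τ := ⟨_, rfl⟩
      have hν0 : 0 ≤ ν := by rw [hν]; positivity
      have hμν : μ = ν * τ := by rw [hν]; field_simp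
      have f2 : l * (b2 - c2) = (1 + ν) * b2 := by
        have : μ * (b2 - o2) = ν * b2 := by rw [hμν, mul_assoc, ← hτb]
        linarith
      have f1 : l * (c1 - b1) = (w - b1) + ν * (x3 - b1) := by
        rw [hτx]
        have : μ * (b1 - o1) = -(ν * (τ * (o1 - b1))) := by rw [hμν]; ring
        linarith
      have hlp : 0 < l := by
        rcases hl.lt_or_eq with h | h
        · exact h
        · exfalso
          rw [← h] at f2
          have : 0 < (1 + ν) * b2 := by positivity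
          linarith
      have hl1 : 1 + ν ≤ l := by
        by_contra h
        push Not at h
        have h1 : l * (b2 - c2) ≤ l * b2 := mul_le_mul_of_nonneg_left (by linarith) hl
        have h2 : l * b2 < (1 + ν) * b2 := mul_lt_mul_of_pos_right h hb2p
        linarith
      have hcb : 0 < c1 - b1 := by
        have : 0 < l * (c1 - b1) := by
          rw [f1]
          have : 0 ≤ ν * (x3 - b1) := mul_nonneg hν0 hxb
          linarith
        exact (mul_pos_iff_of_pos_left hlp).1 this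
      have hcw : c1 - b1 ≤ w - b1 := by
        by_contra h
        push Not at h
        have h1 : l * (w - b1) < l * (c1 - b1) := mul_lt_mul_of_pos_left h hlp
        have h2 : ν * (x3 - b1) ≤ ν * (w - b1) := mul_le_mul_of_nonneg_left (by linarith) hν0
        have h3 : (1 + ν) * (w - b1) ≤ l * (w - b1) := mul_le_mul_of_nonneg_right hl1 hwb.le
        linarith
      have hbc : 0 < b2 - c2 := by
        have : 0 < l * (b2 - c2) := by rw [f2]; positivity
        exact (mul_pos_iff_of_pos_left hlp).1 this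
      have g1 : (c1 - b1) ^ 2 ≤ (w - b1) ^ 2 := pow_le_pow_left₀ hcb.le hcw 2
      have g2 : (b2 - c2) ^ 2 ≤ b2 ^ 2 := pow_le_pow_left₀ hbc.le (by linarith) 2
      have g3 : (c2 - b2) ^ 2 = (b2 - c2) ^ 2 := by ring
      have g4 : (w - b1) ^ 2 = (c1 - b1) ^ 2 := by linarith
      have g5 : b2 ^ 2 = (b2 - c2) ^ 2 := by linarith
      have g6 : w - b1 = c1 - b1 := by
        rcases sq_eq_sq_iff_eq_or_eq_neg.1 g4 with h | h
        · exact h
        · linarith
      have g7 : b2 = b2 - c2 := by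
        rcases sq_eq_sq_iff_eq_or_eq_neg.1 g5 with h | h
        · exact h
        · linarith
      exact hDC w ⟨hw0, hw1⟩ 1 ⟨zero_le_one, le_rfl⟩ ⟨by linarith, by linarith⟩
    · -- `b2 = 0`
      have hb20 : b2 = 0 := by rw [hτb, ← hτz]; ring
      have f2 : l * c2 + μ * (-o2) = 0 := by rw [hb20] at e2; linarith
      have h1 : 0 ≤ l * c2 := mul_nonneg hl hc2
      have h2 : 0 ≤ μ * (-o2) := mul_nonneg hμ (by linarith)
      have h3 : μ = 0 := by
        have : μ * (-o2) = 0 := by linarith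
        rcases mul_eq_zero.1 this with h | h
        · exact h
        · linarith
      have h4 : l * c2 = 0 := by linarith
      rw [h3] at e1
      have hlp : 0 < l := by
        rcases hl.lt_or_eq with h | h
        · exact h
        · exfalso
          rw [← h] at e1
          linarith
      have hc20 : c2 = 0 := by
        rcases mul_eq_zero.1 h4 with h | h
        · exact absurd h hlp.ne'
        · exact h
      have hcb : 0 < c1 - b1 := by
        have : 0 < l * (c1 - b1) := by linarith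
        exact (mul_pos_iff_of_pos_left hlp).1 this
      have hn' : (w - b1) ^ 2 ≤ (c1 - b1) ^ 2 := by
        rw [hb20, hc20] at hn
        linarith
      have hle : w - b1 ≤ c1 - b1 := le_of_sq_le_sq hn' hcb.le
      apply hDC w ⟨hw0, hw1⟩ ((w - b1) / (c1 - b1)) ⟨by positivity, (div_le_one hcb).2 hle⟩
      rw [div_mul_cancel₀ _ hcb.ne', hb20, hc20]
      constructor <;> ring
  refine ⟨x3, σ, hx30, ?_, hσ0, hσ1, hx3, by linarith⟩
  rw [hx3]
  have : 0 < σ * (b1 - o1) := mul_pos hσ0 (by linarith)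
  linarith

theorem k2_main {δ a1 o1 o2 b1 b2 c1 c2 w l μ : ℝ} (ha0 : 0 ≤ a1) (ha1 : a1 ≤ δ) (ho2 : o2 < 0)
    (hb2 : 0 ≤ b2) (hc2 : 0 ≤ c2) (hor : 0 < (a1 - o1) * (b2 - o2) - (0 - o2) * (b1 - o1))
    (hDB : ∀ x ∈ Set.Icc (0 : ℝ) δ, ∀ r ∈ Set.Icc (0 : ℝ) 1,
      ¬ (x = o1 + r * (b1 - o1) ∧ 0 = o2 + r * (b2 - o2)))
    (hDC : ∀ x ∈ Set.Icc (0 : ℝ) δ, ∀ r ∈ Set.Icc (0 : ℝ) 1,
      ¬ (x = b1 + r * (c1 - b1) ∧ 0 = b2 + r * (c2 - b2)))
    (hw0 : 0 ≤ w) (hw1 : w ≤ δ) (hl : 0 ≤ l) (hμ : 0 ≤ μ)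
    (e1 : w - b1 = l * (c1 - b1) + μ * (b1 - o1)) (e2 : 0 - b2 = l * (c2 - b2) + μ * (b2 - o2))
    (hn : (w - b1) ^ 2 + b2 ^ 2 ≤ (c1 - b1) ^ 2 + (c2 - b2) ^ 2)
    {C S : ℝ} (hCS : C ^ 2 + S ^ 2 = 1) (hS : 0 ≤ S) (hSC : 0 < S ∨ C = 1) :
    (∀ x ∈ Set.Icc (0 : ℝ) δ, ∀ r ∈ Set.Icc (0 : ℝ) 1,
      ¬ (b1 + r * (c1 - b1) - o1 = (x - o1) * C + (0 - o2) * S ∧
        b2 + r * (c2 - b2) - o2 = (0 - o2) * C - (x - o1) * S)) ∧
    (∀ t ∈ Set.Icc (0 : ℝ) 1, ∀ r ∈ Set.Icc (0 : ℝ) 1,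
      ¬ (b1 + r * (c1 - b1) - o1 = t * (a1 - o1) * C + t * (0 - o2) * S ∧
        b2 + r * (c2 - b2) - o2 = t * (0 - o2) * C - t * (a1 - o1) * S)) ∧
    ∀ x ∈ Set.Icc (0 : ℝ) δ, ∀ r ∈ Set.Icc (0 : ℝ) 1,
      ¬ (r * (b1 - o1) = (x - o1) * C + (0 - o2) * S ∧
        r * (b2 - o2) = (0 - o2) * C - (x - o1) * S) := by
  obtain ⟨x3, σ, hx3, hox, hσ0, hσ1, s1, s2⟩ :=
    k2_left ha0 ha1 ho2 hb2 hc2 hor hDB hDC hw0 hw1 hl hμ e1 e2 hn
  have hC1 : C ≤ 1 := by
    by_contra h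
    push Not at h
    have h1 : 1 < C ^ 2 := by nlinarith
    have h2 : 0 ≤ S ^ 2 := sq_nonneg _
    linarith
  have hz : ∀ r ∈ Set.Icc (0 : ℝ) 1, 0 ≤ b2 + r * (c2 - b2) := by
    rintro r ⟨hr0, hr1⟩
    have : b2 + r * (c2 - b2) = (1 - r) * b2 + r * c2 := by ring
    rw [this]
    have : 0 ≤ 1 - r := by linarith
    positivity
  refine ⟨?_, ?_, ?_⟩
  · rintro x ⟨hx0, hx1⟩ r hr ⟨h1, h2⟩
    have h3 := hz r hr
    have h4 : (-o2) * C ≤ (-o2) * 1 := mul_le_mul_of_nonneg_left hC1 (by linarith)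
    rcases hSC with hSp | hC
    · have : 0 < (x - o1) * S := mul_pos (by linarith) hSp
      linarith
    · have hS0 : S = 0 := by
        rw [hC] at hCS
        have : S ^ 2 = 0 := by linarith
        exact pow_eq_zero_iff (by norm_num) |>.1 this
      apply hDC x ⟨hx0, hx1⟩ r hr
      rw [hC, hS0] at h1 h2
      constructor <;> linarith
  · rintro t ⟨ht0, ht1⟩ r hr ⟨h1, h2⟩
    have h3 := hz r hr
    have h4 : t * ((-o2) * C) ≤ 1 * (-o2) := by
      have h5 : (-o2) * C ≤ -o2 := by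
        have := mul_le_mul_of_nonneg_left hC1 (by linarith : 0 ≤ -o2)
        linarith
      have h6 : t * ((-o2) * C) ≤ t * (-o2) := mul_le_mul_of_nonneg_left h5 ht0
      have h7 : t * (-o2) ≤ 1 * (-o2) := mul_le_mul_of_nonneg_right ht1 (by linarith)
      linarith
    have h8 : 0 < a1 - o1 := by linarith
    have h9 : t * (0 - o2) * C = t * ((-o2) * C) := by ring
    rw [h9] at h2
    rcases ht0.lt_or_eq with htp | htz
    · rcases hSC with hSp | hC
      · have : 0 < t * (a1 - o1) * S := by positivity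
        linarith
      · have hS0 : S = 0 := by
          rw [hC] at hCS
          have : S ^ 2 = 0 := by linarith
          exact pow_eq_zero_iff (by norm_num) |>.1 this
        rw [hC, hS0] at h1 h2
        have h10 : t = 1 := by
          have h11 : 0 ≤ (1 - t) * o2 := by linarith
          by_contra hne
          have : t < 1 := lt_of_le_of_ne ht1 hne
          have := mul_neg_of_pos_of_neg (by linarith : 0 < 1 - t) ho2
          linarith
        rw [h10] at h1 h2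
        apply hDC a1 ⟨ha0, ha1⟩ r hr
        constructor <;> linarith
    · rw [← htz] at h2
      linarith
  · rintro x ⟨hx0, hx1⟩ r ⟨hr0, hr1⟩ ⟨h1, h2⟩
    have hcr : (b1 - o1) * (0 - o2) - (b2 - o2) * (x - o1) < 0 := by
      have h3 : σ * ((b1 - o1) * (0 - o2) - (b2 - o2) * (x - o1)) = (-o2) * (x3 - x) := by
        have h4 : σ * (b1 - o1) = x3 - o1 := by linarith
        have h5 : σ * (b2 - o2) = -o2 := by linarith
        linear_combination (0 - o2) * h4 - (x - o1) * h5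
      have h4 : (-o2) * (x3 - x) < 0 := mul_neg_of_pos_of_neg (by linarith) (by linarith)
      by_contra h
      push Not at h
      have := mul_nonneg hσ0.le h
      linarith
    have hid : r * ((b1 - o1) * (0 - o2) - (b2 - o2) * (x - o1)) = S * ((x - o1) ^ 2 + (0 - o2) ^ 2) := by
      have h3 : r * ((b1 - o1) * (0 - o2) - (b2 - o2) * (x - o1)) =
          (r * (b1 - o1)) * (0 - o2) - (r * (b2 - o2)) * (x - o1) := by ring
      rw [h3, h1, h2]; ring
    have hpos : 0 < (x - o1) ^ 2 + (0 - o2) ^ 2 := by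
      have : 0 < x - o1 := by linarith
      positivity
    have h4 : 0 ≤ S * ((x - o1) ^ 2 + (0 - o2) ^ 2) := mul_nonneg hS hpos.le
    rcases hr0.lt_or_eq with hrp | hrz
    · have := mul_neg_of_pos_of_neg hrp hcr
      linarith
    · rw [← hrz] at hid h1 h2
      have h5 : S = 0 := by
        have : S * ((x - o1) ^ 2 + (0 - o2) ^ 2) = 0 := by linarith
        rcases mul_eq_zero.1 this with h | h
        · exact h
        · linarith
      have hC : C = 1 := by
        rcases hSC with h | h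
        · linarith
        · exact h
      rw [h5, hC] at h1
      linarith

/-- two disjoint segments: one of them lies on one side of the line through the other one -/
lemma k2_side {δ b1 b2 c1 c2 : ℝ} (hδ : 0 < δ)
    (hDC : ∀ x ∈ Set.Icc (0 : ℝ) δ, ∀ r ∈ Set.Icc (0 : ℝ) 1,
      ¬ (x = b1 + r * (c1 - b1) ∧ 0 = b2 + r * (c2 - b2))) (hbc : b2 * c2 < 0) :
    0 < ((c1 - b1) * (0 - b2) - (c2 - b2) * (0 - b1)) *
      ((c1 - b1) * (0 - b2) - (c2 - b2) * (δ - b1)) := by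
  have hne : b2 - c2 ≠ 0 := by
    intro h
    have : b2 * c2 = b2 ^ 2 := by rw [show c2 = b2 by linarith]; ring
    nlinarith [sq_nonneg b2]
  obtain ⟨r, hr⟩ : ∃ r, r = b2 / (b2 - c2) := ⟨_, rfl⟩
  have hre : r * (b2 - c2) = b2 := by rw [hr]; field_simp
  have hr01 : 0 ≤ r ∧ r ≤ 1 := by
    have h1 : r * (b2 - c2) ^ 2 = b2 ^ 2 - b2 * c2 := by linear_combination (b2 - c2) * hre
    have h2 : 0 < (b2 - c2) ^ 2 := by positivity
    have h3 : (1 - r) * (b2 - c2) ^ 2 = c2 ^ 2 - b2 * c2 := by linear_combination (-(b2 - c2)) * hre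
    constructor
    · by_contra h
      push Not at h
      have := mul_neg_of_neg_of_pos h h2
      nlinarith [sq_nonneg b2]
    · by_contra h
      push Not at h
      have := mul_neg_of_neg_of_pos (by linarith : 1 - r < 0) h2
      nlinarith [sq_nonneg c2]
  obtain ⟨X, hX⟩ : ∃ X, X = b1 + r * (c1 - b1) := ⟨_, rfl⟩
  have hXn : ¬ (0 ≤ X ∧ X ≤ δ) := by
    rintro ⟨h1, h2⟩
    exact hDC X ⟨h1, h2⟩ r hr01 ⟨hX, by linarith⟩
  have f : ∀ x : ℝ, (c1 - b1) * (0 - b2) - (c2 - b2) * (x - b1) = (b2 - c2) * (x - X) := by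
    intro x
    rw [hX]
    linear_combination (c1 - b1) * hre
  rw [f 0, f δ]
  have h1 : (b2 - c2) * (0 - X) * ((b2 - c2) * (δ - X)) = (b2 - c2) ^ 2 * ((0 - X) * (δ - X)) := by ring
  rw [h1]
  have h2 : 0 < (b2 - c2) ^ 2 := by positivity
  apply mul_pos h2
  rcases lt_or_ge X 0 with h | h
  · apply mul_pos <;> linarith
  · have : δ < X := by
      by_contra h'
      push Not at h'
      exact hXn ⟨h, h'⟩
    exact mul_pos_of_neg_of_neg (by linarith) (by linarith)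

end Pool.Agent.Y862.CH
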