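import Pool.Agent.Y862.CH.K1c
import Pool.Agent.Y862.CH.K2
import Pool.Agent.Helper134.ChainDefs

set_option autoImplicit false

/-!
Four-link chains `d, a, o, b, c` in the plane: definitions and basic facts.
-/

namespace Pool.Agent.Y862.CH

open Real CH134 ComplexConjugate

/-- no point of `[p, q]` is obtained from a point of `[p', q']` by rotation about `o` by the angle `s` -/
def Av (o : ℂ) (s : ℝ) (p q p' q' : ℂ) : Prop :=
  ∀ x ∈ segment ℝ p q, ∀ y ∈ segment ℝ p' q', x - o ≠ (y - o) * Complex.exp (s * Complex.I)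

structure Cfg (d a o b c : ℂ) (t1 t2 t3 : ℝ) : Prop where
  hda : d ≠ a
  hao : a ≠ o
  hob : o ≠ b
  hbc : b ≠ c
  a1 : IsAngle (d - a) (o - a) t1
  a2 : IsAngle (a - o) (b - o) t2
  a3 : IsAngle (o - b) (c - b) t3
  DB : ∀ z ∈ segment ℝ d a, z ∉ segment ℝ o b
  DC : ∀ z ∈ segment ℝ d a, z ∉ segment ℝ b c
  AC : ∀ z ∈ segment ℝ a o, z ∉ segment ℝ b c

def Free1 (d a o b c : ℂ) (t1 : ℝ) : Prop :=
  ∀ s ∈ Set.uIcc 0 (π - t1), Av a s d a o b ∧ Av a s d a b c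

def Free2 (d a o b c : ℂ) (t2 : ℝ) : Prop :=
  ∀ s ∈ Set.uIcc 0 (π - t2), Av o s d a o b ∧ Av o s d a b c ∧ Av o s a o b c

def Free3 (d a o b c : ℂ) (t3 : ℝ) : Prop :=
  ∀ s ∈ Set.uIcc 0 (π - t3), Av b s d a b c ∧ Av b s a o b c

lemma mem_seg {p q z : ℂ} : z ∈ segment ℝ p q ↔ ∃ t : ℝ, 0 ≤ t ∧ t ≤ 1 ∧ z = p + t * (q - p) := by
  rw [segment_eq_image']
  constructor
  · rintro ⟨t, ⟨h0, h1⟩, rfl⟩
    exact ⟨t, h0, h1, by simp⟩
  · rintro ⟨t, h0, h1, rfl⟩
    exact ⟨t, ⟨h0, h1⟩, by simp⟩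

lemma mem_seg' {p q z : ℂ} : z ∈ segment ℝ p q ↔ ∃ t : ℝ, 0 ≤ t ∧ t ≤ 1 ∧ z = q + t * (p - q) := by
  rw [segment_symm]; exact mem_seg

/-- the cross product -/
def cr (u v : ℂ) : ℝ := u.re * v.im - u.im * v.re

lemma cr_def (u v : ℂ) : cr u v = (conj u * v).im := by
  simp [cr, Complex.mul_im]; ring

lemma angle_mul {u v : ℂ} {t : ℝ} (hu : u ≠ 0) (h : IsAngle u v t) :
    v * conj u = ((‖u‖ * ‖v‖ : ℝ) : ℂ) * Complex.exp (t * Complex.I) := by
  obtain ⟨_, _, h⟩ := h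
  have hn : ((‖u‖ : ℝ) : ℂ) ≠ 0 := by
    exact_mod_cast (norm_ne_zero_iff.2 hu)
  have h1 : conj u * u = ((‖u‖ : ℝ) : ℂ) ^ 2 := by
    rw [mul_comm, Complex.mul_conj, Complex.normSq_eq_norm_sq]; push_cast; ring
  apply mul_left_cancel₀ hn
  have : ((‖u‖ : ℝ) : ℂ) * (v * conj u) = (v * (‖u‖ : ℂ)) * conj u := by ring
  rw [this, h]
  push_cast
  linear_combination (((‖v‖ : ℝ) : ℂ) * Complex.exp (t * Complex.I)) * h1

lemma angle_re {u v : ℂ} {t : ℝ} (hu : u ≠ 0) (h : IsAngle u v t) :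
    (v * conj u).re = ‖u‖ * ‖v‖ * cos t := by
  rw [angle_mul hu h, Complex.re_ofReal_mul, Complex.exp_ofReal_mul_I_re]

lemma angle_im {u v : ℂ} {t : ℝ} (hu : u ≠ 0) (h : IsAngle u v t) :
    (v * conj u).im = ‖u‖ * ‖v‖ * sin t := by
  rw [angle_mul hu h, Complex.im_ofReal_mul, Complex.exp_ofReal_mul_I_im]

lemma cr_angle {u v : ℂ} {t : ℝ} (hu : u ≠ 0) (h : IsAngle u v t) : cr u v = ‖u‖ * ‖v‖ * sin t := by
  rw [cr_def, mul_comm, angle_im hu h]

/-- the angle is not zero -/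
lemma angle_ne {u v : ℂ} {t κ : ℝ} (hu : u ≠ 0) (hv : v ≠ 0) (h : IsAngle u v t) (hκ : 0 ≤ κ) :
    u ≠ κ * v := by
  intro he
  have h0 := h.1
  have h1 := h.2.1
  have hre := angle_re hu h
  have him := angle_im hu h
  have hnu : 0 < ‖u‖ := norm_pos_iff.2 hu
  have hnv : 0 < ‖v‖ := norm_pos_iff.2 hv
  have e1 : v * conj u = ((κ * ‖v‖ ^ 2 : ℝ) : ℂ) := by
    rw [he, map_mul, Complex.conj_ofReal]
    have : v * conj v = ((‖v‖ ^ 2 : ℝ) : ℂ) := by
      rw [Complex.mul_conj, Complex.normSq_eq_norm_sq]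
    calc v * (κ * conj v) = κ * (v * conj v) := by ring
      _ = _ := by rw [this]; push_cast; ring
  rw [e1] at hre him
  rw [Complex.ofReal_im] at him
  rw [Complex.ofReal_re] at hre
  have hs : sin t = 0 := by
    have : ‖u‖ * ‖v‖ * sin t = 0 := him.symm
    rcases mul_eq_zero.1 this with h' | h'
    · exact absurd h' (by positivity)
    · exact h'
  have hc : 0 ≤ cos t := by
    by_contra hcon
    push Not at hcon
    have h2 : 0 ≤ κ * ‖v‖ ^ 2 := by positivity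
    have h3 : ‖u‖ * ‖v‖ * cos t < 0 := mul_neg_of_pos_of_neg (by positivity) hcon
    linarith
  -- sin t = 0 and 0 < t < 2 π force t = π
  have ht : t = π := by
    rcases lt_trichotomy t π with h' | h' | h'
    · have := Real.sin_pos_of_pos_of_lt_pi h0 h'
      linarith
    · exact h'
    · have h2 : sin (t - π) = 0 := by rw [Real.sin_sub_pi, hs, neg_zero]
      have := Real.sin_pos_of_pos_of_lt_pi (by linarith : 0 < t - π) (by linarith)
      linarith
  rw [ht, Real.cos_pi] at hc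
  linarith

/-- a straight angle -/
lemma angle_pi {u v : ℂ} (hu : u ≠ 0) (h : IsAngle u v π) :
    ∃ κ : ℝ, 0 ≤ κ ∧ v = -(κ * u) := by
  obtain ⟨_, _, h⟩ := h
  have hn : ((‖u‖ : ℝ) : ℂ) ≠ 0 := by
    exact_mod_cast (norm_ne_zero_iff.2 hu)
  refine ⟨‖v‖ / ‖u‖, by positivity, ?_⟩
  rw [Complex.exp_pi_mul_I] at h
  push_cast
  field_simp
  linear_combination h

/-- the cone spanned by the directions of the opening link -/
lemma cone {u v : ℂ} {φ ρ s : ℝ} (h1 : -π < φ) (h2 : φ < π) (hρ : 0 ≤ ρ)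
    (h : u * Complex.exp (φ * Complex.I) = ρ * v) (hs : s ∈ Set.uIcc 0 φ) :
    ∃ l μ : ℝ, 0 ≤ l ∧ 0 ≤ μ ∧ u * Complex.exp (s * Complex.I) = l * u + μ * v := by
  have key : ∀ (hne : sin φ ≠ 0), 0 ≤ sin (φ - s) / sin φ → 0 ≤ sin s / sin φ →
      ∃ l μ : ℝ, 0 ≤ l ∧ 0 ≤ μ ∧ u * Complex.exp (s * Complex.I) = l * u + μ * v := by
    intro hne ha hb
    refine ⟨sin (φ - s) / sin φ, sin s / sin φ * ρ, ha, by positivity, ?_⟩
    have hne' : ((sin φ : ℝ) : ℂ) ≠ 0 := by exact_mod_cast hne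
    have e1 : ((sin φ : ℝ) : ℂ) * Complex.exp (s * Complex.I) =
        ((sin (φ - s) : ℝ) : ℂ) + ((sin s : ℝ) : ℂ) * Complex.exp (φ * Complex.I) := by
      apply Complex.ext
      · rw [Complex.re_ofReal_mul, Complex.exp_ofReal_mul_I_re, Complex.add_re, Complex.ofReal_re,
          Complex.re_ofReal_mul, Complex.exp_ofReal_mul_I_re, Real.sin_sub]
        ring
      · rw [Complex.im_ofReal_mul, Complex.exp_ofReal_mul_I_im, Complex.add_im, Complex.ofReal_im,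
          Complex.im_ofReal_mul, Complex.exp_ofReal_mul_I_im]
        ring
    push_cast
    apply mul_left_cancel₀ hne'
    have e2 : ((sin φ : ℝ) : ℂ) * (u * Complex.exp (s * Complex.I)) =
        u * (((sin φ : ℝ) : ℂ) * Complex.exp (s * Complex.I)) := by ring
    rw [e2, e1]
    have e3 : u * (((sin (φ - s) : ℝ) : ℂ) + ((sin s : ℝ) : ℂ) * Complex.exp (φ * Complex.I)) =
        ((sin (φ - s) : ℝ) : ℂ) * u + ((sin s : ℝ) : ℂ) * (u * Complex.exp (φ * Complex.I)) := by ring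
    rw [e3, h]
    push_cast at hne' ⊢
    field_simp
  rcases lt_trichotomy φ 0 with hφ | hφ | hφ
  · rw [Set.uIcc_of_ge hφ.le] at hs
    have hsφ : sin φ < 0 := Real.sin_neg_of_neg_of_neg_pi_lt hφ h1
    refine key hsφ.ne ?_ ?_
    · apply div_nonneg_of_nonpos _ hsφ.le
      exact Real.sin_nonpos_of_nonpos_of_neg_pi_le (by linarith [hs.1]) (by linarith [hs.2])
    · apply div_nonneg_of_nonpos _ hsφ.le
      exact Real.sin_nonpos_of_nonpos_of_neg_pi_le hs.2 (by linarith [hs.1])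
  · rw [hφ] at hs
    have : s = 0 := by simpa using hs
    refine ⟨1, 0, zero_le_one, le_rfl, ?_⟩
    rw [this]; simp
  · rw [Set.uIcc_of_le hφ.le] at hs
    have hsφ : 0 < sin φ := Real.sin_pos_of_pos_of_lt_pi hφ h2
    refine key hsφ.ne' ?_ ?_
    · apply div_nonneg _ hsφ.le
      exact Real.sin_nonneg_of_nonneg_of_le_pi (by linarith [hs.2]) (by linarith [hs.1])
    · apply div_nonneg _ hsφ.le
      exact Real.sin_nonneg_of_nonneg_of_le_pi hs.1 (by linarith [hs.2])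

/-- the point `y` is in the cone at `a` spanned by `d - a` and `a - o`, at distance at most `‖d - a‖` -/
def InCone (d a o y : ℂ) : Prop :=
  ∃ l μ : ℝ, 0 ≤ l ∧ 0 ≤ μ ∧ y - a = l * (d - a) + μ * (a - o) ∧ ‖y - a‖ ≤ ‖d - a‖

lemma cone_b {o b c : ℂ} {t3 s : ℝ} (hob : o ≠ b) (h3 : IsAngle (o - b) (c - b) t3)
    (hs : s ∈ Set.uIcc 0 (π - t3)) {x y : ℂ} (hy : y ∈ segment ℝ b c)
    (h : x - b = (y - b) * Complex.exp (s * Complex.I)) : InCone c b o x := by
  have hob' : o - b ≠ 0 := sub_ne_zero.2 hob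
  have hn : ((‖o - b‖ : ℝ) : ℂ) ≠ 0 := by exact_mod_cast (norm_ne_zero_iff.2 hob')
  have e1 : (c - b) * Complex.exp (((π - t3 : ℝ) : ℂ) * Complex.I) =
      ((‖c - b‖ / ‖o - b‖ : ℝ) : ℂ) * (b - o) := by
    have h4 := h3.2.2
    have e2 : Complex.exp (((π - t3 : ℝ) : ℂ) * Complex.I) * Complex.exp (t3 * Complex.I) = -1 := by
      rw [← Complex.exp_add]
      have : ((π - t3 : ℝ) : ℂ) * Complex.I + t3 * Complex.I = π * Complex.I := by push_cast; ring
      rw [this, Complex.exp_pi_mul_I]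
    push_cast at e2 ⊢
    field_simp
    have h5 : (c - b) * Complex.exp (((π : ℂ) - t3) * Complex.I) * (‖o - b‖ : ℂ) =
        (o - b) * ‖c - b‖ * (Complex.exp (((π : ℂ) - t3) * Complex.I) * Complex.exp (t3 * Complex.I)) := by
      linear_combination Complex.exp (((π : ℂ) - t3) * Complex.I) * h4
    linear_combination h5 + (o - b) * ‖c - b‖ * e2
  obtain ⟨l, μ, hl, hμ, he⟩ := cone (by linarith [h3.2.1]) (by linarith [h3.1])
    (by positivity) e1 hs
  obtain ⟨t, ht0, ht1, rfl⟩ := mem_seg.1 hy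
  refine ⟨t * l, t * μ, by positivity, by positivity, ?_, ?_⟩
  · rw [h]
    push_cast
    linear_combination (t : ℂ) * he
  · rw [h]
    have : (b + t * (c - b) - b) = (t : ℂ) * (c - b) := by ring
    rw [this, norm_mul, norm_mul, Complex.norm_exp_ofReal_mul_I, mul_one, Complex.norm_real,
      Real.norm_eq_abs, abs_of_nonneg ht0]
    have := mul_le_mul_of_nonneg_right ht1 (norm_nonneg (c - b))
    linarith

end Pool.Agent.Y862.CH
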