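import Pool.Agent.Y862.CH.Geo

set_option autoImplicit false

/-!
The first case for four-link chains in the plane.
-/

namespace Pool.Agent.Y862.CH

open Real CH134 ComplexConjugate

lemma norm_sq_re_im (z : ℂ) : ‖z‖ ^ 2 = z.re ^ 2 + z.im ^ 2 := by
  rw [← Complex.normSq_eq_norm_sq, Complex.normSq_apply]; ring

lemma exp_neg_eq {x y o : ℂ} {s : ℝ} (h : x - o = (y - o) * Complex.exp (s * Complex.I)) :
    y - o = (x - o) * ((cos s : ℂ) - (sin s : ℂ) * Complex.I) := by
  rw [h]
  have h1 : Complex.exp (s * Complex.I) = (cos s : ℂ) + (sin s : ℂ) * Complex.I := by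
    rw [Complex.exp_mul_I]; push_cast; ring
  rw [h1]
  have h2 : ((cos s : ℂ)) ^ 2 + ((sin s : ℂ)) ^ 2 = 1 := by
    have := Real.cos_sq_add_sin_sq s
    exact_mod_cast this
  have h3 : Complex.I ^ 2 = -1 := Complex.I_sq
  linear_combination (-(y - o)) * h2 + (y - o) * (sin s : ℂ) ^ 2 * h3

/-- **First case**, complex form. -/
theorem K1c {d a o b c : ℂ} {t1 t2 t3 : ℝ} (h : Cfg d a o b c t1 t2 t3) (ht : t2 < π) {y : ℂ}
    (hy : y ∈ segment ℝ o b) (hc : InCone d a o y) :
    Free2 d a o b c t2 ∨ (t3 ≠ π ∧ Free3 d a o b c t3) := by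
  obtain ⟨u, hu⟩ : ∃ u, u = a - o := ⟨_, rfl⟩
  have hu0 : u ≠ 0 := by rw [hu]; exact sub_ne_zero.2 h.hao
  have hcu : conj u ≠ 0 := by simpa using hu0
  have hnu : 0 < ‖u‖ := norm_pos_iff.2 hu0
  obtain ⟨A, hA⟩ : ∃ A : ℝ, A = ‖u‖ ^ 2 := ⟨_, rfl⟩
  have hA0 : 0 < A := by rw [hA]; positivity
  have hAu : (a - o) * conj u = (A : ℂ) := by
    rw [← hu, Complex.mul_conj, Complex.normSq_eq_norm_sq, hA]
  obtain ⟨D', hD⟩ : ∃ D', D' = (d - o) * conj u := ⟨_, rfl⟩
  obtain ⟨B', hB⟩ : ∃ B', B' = (b - o) * conj u := ⟨_, rfl⟩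
  obtain ⟨C', hC⟩ : ∃ C', C' = (c - o) * conj u := ⟨_, rfl⟩
  have hDa : (d - a) * conj u = D' - A := by rw [hD, ← hAu]; ring
  have hBa : (c - b) * conj u = C' - B' := by rw [hC, hB]; ring
  have hbo : b - o ≠ 0 := sub_ne_zero.2 h.hob.symm
  have hnb : 0 < ‖b - o‖ := norm_pos_iff.2 hbo
  have hBre : B'.re = ‖u‖ * ‖b - o‖ * cos t2 := by
    rw [hB, hu]
    exact angle_re (by rw [← hu]; exact hu0) h.a2
  have hBim : B'.im = ‖u‖ * ‖b - o‖ * sin t2 := by
    rw [hB, hu]
    exact angle_im (by rw [← hu]; exact hu0) h.a2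
  have ht20 : 0 < t2 := h.a2.1
  have hb2 : 0 < B'.im := by
    rw [hBim]
    have := Real.sin_pos_of_pos_of_lt_pi ht20 ht
    positivity
  -- non-degeneracy at `a`
  have hd : ¬ (D'.im = 0 ∧ D'.re ≤ A) := by
    rintro ⟨e1, e2⟩
    have e3 : d - a = (((A - D'.re) / A : ℝ) : ℂ) * (o - a) := by
      apply mul_right_cancel₀ hcu
      have e4 : (o - a) * conj u = -(A : ℂ) := by rw [← hAu]; ring
      rw [hDa, mul_assoc, e4]
      have hA' : (A : ℂ) ≠ 0 := by exact_mod_cast hA0.ne'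
      apply Complex.ext
      · rw [Complex.sub_re, Complex.ofReal_re, mul_neg, Complex.neg_re, ← Complex.ofReal_mul,
          Complex.ofReal_re]
        field_simp
        ring
      · rw [Complex.sub_im, Complex.ofReal_im, mul_neg, Complex.neg_im, ← Complex.ofReal_mul,
          Complex.ofReal_im, e1]
        ring
    exact angle_ne (sub_ne_zero.2 h.hda) (sub_ne_zero.2 h.hao.symm) h.a1
      (div_nonneg (by linarith) hA0.le) e3
  -- non-degeneracy at `b`
  have hcc : ¬ (B'.re * C'.im - B'.im * C'.re = 0 ∧ C'.im ≤ B'.im) := by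
    rintro ⟨e1, e2⟩
    have e3 : c - b = (((B'.im - C'.im) / B'.im : ℝ) : ℂ) * (o - b) := by
      apply mul_right_cancel₀ hcu
      have e4 : (o - b) * conj u = -B' := by rw [hB]; ring
      rw [hBa, mul_assoc, e4]
      apply Complex.ext
      · rw [Complex.sub_re, mul_neg, Complex.neg_re, Complex.re_ofReal_mul]
        field_simp
        linarith
      · rw [Complex.sub_im, mul_neg, Complex.neg_im, Complex.im_ofReal_mul]
        field_simp
        ring
    have e4 : IsAngle (o - b) (c - b) t3 := h.a3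
    -- `c - b` is a nonnegative multiple of `o - b`: angle zero
    rcases (div_nonneg (sub_nonneg.2 e2) hb2.le).lt_or_eq with hκ | hκ
    · have e5 : o - b = (((B'.im - C'.im) / B'.im)⁻¹ : ℝ) * (c - b) := by
        rw [e3, ← mul_assoc, ← Complex.ofReal_mul, inv_mul_cancel₀ hκ.ne', Complex.ofReal_one, one_mul]
      exact angle_ne (sub_ne_zero.2 h.hob) (sub_ne_zero.2 h.hbc.symm) e4 (inv_nonneg.2 hκ.le) e5
    · rw [← hκ] at e3
      apply h.hbc
      have : c - b = 0 := by rw [e3]; simp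
      exact (sub_eq_zero.1 this).symm
  -- disjointness in coordinates
  have hDB : ∀ t ∈ Set.Icc (0 : ℝ) 1, ∀ r ∈ Set.Icc (0 : ℝ) 1,
      ¬ (A + t * (D'.re - A) = r * B'.re ∧ t * D'.im = r * B'.im) := by
    rintro t ⟨ht0, ht1⟩ r ⟨hr0, hr1⟩ ⟨e1, e2⟩
    have e3 : (a + t * (d - a)) = o + r * (b - o) := by
      have : ((a - o) + t * (d - a)) * conj u = (r * (b - o)) * conj u := by
        rw [add_mul, mul_assoc, hDa, hAu, mul_assoc, ← hB]
        apply Complex.ext
        · simp only [Complex.add_re, Complex.ofReal_re, Complex.re_ofReal_mul, Complex.sub_re]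
          exact e1
        · simp only [Complex.add_im, Complex.ofReal_im, Complex.im_ofReal_mul, Complex.sub_im]
          linarith
      have := mul_right_cancel₀ hcu this
      linear_combination this
    exact h.DB _ (mem_seg'.2 ⟨t, ht0, ht1, rfl⟩) (by rw [e3]; exact mem_seg.2 ⟨r, hr0, hr1, rfl⟩)
  have hDC : ∀ t ∈ Set.Icc (0 : ℝ) 1, ∀ r ∈ Set.Icc (0 : ℝ) 1,
      ¬ (A + t * (D'.re - A) = B'.re + r * (C'.re - B'.re) ∧
        t * D'.im = B'.im + r * (C'.im - B'.im)) := by
    rintro t ⟨ht0, ht1⟩ r ⟨hr0, hr1⟩ ⟨e1, e2⟩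
    have e3 : (a + t * (d - a)) = b + r * (c - b) := by
      have : ((a - o) + t * (d - a)) * conj u = ((b - o) + r * (c - b)) * conj u := by
        rw [add_mul, mul_assoc, hDa, hAu, add_mul, mul_assoc, hBa, ← hB]
        apply Complex.ext
        · simp only [Complex.add_re, Complex.ofReal_re, Complex.re_ofReal_mul, Complex.sub_re]
          exact e1
        · simp only [Complex.add_im, Complex.ofReal_im, Complex.im_ofReal_mul, Complex.sub_im]
          linarith
      have := mul_right_cancel₀ hcu this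
      linear_combination this
    exact h.DC _ (mem_seg'.2 ⟨t, ht0, ht1, rfl⟩) (by rw [e3]; exact mem_seg.2 ⟨r, hr0, hr1, rfl⟩)
  have hAC : ∀ t ∈ Set.Icc (0 : ℝ) 1, ∀ r ∈ Set.Icc (0 : ℝ) 1,
      ¬ (t * A = B'.re + r * (C'.re - B'.re) ∧ 0 = B'.im + r * (C'.im - B'.im)) := by
    rintro t ⟨ht0, ht1⟩ r ⟨hr0, hr1⟩ ⟨e1, e2⟩
    have e3 : (o + t * (a - o)) = b + r * (c - b) := by
      have : (t * (a - o)) * conj u = ((b - o) + r * (c - b)) * conj u := by
        rw [mul_assoc, hAu, add_mul, mul_assoc, hBa, ← hB]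
        apply Complex.ext
        · simp only [Complex.add_re, Complex.ofReal_re, Complex.re_ofReal_mul, Complex.sub_re]
          exact e1
        · simp only [Complex.add_im, Complex.ofReal_im, Complex.im_ofReal_mul, Complex.sub_im]
          linarith
      have := mul_right_cancel₀ hcu this
      linear_combination this
    exact h.AC _ (mem_seg'.2 ⟨t, ht0, ht1, rfl⟩) (by rw [e3]; exact mem_seg.2 ⟨r, hr0, hr1, rfl⟩)
  -- the cone point
  obtain ⟨τ, hτ0, hτ1, rfl⟩ := mem_seg.1 hy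
  obtain ⟨l, μ, hl, hμ, hcone, hnorm⟩ := hc
  have hconeF : (τ : ℂ) * B' - A = l * (D' - A) + μ * A := by
    have : (o + τ * (b - o) - a) * conj u = (l * (d - a) + μ * (a - o)) * conj u := by rw [hcone]
    rw [add_mul, mul_assoc, hDa, mul_assoc, hAu] at this
    rw [← this, hB, ← hAu]; ring
  have e1 : τ * B'.re - A = l * (D'.re - A) + μ * A := by
    have := congrArg Complex.re hconeF
    simpa only [Complex.sub_re, Complex.re_ofReal_mul, Complex.ofReal_re, Complex.add_re] using this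
  have e2 : τ * B'.im = l * D'.im := by
    have := congrArg Complex.im hconeF
    simp only [Complex.sub_im, Complex.im_ofReal_mul, Complex.ofReal_im, Complex.add_im] at this
    linarith
  have hn : (τ * B'.re - A) ^ 2 + (τ * B'.im) ^ 2 ≤ (D'.re - A) ^ 2 + D'.im ^ 2 := by
    have f1 : ‖(o + τ * (b - o) - a) * conj u‖ ≤ ‖(d - a) * conj u‖ := by
      rw [norm_mul, norm_mul]
      exact mul_le_mul_of_nonneg_right hnorm (norm_nonneg _)
    have f2 : (o + τ * (b - o) - a) * conj u = τ * B' - A := by rw [hB, ← hAu]; ring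
    rw [f2, hDa] at f1
    have f3 := pow_le_pow_left₀ (norm_nonneg _) f1 2
    rw [norm_sq_re_im, norm_sq_re_im] at f3
    simp only [Complex.sub_re, Complex.sub_im, Complex.re_ofReal_mul, Complex.im_ofReal_mul,
      Complex.ofReal_re, Complex.ofReal_im, sub_zero] at f3
    exact f3
  obtain ⟨m1, m2⟩ := k1_main hA0 hb2 hd hcc hτ0 hτ1 hl hμ e1 e2 hn hDB hDC hAC
  by_contra hcon
  rw [not_or, not_and] at hcon
  obtain ⟨n2, n3⟩ := hcon
  unfold Free2 at n2
  push Not at n2
  obtain ⟨s, hs, n2⟩ := n2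
  rw [Set.uIcc_of_le (by linarith : (0 : ℝ) ≤ π - t2)] at hs
  have hS : 0 ≤ sin s := Real.sin_nonneg_of_nonneg_of_le_pi hs.1 (by linarith [hs.2])
  have hCS : cos s ^ 2 + sin s ^ 2 = 1 := Real.cos_sq_add_sin_sq s
  have hθ : 0 ≤ sin s * B'.re + cos s * B'.im := by
    rw [hBre, hBim]
    have h1 : sin s * (‖u‖ * ‖b - o‖ * cos t2) + cos s * (‖u‖ * ‖b - o‖ * sin t2) =
        ‖u‖ * ‖b - o‖ * sin (s + t2) := by rw [Real.sin_add]; ring
    rw [h1]
    have h2 : 0 ≤ sin (s + t2) :=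
      Real.sin_nonneg_of_nonneg_of_le_pi (by linarith [hs.1]) (by linarith [hs.2])
    positivity
  -- `[d, a]` and `[o, b]`
  have hfree : Av o s d a o b := by
    intro x hx z hz hxz
    obtain ⟨t, ht0, ht1, rfl⟩ := mem_seg'.1 hx
    obtain ⟨r, hr0, hr1, rfl⟩ := mem_seg.1 hz
    have h1 := m1 t ⟨ht0, ht1⟩
    have h2 : ((a + t * (d - a)) - o) * conj u = (A + t * (D'.re - A) : ℝ) + ((t * D'.im : ℝ) : ℂ) * Complex.I := by
      have : ((a + t * (d - a)) - o) * conj u = (A : ℂ) + t * (D' - A) := by rw [← hDa, ← hAu]; ring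
      rw [this]
      apply Complex.ext
      · simp
      · simp
    have h3 : ((o + r * (b - o)) - o) * conj u = r * B' := by rw [hB]; ring
    have h4 : ((a + t * (d - a)) - o) * conj u = (r * B') * Complex.exp (s * Complex.I) := by
      rw [hxz, ← h3]; ring
    -- the cross product with `B'`
    have h5 : B'.re * (t * D'.im) - B'.im * (A + t * (D'.re - A)) =
        r * sin s * (B'.re ^ 2 + B'.im ^ 2) := by
      rw [h2] at h4
      have e1 := congrArg Complex.re h4
      have e2 := congrArg Complex.im h4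
      simp only [Complex.add_re, Complex.add_im, Complex.ofReal_re, Complex.ofReal_im, Complex.mul_re,
        Complex.mul_im, Complex.I_re, Complex.I_im, Complex.exp_ofReal_mul_I_re,
        Complex.exp_ofReal_mul_I_im] at e1 e2
      linear_combination B'.re * e2 - B'.im * e1
    have h6 : 0 ≤ r * sin s * (B'.re ^ 2 + B'.im ^ 2) := by positivity
    linarith
  -- a point of the last link
  have hblk : ∃ x z : ℂ, (x ∈ segment ℝ d a ∨ x ∈ segment ℝ a o) ∧ z ∈ segment ℝ b c ∧
      x - o = (z - o) * Complex.exp (s * Complex.I) := by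
    by_cases h1 : Av o s d a b c
    · have h2 := n2 hfree h1
      unfold Av at h2
      push Not at h2
      obtain ⟨x, hx, z, hz, e⟩ := h2
      exact ⟨x, z, Or.inr hx, hz, e⟩
    · unfold Av at h1
      push Not at h1
      obtain ⟨x, hx, z, hz, e⟩ := h1
      exact ⟨x, z, Or.inl hx, hz, e⟩
  obtain ⟨x, z, hx, hz, hxz⟩ := hblk
  obtain ⟨r0, hr0, hr1, rfl⟩ := mem_seg.1 hz
  have hz' := exp_neg_eq hxz
  have hzF : (B' + r0 * (C' - B')) = ((x - o) * conj u) * ((cos s : ℂ) - (sin s : ℂ) * Complex.I) := by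
    have : (b + r0 * (c - b) - o) * conj u = B' + r0 * (C' - B') := by rw [← hBa, hB]; ring
    rw [← this, hz']; ring
  obtain ⟨w1, hw1⟩ : ∃ w1, w1 = ((x - o) * conj u).re := ⟨_, rfl⟩
  obtain ⟨w2, hw2⟩ : ∃ w2, w2 = ((x - o) * conj u).im := ⟨_, rfl⟩
  have g1 : B'.re + r0 * (C'.re - B'.re) = w1 * cos s + w2 * sin s := by
    have := congrArg Complex.re hzF
    simp only [Complex.add_re, Complex.re_ofReal_mul, Complex.sub_re, Complex.mul_re (_ * _) _,
      Complex.ofReal_re, Complex.ofReal_im, Complex.sub_im, Complex.mul_I_re, Complex.mul_I_im] at this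
    rw [this, hw1, hw2]; ring
  have g2 : B'.im + r0 * (C'.im - B'.im) = w2 * cos s - w1 * sin s := by
    have := congrArg Complex.im hzF
    simp only [Complex.add_im, Complex.im_ofReal_mul, Complex.sub_im, Complex.mul_im (_ * _) _,
      Complex.ofReal_re, Complex.ofReal_im, Complex.sub_re, Complex.mul_I_re, Complex.mul_I_im] at this
    rw [this, hw1, hw2]; ring
  have hw : (∃ t ∈ Set.Icc (0 : ℝ) 1, w1 = A + t * (D'.re - A) ∧ w2 = t * D'.im) ∨
      ∃ t ∈ Set.Icc (0 : ℝ) 1, w1 = t * A ∧ w2 = 0 := by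
    rcases hx with hx | hx
    · left
      obtain ⟨t, ht0, ht1, rfl⟩ := mem_seg'.1 hx
      refine ⟨t, ⟨ht0, ht1⟩, ?_⟩
      have : ((a + t * (d - a)) - o) * conj u = (A : ℂ) + t * (D' - A) := by rw [← hDa, ← hAu]; ring
      rw [hw1, hw2, this]
      constructor
      · simp
      · simp
    · right
      obtain ⟨t, ht0, ht1, rfl⟩ := mem_seg'.1 hx
      refine ⟨t, ⟨ht0, ht1⟩, ?_⟩
      have : ((o + t * (a - o)) - o) * conj u = (t : ℂ) * A := by rw [← hAu]; ring
      rw [hw1, hw2, this]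
      constructor
      · simp
      · simp
  obtain ⟨hneg, hcf⟩ := m2 ⟨w1, w2, cos s, sin s, r0, hCS, hS, hθ, hr0, hr1, hw, g1, g2⟩
  -- the last angle is not straight
  have ht3 : t3 ≠ π := by
    intro e
    have := h.a3
    rw [e] at this
    obtain ⟨κ, hκ, e5⟩ := angle_pi (sub_ne_zero.2 h.hob) this
    have e6 : C' - B' = κ * B' := by
      rw [← hBa, e5, hB]; ring
    have e7 := congrArg Complex.re e6
    have e8 := congrArg Complex.im e6
    simp only [Complex.sub_re, Complex.sub_im, Complex.re_ofReal_mul, Complex.im_ofReal_mul] at e7 e8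
    have : B'.re * C'.im - B'.im * C'.re = 0 := by linear_combination B'.re * e8 - B'.im * e7
    linarith
  have hn3 := n3 ht3
  unfold Free3 at hn3
  push Not at hn3
  obtain ⟨s', hs', hn3⟩ := hn3
  have hblk3 : ∃ x z : ℂ, (x ∈ segment ℝ d a ∨ x ∈ segment ℝ a o) ∧ z ∈ segment ℝ b c ∧
      x - b = (z - b) * Complex.exp (s' * Complex.I) := by
    by_cases h1 : Av b s' d a b c
    · have h2 := hn3 h1
      unfold Av at h2
      push Not at h2
      obtain ⟨x, hx, z, hz, e⟩ := h2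
      exact ⟨x, z, Or.inr hx, hz, e⟩
    · unfold Av at h1
      push Not at h1
      obtain ⟨x, hx, z, hz, e⟩ := h1
      exact ⟨x, z, Or.inl hx, hz, e⟩
  obtain ⟨x', z', hx', hz', hxz'⟩ := hblk3
  obtain ⟨l', μ', hl', hμ', hco, _⟩ := cone_b h.hob h.a3 hs' hz' hxz'
  obtain ⟨q1, q2⟩ := hcf l' μ' hμ'
  have hxF : (x' - o) * conj u = B' + l' * (C' - B') + μ' * B' := by
    have : x' - o = (x' - b) + (b - o) := by ring
    rw [this, hco, ← hBa, hB]; ring
  have r1 : ((x' - o) * conj u).re = B'.re + l' * (C'.re - B'.re) + μ' * B'.re := by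
    rw [hxF]; simp
  have r2 : ((x' - o) * conj u).im = B'.im + l' * (C'.im - B'.im) + μ' * B'.im := by
    rw [hxF]; simp
  rcases hx' with hx' | hx'
  · obtain ⟨t, ht0, ht1, rfl⟩ := mem_seg'.1 hx'
    apply q1 t ⟨ht0, ht1⟩
    have : ((a + t * (d - a)) - o) * conj u = (A : ℂ) + t * (D' - A) := by rw [← hDa, ← hAu]; ring
    rw [this] at r1 r2
    constructor
    · rw [← r1]; simp
    · rw [← r2]; simp
  · obtain ⟨t, ht0, ht1, rfl⟩ := mem_seg'.1 hx'
    apply q2 t ⟨ht0, ht1⟩
    have : ((o + t * (a - o)) - o) * conj u = (t : ℂ) * A := by rw [← hAu]; ring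
    rw [this] at r1 r2
    constructor
    · rw [← r1]; simp
    · rw [← r2]; simp

end Pool.Agent.Y862.CH
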