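import Pool.Agent.Y862.CH.Geo2

set_option autoImplicit false

/-!
The second case for four-link chains in the plane.
-/

namespace Pool.Agent.Y862.CH

open Real CH134 ComplexConjugate

lemma cr_im (u v : ℂ) : cr u v = (v * conj u).im := by rw [cr_def, mul_comm]

lemma coord_eq {p z1 z2 u : ℂ} (hu : u ≠ 0) (h1 : ((z1 - p) * conj u).re = ((z2 - p) * conj u).re)
    (h2 : ((z1 - p) * conj u).im = ((z2 - p) * conj u).im) : z1 = z2 := by
  have hcu : conj u ≠ 0 := by simpa using hu
  have := mul_right_cancel₀ hcu (Complex.ext h1 h2)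
  linear_combination this

lemma coord_add (p u z w : ℂ) (t : ℝ) :
    ((z + t * (w - z) - p) * conj u).re =
      ((z - p) * conj u).re + t * (((w - p) * conj u).re - ((z - p) * conj u).re) ∧
    ((z + t * (w - z) - p) * conj u).im =
      ((z - p) * conj u).im + t * (((w - p) * conj u).im - ((z - p) * conj u).im) := by
  have : (z + t * (w - z) - p) * conj u =
      (z - p) * conj u + t * ((w - p) * conj u - (z - p) * conj u) := by ring
  rw [this]
  constructor
  · simp only [Complex.add_re, Complex.re_ofReal_mul, Complex.sub_re]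
  · simp only [Complex.add_im, Complex.im_ofReal_mul, Complex.sub_im]

lemma rot_aux {P Q R : ℂ} {C S : ℝ} (h : P - Q = (R - Q) * ((C : ℂ) - (S : ℂ) * Complex.I)) :
    P.re - Q.re = (R.re - Q.re) * C + (R.im - Q.im) * S ∧
    P.im - Q.im = (R.im - Q.im) * C - (R.re - Q.re) * S := by
  have e1 := congrArg Complex.re h
  have e2 := congrArg Complex.im h
  simp only [Complex.sub_re, Complex.sub_im, Complex.mul_re, Complex.mul_im, Complex.ofReal_re,
    Complex.ofReal_im, Complex.I_re, Complex.I_im] at e1 e2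
  constructor
  · rw [e1]; ring
  · rw [e2]; ring

lemma rot_coord {x y o p u : ℂ} {s : ℝ} (h : x - o = (y - o) * Complex.exp (s * Complex.I)) :
    ((y - p) * conj u).re - ((o - p) * conj u).re =
      (((x - p) * conj u).re - ((o - p) * conj u).re) * cos s +
      (((x - p) * conj u).im - ((o - p) * conj u).im) * sin s ∧
    ((y - p) * conj u).im - ((o - p) * conj u).im =
      (((x - p) * conj u).im - ((o - p) * conj u).im) * cos s -
      (((x - p) * conj u).re - ((o - p) * conj u).re) * sin s := by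
  have h1 := exp_neg_eq h
  have h2 : (y - p) * conj u - (o - p) * conj u =
      ((x - p) * conj u - (o - p) * conj u) * ((cos s : ℂ) - (sin s : ℂ) * Complex.I) := by
    have : (y - p) * conj u - (o - p) * conj u = (y - o) * conj u := by ring
    rw [this, h1]; ring
  exact rot_aux h2

/-- **Second case**, complex form. -/
theorem K2c {p q a o b c : ℂ} (hpq : p ≠ q) (ha : a = p ∨ a = q) (ho : cr (q - p) (o - p) < 0)
    (hb : 0 ≤ cr (q - p) (b - p)) (hc : 0 ≤ cr (q - p) (c - p)) (hor : 0 < cr (a - o) (b - o))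
    (DB : ∀ z ∈ segment ℝ p q, z ∉ segment ℝ o b) (DC : ∀ z ∈ segment ℝ p q, z ∉ segment ℝ b c)
    {w : ℂ} (hw : w ∈ segment ℝ p q) (hwc : InCone c b o w) {s : ℝ} (hs0 : 0 ≤ s) (hs1 : s < π) :
    Av o s p q o b ∧ Av o s p q b c ∧ Av o s a o b c := by
  obtain ⟨u, hu⟩ : ∃ u, u = q - p := ⟨_, rfl⟩
  have hu0 : u ≠ 0 := by rw [hu]; exact sub_ne_zero.2 hpq.symm
  have hnu : 0 < ‖u‖ := norm_pos_iff.2 hu0
  obtain ⟨δ, hδ⟩ : ∃ δ : ℝ, δ = ‖u‖ ^ 2 := ⟨_, rfl⟩
  have hδ0 : 0 < δ := by rw [hδ]; positivity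
  have huu : (q - p) * conj u = (δ : ℂ) := by
    rw [← hu, Complex.mul_conj, Complex.normSq_eq_norm_sq, hδ]
  rw [← hu] at ho hb hc
  rw [cr_im] at ho hb hc
  -- points of `[p, q]` in coordinates
  have hseg : ∀ t : ℝ, ((p + t * (q - p) - p) * conj u).re = t * δ ∧
      ((p + t * (q - p) - p) * conj u).im = 0 := by
    intro t
    have : (p + t * (q - p) - p) * conj u = (t : ℂ) * δ := by rw [← huu]; ring
    rw [this]
    constructor
    · simp
    · simp
  have hsegx : ∀ (x : ℝ), x ∈ Set.Icc (0 : ℝ) δ → ∀ z : ℂ, ((z - p) * conj u).re = x →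
      ((z - p) * conj u).im = 0 → z ∈ segment ℝ p q := by
    rintro x ⟨hx0, hx1⟩ z h1 h2
    refine mem_seg.2 ⟨x / δ, by positivity, (div_le_one hδ0).2 hx1, ?_⟩
    apply coord_eq (p := p) hu0
    · rw [h1, (hseg _).1, div_mul_cancel₀ _ hδ0.ne']
    · rw [h2, (hseg _).2]
  obtain ⟨a1, ha1⟩ : ∃ a1, a1 = ((a - p) * conj u).re := ⟨_, rfl⟩
  have ha0 : a1 = 0 ∨ a1 = δ := by
    rw [ha1]
    rcases ha with rfl | rfl
    · left; simp
    · right; rw [huu]; simp
  have ha2 : ((a - p) * conj u).im = 0 := by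
    rcases ha with rfl | rfl
    · simp
    · rw [huu]; simp
  have ha3 : 0 ≤ a1 ∧ a1 ≤ δ := by
    rcases ha0 with h | h <;> rw [h] <;> constructor <;> linarith
  have hor' : 0 < (a1 - ((o - p) * conj u).re) * (((b - p) * conj u).im - ((o - p) * conj u).im) -
      (0 - ((o - p) * conj u).im) * (((b - p) * conj u).re - ((o - p) * conj u).re) := by
    have h1 : cr ((a - o) * conj u) ((b - o) * conj u) = δ * cr (a - o) (b - o) := by
      have h2 : δ = u.re ^ 2 + u.im ^ 2 := by rw [hδ, norm_sq_re_im]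
      rw [h2]
      simp only [cr, Complex.mul_re, Complex.mul_im, Complex.conj_re, Complex.conj_im]
      ring
    have h3 : 0 < cr ((a - o) * conj u) ((b - o) * conj u) := by rw [h1]; positivity
    have h4 : (a - o) * conj u = (a - p) * conj u - (o - p) * conj u := by ring
    have h5 : (b - o) * conj u = (b - p) * conj u - (o - p) * conj u := by ring
    rw [h4, h5] at h3
    simp only [cr, Complex.sub_re, Complex.sub_im, ha2, ← ha1] at h3
    exact h3
  have hDB : ∀ x ∈ Set.Icc (0 : ℝ) δ, ∀ r ∈ Set.Icc (0 : ℝ) 1,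
      ¬ (x = ((o - p) * conj u).re + r * (((b - p) * conj u).re - ((o - p) * conj u).re) ∧
        0 = ((o - p) * conj u).im + r * (((b - p) * conj u).im - ((o - p) * conj u).im)) := by
    rintro x hx r ⟨hr0, hr1⟩ ⟨h1, h2⟩
    obtain ⟨g1, g2⟩ := coord_add p u o b r
    exact DB _ (hsegx x hx (o + r * (b - o)) (by rw [g1, ← h1]) (by rw [g2, ← h2]))
      (mem_seg.2 ⟨r, hr0, hr1, rfl⟩)
  have hDC : ∀ x ∈ Set.Icc (0 : ℝ) δ, ∀ r ∈ Set.Icc (0 : ℝ) 1,
      ¬ (x = ((b - p) * conj u).re + r * (((c - p) * conj u).re - ((b - p) * conj u).re) ∧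
        0 = ((b - p) * conj u).im + r * (((c - p) * conj u).im - ((b - p) * conj u).im)) := by
    rintro x hx r ⟨hr0, hr1⟩ ⟨h1, h2⟩
    obtain ⟨g1, g2⟩ := coord_add p u b c r
    exact DC _ (hsegx x hx (b + r * (c - b)) (by rw [g1, ← h1]) (by rw [g2, ← h2]))
      (mem_seg.2 ⟨r, hr0, hr1, rfl⟩)
  obtain ⟨t, ht0, ht1, rfl⟩ := mem_seg.1 hw
  obtain ⟨l, μ, hl, hμ, hco, hno⟩ := hwc
  have hcoF : ((p + t * (q - p) - p) * conj u) - (b - p) * conj u =
      l * ((c - p) * conj u - (b - p) * conj u) + μ * ((b - p) * conj u - (o - p) * conj u) := by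
    linear_combination (conj u) * hco
  have e1 : t * δ - ((b - p) * conj u).re =
      l * (((c - p) * conj u).re - ((b - p) * conj u).re) +
      μ * (((b - p) * conj u).re - ((o - p) * conj u).re) := by
    have := congrArg Complex.re hcoF
    rw [Complex.sub_re, (hseg t).1] at this
    rw [this]
    simp only [Complex.add_re, Complex.re_ofReal_mul, Complex.sub_re]
  have e2 : 0 - ((b - p) * conj u).im =
      l * (((c - p) * conj u).im - ((b - p) * conj u).im) +
      μ * (((b - p) * conj u).im - ((o - p) * conj u).im) := by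
    have := congrArg Complex.im hcoF
    rw [Complex.sub_im, (hseg t).2] at this
    rw [this]
    simp only [Complex.add_im, Complex.im_ofReal_mul, Complex.sub_im]
  have hn : (t * δ - ((b - p) * conj u).re) ^ 2 + ((b - p) * conj u).im ^ 2 ≤
      (((c - p) * conj u).re - ((b - p) * conj u).re) ^ 2 +
      (((c - p) * conj u).im - ((b - p) * conj u).im) ^ 2 := by
    have f1 : ‖(p + t * (q - p) - b) * conj u‖ ≤ ‖(c - b) * conj u‖ := by
      rw [norm_mul, norm_mul]
      exact mul_le_mul_of_nonneg_right hno (norm_nonneg _)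
    have f2 : (p + t * (q - p) - b) * conj u = (p + t * (q - p) - p) * conj u - (b - p) * conj u := by
      ring
    have f3 : (c - b) * conj u = (c - p) * conj u - (b - p) * conj u := by ring
    rw [f2, f3] at f1
    have f4 := pow_le_pow_left₀ (norm_nonneg _) f1 2
    rw [norm_sq_re_im, norm_sq_re_im, Complex.sub_re, Complex.sub_im, (hseg t).1, (hseg t).2,
      Complex.sub_re, Complex.sub_im] at f4
    have f5 : (0 - ((b - p) * conj u).im) ^ 2 = ((b - p) * conj u).im ^ 2 := by ring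
    rw [f5] at f4
    exact f4
  have hS : 0 ≤ sin s := Real.sin_nonneg_of_nonneg_of_le_pi hs0 hs1.le
  have hSC : 0 < sin s ∨ cos s = 1 := by
    rcases hs0.lt_or_eq with h | h
    · left; exact Real.sin_pos_of_pos_of_lt_pi h hs1
    · right; rw [← h]; simp
  obtain ⟨m1, m2, m3⟩ := k2_main ha3.1 ha3.2 ho hb hc hor' hDB hDC (by positivity)
    (by
      have : t * δ ≤ 1 * δ := mul_le_mul_of_nonneg_right ht1 hδ0.le
      linarith) hl hμ e1 e2 hn (Real.cos_sq_add_sin_sq s) hS hSC
  refine ⟨?_, ?_, ?_⟩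
  · intro x hx y hy hxy
    obtain ⟨k, hk0, hk1, rfl⟩ := mem_seg.1 hx
    obtain ⟨r, hr0, hr1, rfl⟩ := mem_seg.1 hy
    obtain ⟨g1, g2⟩ := rot_coord (p := p) (u := u) hxy
    obtain ⟨f1, f2⟩ := coord_add p u o b r
    rw [f1, (hseg k).1, (hseg k).2] at g1
    rw [f2, (hseg k).1, (hseg k).2] at g2
    apply m3 (k * δ) ⟨by positivity, by
      have : k * δ ≤ 1 * δ := mul_le_mul_of_nonneg_right hk1 hδ0.le
      linarith⟩ r ⟨hr0, hr1⟩
    constructor
    · linarith
    · linarith
  · intro x hx y hy hxy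
    obtain ⟨k, hk0, hk1, rfl⟩ := mem_seg.1 hx
    obtain ⟨r, hr0, hr1, rfl⟩ := mem_seg.1 hy
    obtain ⟨g1, g2⟩ := rot_coord (p := p) (u := u) hxy
    obtain ⟨f1, f2⟩ := coord_add p u b c r
    rw [f1, (hseg k).1, (hseg k).2] at g1
    rw [f2, (hseg k).1, (hseg k).2] at g2
    exact m1 (k * δ) ⟨by positivity, by
      have : k * δ ≤ 1 * δ := mul_le_mul_of_nonneg_right hk1 hδ0.le
      linarith⟩ r ⟨hr0, hr1⟩ ⟨g1, g2⟩
  · intro x hx y hy hxy
    obtain ⟨k, hk0, hk1, rfl⟩ := mem_seg'.1 hx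
    obtain ⟨r, hr0, hr1, rfl⟩ := mem_seg.1 hy
    obtain ⟨g1, g2⟩ := rot_coord (p := p) (u := u) hxy
    obtain ⟨f1, f2⟩ := coord_add p u b c r
    obtain ⟨f3, f4⟩ := coord_add p u o a k
    rw [f1, f3, f4, ha2, ← ha1] at g1
    rw [f2, f3, f4, ha2, ← ha1] at g2
    apply m2 k ⟨hk0, hk1⟩ r ⟨hr0, hr1⟩
    constructor
    · rw [g1]; ring
    · rw [g2]; ring

end Pool.Agent.Y862.CH
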