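import Pool.Agent.Y862.CH.Geo3

set_option autoImplicit false

/-!
Symmetries, and the remaining cases for four-link chains in the plane.
-/

namespace Pool.Agent.Y862.CH

open Real CH134 ComplexConjugate

lemma conj_exp (s : ℝ) : conj (Complex.exp (s * Complex.I)) = Complex.exp (((-s : ℝ) : ℂ) * Complex.I) := by
  rw [← Complex.exp_conj, map_mul, Complex.conj_ofReal, Complex.conj_I]
  push_cast
  ring_nf

lemma exp_mul_neg (s : ℝ) : Complex.exp (s * Complex.I) * Complex.exp (((-s : ℝ) : ℂ) * Complex.I) = 1 := by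
  rw [← Complex.exp_add]
  push_cast
  ring_nf
  exact Complex.exp_zero

lemma angle_sw {u v : ℂ} {t : ℝ} (h : IsAngle u v t) : IsAngle (conj v) (conj u) t := by
  refine ⟨h.1, h.2.1, ?_⟩
  have h1 := congrArg (starRingEnd ℂ) h.2.2
  simp only [map_mul, Complex.conj_ofReal] at h1
  rw [conj_exp] at h1
  rw [RCLike.norm_conj, RCLike.norm_conj]
  have h2 := exp_mul_neg t
  linear_combination (-Complex.exp (t * Complex.I)) * h1 - (conj u * ‖v‖) * h2

lemma angle_cj {u v : ℂ} {t : ℝ} (h : IsAngle u v t) : IsAngle (conj u) (conj v) (2 * π - t) := by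
  refine ⟨by linarith [h.2.1], by linarith [h.1], ?_⟩
  have h1 := congrArg (starRingEnd ℂ) h.2.2
  simp only [map_mul, Complex.conj_ofReal] at h1
  rw [conj_exp] at h1
  rw [RCLike.norm_conj, RCLike.norm_conj, h1]
  congr 1
  have : (((2 * π - t : ℝ) : ℂ) * Complex.I) = ((-t : ℝ) : ℂ) * Complex.I + 2 * π * Complex.I := by
    push_cast; ring
  rw [this, Complex.exp_add, Complex.exp_two_pi_mul_I, mul_one]

lemma seg_conj {p q z : ℂ} (h : z ∈ segment ℝ p q) : conj z ∈ segment ℝ (conj p) (conj q) := by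
  obtain ⟨t, h0, h1, rfl⟩ := mem_seg.1 h
  refine mem_seg.2 ⟨t, h0, h1, ?_⟩
  simp [map_add, map_mul, map_sub]

lemma seg_conj' {p q z : ℂ} (h : z ∈ segment ℝ (conj p) (conj q)) : conj z ∈ segment ℝ p q := by
  have := seg_conj h
  simpa using this

lemma Av.sw {o p q p' q' : ℂ} {s : ℝ} (h : Av (conj o) s (conj p') (conj q') (conj p) (conj q)) :
    Av o s p q p' q' := by
  intro x hx y hy hxy
  apply h _ (seg_conj hy) _ (seg_conj hx)
  have h1 := congrArg (starRingEnd ℂ) hxy
  simp only [map_sub, map_mul] at h1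
  rw [conj_exp] at h1
  have h2 := exp_mul_neg s
  linear_combination (-Complex.exp (s * Complex.I)) * h1 - (conj y - conj o) * h2

lemma Av.cj {o p q p' q' : ℂ} {s : ℝ} (h : Av (conj o) (-s) (conj p) (conj q) (conj p') (conj q')) :
    Av o s p q p' q' := by
  intro x hx y hy hxy
  apply h _ (seg_conj hx) _ (seg_conj hy)
  have h1 := congrArg (starRingEnd ℂ) hxy
  simp only [map_sub, map_mul] at h1
  rw [conj_exp] at h1
  exact h1

lemma Av.symm1 {o p q p' q' : ℂ} {s : ℝ} (h : Av o s p q p' q') : Av o s q p p' q' := by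
  intro x hx y hy; rw [segment_symm] at hx; exact h x hx y hy

lemma Av.symm2 {o p q p' q' : ℂ} {s : ℝ} (h : Av o s p q p' q') : Av o s p q q' p' := by
  intro x hx y hy; rw [segment_symm] at hy; exact h x hx y hy

lemma conj_ne {p q : ℂ} (h : p ≠ q) : conj p ≠ conj q := fun e => h ((starRingEnd ℂ).injective e)

lemma Cfg.sw {d a o b c : ℂ} {t1 t2 t3 : ℝ} (h : Cfg d a o b c t1 t2 t3) :
    Cfg (conj c) (conj b) (conj o) (conj a) (conj d) t3 t2 t1 where
  hda := conj_ne h.hbc.symm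
  hao := conj_ne h.hob.symm
  hob := conj_ne h.hao.symm
  hbc := conj_ne h.hda.symm
  a1 := by
    have := angle_sw h.a3
    rwa [map_sub, map_sub] at this
  a2 := by
    have := angle_sw h.a2
    rwa [map_sub, map_sub] at this
  a3 := by
    have := angle_sw h.a1
    rwa [map_sub, map_sub] at this
  DB := by
    intro z hz hz'
    refine h.AC (conj z) ?_ ?_
    · rw [segment_symm]; exact seg_conj' hz'
    · rw [segment_symm]; exact seg_conj' hz
  DC := by
    intro z hz hz'
    refine h.DC (conj z) ?_ ?_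
    · rw [segment_symm]; exact seg_conj' hz'
    · rw [segment_symm]; exact seg_conj' hz
  AC := by
    intro z hz hz'
    refine h.DB (conj z) ?_ ?_
    · rw [segment_symm]; exact seg_conj' hz'
    · rw [segment_symm]; exact seg_conj' hz

lemma Cfg.cj {d a o b c : ℂ} {t1 t2 t3 : ℝ} (h : Cfg d a o b c t1 t2 t3) :
    Cfg (conj d) (conj a) (conj o) (conj b) (conj c) (2 * π - t1) (2 * π - t2) (2 * π - t3) where
  hda := conj_ne h.hda
  hao := conj_ne h.hao
  hob := conj_ne h.hob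
  hbc := conj_ne h.hbc
  a1 := by
    have := angle_cj h.a1
    rwa [map_sub, map_sub] at this
  a2 := by
    have := angle_cj h.a2
    rwa [map_sub, map_sub] at this
  a3 := by
    have := angle_cj h.a3
    rwa [map_sub, map_sub] at this
  DB := fun z hz hz' => h.DB (conj z) (seg_conj' hz) (seg_conj' hz')
  DC := fun z hz hz' => h.DC (conj z) (seg_conj' hz) (seg_conj' hz')
  AC := fun z hz hz' => h.AC (conj z) (seg_conj' hz) (seg_conj' hz')

lemma Free1.sw {d a o b c : ℂ} {t : ℝ} (h : Free1 (conj c) (conj b) (conj o) (conj a) (conj d) t) :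
    Free3 d a o b c t := fun s hs => by
  obtain ⟨h1, h2⟩ := h s hs
  refine ⟨(Av.sw h2.symm1.symm2), (Av.sw h1.symm1.symm2)⟩

lemma Free3.sw {d a o b c : ℂ} {t : ℝ} (h : Free3 (conj c) (conj b) (conj o) (conj a) (conj d) t) :
    Free1 d a o b c t := fun s hs => by
  obtain ⟨h1, h2⟩ := h s hs
  refine ⟨(Av.sw h2.symm1.symm2), (Av.sw h1.symm1.symm2)⟩

lemma Free2.sw {d a o b c : ℂ} {t : ℝ} (h : Free2 (conj c) (conj b) (conj o) (conj a) (conj d) t) :
    Free2 d a o b c t := fun s hs => by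
  obtain ⟨h1, h2, h3⟩ := h s hs
  exact ⟨Av.sw h3.symm1.symm2, Av.sw h2.symm1.symm2, Av.sw h1.symm1.symm2⟩

lemma neg_mem {s t : ℝ} (hs : s ∈ Set.uIcc 0 (π - t)) : -s ∈ Set.uIcc 0 (π - (2 * π - t)) := by
  rw [Set.mem_uIcc] at hs ⊢
  rcases hs with h | h
  · right; constructor <;> linarith [h.1, h.2]
  · left; constructor <;> linarith [h.1, h.2]

lemma Free1.cj {d a o b c : ℂ} {t : ℝ}
    (h : Free1 (conj d) (conj a) (conj o) (conj b) (conj c) (2 * π - t)) : Free1 d a o b c t :=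
  fun s hs => ⟨Av.cj (h (-s) (neg_mem hs)).1, Av.cj (h (-s) (neg_mem hs)).2⟩

lemma Free2.cj {d a o b c : ℂ} {t : ℝ}
    (h : Free2 (conj d) (conj a) (conj o) (conj b) (conj c) (2 * π - t)) : Free2 d a o b c t :=
  fun s hs => ⟨Av.cj (h (-s) (neg_mem hs)).1, Av.cj (h (-s) (neg_mem hs)).2.1,
    Av.cj (h (-s) (neg_mem hs)).2.2⟩

lemma Free3.cj {d a o b c : ℂ} {t : ℝ}
    (h : Free3 (conj d) (conj a) (conj o) (conj b) (conj c) (2 * π - t)) : Free3 d a o b c t :=
  fun s hs => ⟨Av.cj (h (-s) (neg_mem hs)).1, Av.cj (h (-s) (neg_mem hs)).2⟩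

lemma InCone.cj {d a o y : ℂ} (h : InCone d a o y) : InCone (conj d) (conj a) (conj o) (conj y) := by
  obtain ⟨l, μ, hl, hμ, h1, h2⟩ := h
  refine ⟨l, μ, hl, hμ, ?_, ?_⟩
  · have := congrArg (starRingEnd ℂ) h1
    simpa only [map_sub, map_add, map_mul, Complex.conj_ofReal] using this
  · rw [← map_sub, ← map_sub, RCLike.norm_conj, RCLike.norm_conj]
    exact h2

/-- if the last joint cannot be opened, there is a point of the first two links in the cone -/
lemma not_free3 {d a o b c : ℂ} {t1 t2 t3 : ℝ} (h : Cfg d a o b c t1 t2 t3) (hn : ¬ Free3 d a o b c t3) :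
    ∃ x, (x ∈ segment ℝ d a ∨ x ∈ segment ℝ a o) ∧ InCone c b o x := by
  unfold Free3 at hn
  push Not at hn
  obtain ⟨s, hs, hn⟩ := hn
  by_cases h1 : Av b s d a b c
  · have h2 := hn h1
    unfold Av at h2
    push Not at h2
    obtain ⟨x, hx, z, hz, e⟩ := h2
    exact ⟨x, Or.inr hx, cone_b h.hob h.a3 hs hz e⟩
  · unfold Av at h1
    push Not at h1
    obtain ⟨x, hx, z, hz, e⟩ := h1
    exact ⟨x, Or.inl hx, cone_b h.hob h.a3 hs hz e⟩

lemma not_free1 {d a o b c : ℂ} {t1 t2 t3 : ℝ} (h : Cfg d a o b c t1 t2 t3) (hn : ¬ Free1 d a o b c t1) :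
    ∃ y, (y ∈ segment ℝ o b ∨ y ∈ segment ℝ b c) ∧ InCone d a o y := by
  obtain ⟨x, hx, hc⟩ := not_free3 h.sw (fun h' => hn h'.sw)
  refine ⟨conj x, ?_, ?_⟩
  · rcases hx with hx | hx
    · right
      have := seg_conj' hx
      rwa [segment_symm] at this
    · left
      have := seg_conj' hx
      rwa [segment_symm] at this
  · have := hc.cj
    simpa using this

lemma cr_add (u v w : ℂ) : cr u (v + w) = cr u v + cr u w := by simp [cr]; ring

lemma cr_smul (u v : ℂ) (r : ℝ) : cr u (r * v) = r * cr u v := by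
  simp [cr]; ring

lemma cr_smul' (u v : ℂ) (r : ℝ) : cr (r * u) v = r * cr u v := by
  simp [cr]; ring

lemma cr_self (u : ℂ) : cr u u = 0 := by simp [cr]; ring

/-- the half-plane lemma -/
lemma halfplane {o a b c x : ℂ} (hab : 0 < cr (a - o) (b - o)) (hx : x ∈ segment ℝ o a)
    (hc : InCone c b o x) (hdis : ∀ z ∈ segment ℝ o a, z ∉ segment ℝ b c) :
    0 < cr (a - o) (c - o) := by
  by_contra hcon
  push Not at hcon
  obtain ⟨l, μ, hl, hμ, h1, _⟩ := hc
  obtain ⟨t, ht0, ht1, rfl⟩ := mem_seg.1 hx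
  have h2 : (t : ℂ) * (a - o) = ((1 + μ - l : ℝ) : ℂ) * (b - o) + (l : ℝ) * (c - o) := by
    push_cast
    linear_combination h1
  have h3 : (1 + μ - l) * cr (a - o) (b - o) + l * cr (a - o) (c - o) = 0 := by
    rw [← cr_smul, ← cr_smul, ← cr_add, ← h2, cr_smul, cr_self, mul_zero]
  have h4 : l ≤ 1 + μ := by
    by_contra h
    push Not at h
    have h5 : (1 + μ - l) * cr (a - o) (b - o) < 0 := mul_neg_of_neg_of_pos (by linarith) hab
    have h6 : l * cr (a - o) (c - o) ≤ 0 := mul_nonpos_of_nonneg_of_nonpos hl hcon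
    linarith
  have hM : 0 < 1 + μ := by linarith
  have hM' : ((1 : ℂ) + μ) ≠ 0 := by exact_mod_cast hM.ne'
  have e : o + ((t / (1 + μ) : ℝ) : ℂ) * (a - o) = b + ((l / (1 + μ) : ℝ) : ℂ) * (c - b) := by
    have h2' : (t : ℂ) * (a - o) = (1 + μ - l) * (b - o) + l * (c - o) := by
      push_cast at h2; exact h2
    push_cast
    field_simp
    linear_combination h2'
  refine hdis _ (mem_seg.2 ⟨t / (1 + μ), by positivity, ?_, rfl⟩) ?_
  · rw [div_le_one hM]; linarith
  · rw [e]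
    exact mem_seg.2 ⟨l / (1 + μ), by positivity, by rw [div_le_one hM]; exact h4, rfl⟩

/-- the first joint is straight -/
lemma case_ray {d a o b c : ℂ} {t2 t3 : ℝ} (h : Cfg d a o b c π t2 t3) (ht : t2 < π) :
    Free2 d a o b c t2 ∨ (t3 ≠ π ∧ Free3 d a o b c t3) := by
  by_contra hcon
  rw [not_or, not_and] at hcon
  obtain ⟨n2, n3⟩ := hcon
  have hab : 0 < cr (a - o) (b - o) := by
    rw [cr_angle (sub_ne_zero.2 h.hao) h.a2]
    have h1 := Real.sin_pos_of_pos_of_lt_pi h.a2.1 ht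
    have h2 : 0 < ‖a - o‖ := norm_pos_iff.2 (sub_ne_zero.2 h.hao)
    have h3 : 0 < ‖b - o‖ := norm_pos_iff.2 (sub_ne_zero.2 h.hob.symm)
    positivity
  -- `d` is on the ray
  obtain ⟨κ, hκ, hκe⟩ := angle_pi (sub_ne_zero.2 h.hda) h.a1
  have hκ0 : 0 < κ := by
    rcases hκ.lt_or_eq with h' | h'
    · exact h'
    · exfalso
      rw [← h'] at hκe
      apply h.hao
      have : o - a = 0 := by rw [hκe]; simp
      exact (sub_eq_zero.1 this).symm
  have hκc : (κ : ℂ) ≠ 0 := by exact_mod_cast hκ0.ne'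
  have hdo : d - o = ((1 + κ⁻¹ : ℝ) : ℂ) * (a - o) := by
    have h1 : a - o = κ * (d - a) := by linear_combination (-1 : ℂ) * hκe
    push_cast
    rw [h1]
    field_simp
    linear_combination h1
  have hκi : 0 < κ⁻¹ := inv_pos.2 hκ0
  have hdb : 0 < cr (d - o) (b - o) := by
    rw [hdo, cr_smul']
    have : 0 < 1 + κ⁻¹ := by linarith
    positivity
  -- points of the first two links
  have hpt : ∀ x, (x ∈ segment ℝ d a ∨ x ∈ segment ℝ a o) → ∃ r : ℝ, 0 ≤ r ∧ r ≤ 1 + κ⁻¹ ∧
      x - o = r * (a - o) := by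
    intro x hx
    rcases hx with hx | hx
    · obtain ⟨t, h0, h1, rfl⟩ := mem_seg'.1 hx
      refine ⟨1 + t * κ⁻¹, by positivity, ?_, ?_⟩
      · have : t * κ⁻¹ ≤ 1 * κ⁻¹ := mul_le_mul_of_nonneg_right h1 hκi.le
        linarith
      · push_cast at hdo ⊢
        linear_combination (t : ℂ) * hdo
    · obtain ⟨t, h0, h1, rfl⟩ := mem_seg'.1 hx
      refine ⟨t, h0, by linarith, by ring⟩
  -- disjointness of `[o, d]` and `[b, c]`
  have hod : ∀ z ∈ segment ℝ o d, z ∉ segment ℝ b c := by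
    intro z hz hz'
    obtain ⟨t, h0, h1, rfl⟩ := mem_seg.1 hz
    have hM : 0 < 1 + κ⁻¹ := by linarith
    rcases le_or_gt (t * (1 + κ⁻¹)) 1 with h2 | h2
    · refine h.AC (o + t * (d - o)) (mem_seg'.2 ⟨t * (1 + κ⁻¹), by positivity, h2, ?_⟩) hz'
      push_cast at hdo ⊢
      linear_combination (t : ℂ) * hdo
    · refine h.DC (o + t * (d - o)) (mem_seg'.2 ⟨(t * (1 + κ⁻¹) - 1) / κ⁻¹, ?_, ?_, ?_⟩) hz'
      · apply div_nonneg _ hκi.le; linarith
      · rw [div_le_one hκi]
        have : t * (1 + κ⁻¹) ≤ 1 * (1 + κ⁻¹) := mul_le_mul_of_nonneg_right h1 hM.le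
        linarith
      · have h3 : a - o = κ * (d - a) := by linear_combination (-1 : ℂ) * hκe
        push_cast
        field_simp
        linear_combination (-(1 - (t : ℂ))) * h3
  -- `c` is in the open upper half-plane
  have hac : 0 < cr (d - o) (c - o) := by
    by_cases ht3 : t3 = π
    · have h3 := h.a3
      rw [ht3] at h3
      obtain ⟨ν, hν, hνe⟩ := angle_pi (sub_ne_zero.2 h.hob) h3
      have : c - o = ((1 + ν : ℝ) : ℂ) * (b - o) := by
        push_cast
        linear_combination hνe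
      rw [this, cr_smul]
      positivity
    · obtain ⟨x, hx, hxc⟩ := not_free3 h (n3 ht3)
      apply halfplane hdb _ hxc hod
      obtain ⟨r, hr0, hr1, hr⟩ := hpt x hx
      have hM : 0 < 1 + κ⁻¹ := by linarith
      refine mem_seg.2 ⟨r / (1 + κ⁻¹), by positivity, (div_le_one hM).2 hr1, ?_⟩
      have hM' : (((1 + κ⁻¹ : ℝ)) : ℂ) ≠ 0 := by exact_mod_cast hM.ne'
      rw [hdo, Complex.ofReal_div]
      have : (r : ℂ) / ((1 + κ⁻¹ : ℝ) : ℂ) * (((1 + κ⁻¹ : ℝ) : ℂ) * (a - o)) = r * (a - o) := by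
        rw [← mul_assoc, div_mul_cancel₀ _ hM']
      rw [this]
      linear_combination hr
  have hac' : 0 < cr (a - o) (c - o) := by
    rw [hdo, cr_smul'] at hac
    have hM : 0 < 1 + κ⁻¹ := by linarith
    exact (mul_pos_iff_of_pos_left hM).1 hac
  apply n2
  intro s hs
  rw [Set.uIcc_of_le (by linarith : (0 : ℝ) ≤ π - t2)] at hs
  have hS : 0 ≤ sin s := Real.sin_nonneg_of_nonneg_of_le_pi hs.1 (by linarith [hs.2, h.a2.1])
  -- the main computation
  have key : ∀ x y : ℂ, (x ∈ segment ℝ d a ∨ x ∈ segment ℝ a o) →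
      x - o = (y - o) * Complex.exp (s * Complex.I) → cr (a - o) (y - o) ≤ 0 := by
    intro x y hx hxy
    obtain ⟨r, hr0, _, hr⟩ := hpt x hx
    have h1 := exp_neg_eq hxy
    rw [hr] at h1
    have h2 : cr (a - o) (y - o) = -(r * sin s * ((a - o).re ^ 2 + (a - o).im ^ 2)) := by
      rw [h1, mul_assoc, cr_smul]
      simp only [cr, Complex.mul_re, Complex.mul_im, Complex.sub_re, Complex.sub_im,
        Complex.ofReal_re, Complex.ofReal_im, Complex.I_re, Complex.I_im]
      ring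
    rw [h2]
    have : 0 ≤ r * sin s * ((a - o).re ^ 2 + (a - o).im ^ 2) := by positivity
    linarith
  have keyC : ∀ y ∈ segment ℝ b c, 0 < cr (a - o) (y - o) := by
    intro y hy
    obtain ⟨t, h0, h1, rfl⟩ := mem_seg.1 hy
    have : b + t * (c - b) - o = ((1 - t : ℝ) : ℂ) * (b - o) + (t : ℝ) * (c - o) := by
      push_cast; ring
    rw [this, cr_add, cr_smul, cr_smul]
    rcases h1.lt_or_eq with h2 | h2
    · have : 0 < (1 - t) * cr (a - o) (b - o) := mul_pos (by linarith) hab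
      have : 0 ≤ t * cr (a - o) (c - o) := mul_nonneg h0 hac'.le
      linarith
    · rw [h2]
      linarith
  refine ⟨?_, ?_, ?_⟩
  · intro x hx y hy hxy
    have h1 := key x y (Or.inl hx) hxy
    obtain ⟨t, h0, h2, rfl⟩ := mem_seg.1 hy
    have h3 : o + t * (b - o) - o = (t : ℝ) * (b - o) := by ring
    rw [h3, cr_smul] at h1
    have ht0 : t = 0 := by
      rcases h0.lt_or_eq with h4 | h4
      · have := mul_pos h4 hab
        linarith
      · exact h4.symm
    rw [ht0] at hxy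
    have : x = o := by
      have : x - o = 0 := by rw [hxy]; simp
      exact sub_eq_zero.1 this
    rw [this] at hx
    exact h.DB o hx (left_mem_segment ℝ o b)
  · intro x hx y hy hxy
    have h1 := key x y (Or.inl hx) hxy
    have h2 := keyC y hy
    linarith
  · intro x hx y hy hxy
    have h1 := key x y (Or.inr hx) hxy
    have h2 := keyC y hy
    linarith

end Pool.Agent.Y862.CH
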