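import Pool.Agent.Y862.CH.Geo4

set_option autoImplicit false

/-!
Every four-link chain which is not straight has a joint which can be opened.
-/

namespace Pool.Agent.Y862.CH

open Real CH134 ComplexConjugate

lemma cr_neg (u v : ℂ) : cr u (-v) = -cr u v := by simp [cr]; ring

lemma cr_conj (u v : ℂ) : cr (conj u) (conj v) = -cr u v := by simp [cr]; ring

lemma sin_ne {t : ℝ} (h0 : 0 < t) (h1 : t < 2 * π) (h2 : t ≠ π) : sin t ≠ 0 := by
  rcases lt_or_gt_of_ne h2 with h | h
  · exact (Real.sin_pos_of_pos_of_lt_pi h0 h).ne'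
  · have h3 : 0 < sin (t - π) := Real.sin_pos_of_pos_of_lt_pi (by linarith) (by linarith)
    rw [Real.sin_sub_pi] at h3
    intro h4
    rw [h4] at h3
    linarith

/-- the second case, with the last link on one side of the first link -/
lemma case_side {d a o b c : ℂ} {t1 t2 t3 : ℝ} (h : Cfg d a o b c t1 t2 t3) (ht : t2 < π)
    (ht1 : t1 ≠ π) {x y : ℂ} (hy : y ∈ segment ℝ b c) (hyc : InCone d a o y)
    (hx : x ∈ segment ℝ d a) (hxc : InCone c b o x)
    (hside : 0 ≤ cr (d - a) (b - a) * cr (d - a) (c - a)) : Free2 d a o b c t2 := by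
  have hda : d - a ≠ 0 := sub_ne_zero.2 h.hda
  have hab : 0 < cr (a - o) (b - o) := by
    rw [cr_angle (sub_ne_zero.2 h.hao) h.a2]
    have h1 := Real.sin_pos_of_pos_of_lt_pi h.a2.1 ht
    have h2 : 0 < ‖a - o‖ := norm_pos_iff.2 (sub_ne_zero.2 h.hao)
    have h3 : 0 < ‖b - o‖ := norm_pos_iff.2 (sub_ne_zero.2 h.hob.symm)
    positivity
  have hP : cr (d - a) (o - a) ≠ 0 := by
    rw [cr_angle hda h.a1]
    have h1 := sin_ne h.a1.1 h.a1.2.1 ht1
    have h2 : 0 < ‖d - a‖ := norm_pos_iff.2 hda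
    have h3 : 0 < ‖o - a‖ := norm_pos_iff.2 (sub_ne_zero.2 h.hao.symm)
    exact mul_ne_zero (by positivity) h1
  obtain ⟨l, μ, hl, hμ, e1, e2⟩ := hyc
  -- the height of `y`
  have hyY : cr (d - a) (y - a) = -(μ * cr (d - a) (o - a)) := by
    rw [e1, cr_add, cr_smul, cr_smul, cr_self]
    have : a - o = -(o - a) := by ring
    rw [this, cr_neg]; ring
  have hμ0 : 0 < μ := by
    rcases hμ.lt_or_eq with h' | h'
    · exact h'
    · exfalso
      rw [← h'] at e1
      have e3 : y - a = l * (d - a) := by rw [e1]; simp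
      have hn : 0 < ‖d - a‖ := norm_pos_iff.2 hda
      have hl1 : l ≤ 1 := by
        rw [e3, norm_mul, Complex.norm_real, Real.norm_eq_abs, abs_of_nonneg hl] at e2
        by_contra hcon
        push Not at hcon
        have := mul_lt_mul_of_pos_right hcon hn
        linarith
      exact h.DC y (mem_seg'.2 ⟨l, hl, hl1, by linear_combination e3⟩) hy
  obtain ⟨r, hr0, hr1, rfl⟩ := mem_seg.1 hy
  have hyY2 : cr (d - a) (b + r * (c - b) - a) =
      (1 - r) * cr (d - a) (b - a) + r * cr (d - a) (c - a) := by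
    have : b + r * (c - b) - a = ((1 - r : ℝ) : ℂ) * (b - a) + (r : ℝ) * (c - a) := by
      push_cast; ring
    rw [this, cr_add, cr_smul, cr_smul]
  rw [hyY2] at hyY
  intro s hs
  rw [Set.uIcc_of_le (by linarith : (0 : ℝ) ≤ π - t2)] at hs
  have hs1 : s < π := by linarith [hs.2, h.a2.1]
  have h1r : 0 ≤ 1 - r := by linarith
  rcases lt_or_gt_of_ne hP with hP' | hP'
  · -- `o` is to the right of the first link: frame `a, d`
    have hpos : 0 < (1 - r) * cr (d - a) (b - a) + r * cr (d - a) (c - a) := by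
      rw [hyY]
      have := mul_neg_of_pos_of_neg hμ0 hP'
      linarith
    have hb : 0 ≤ cr (d - a) (b - a) := by
      by_contra hcon
      push Not at hcon
      have h1 : cr (d - a) (c - a) ≤ 0 := by
        by_contra h'
        push Not at h'
        have := mul_neg_of_neg_of_pos hcon h'
        linarith
      have h2 := mul_nonpos_of_nonneg_of_nonpos h1r hcon.le
      have h3 := mul_nonpos_of_nonneg_of_nonpos hr0 h1
      linarith
    have hc : 0 ≤ cr (d - a) (c - a) := by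
      by_contra hcon
      push Not at hcon
      have h1 : cr (d - a) (b - a) ≤ 0 := by
        by_contra h'
        push Not at h'
        have := mul_neg_of_pos_of_neg h' hcon
        linarith
      have h2 := mul_nonpos_of_nonneg_of_nonpos h1r h1
      have h3 := mul_nonpos_of_nonneg_of_nonpos hr0 hcon.le
      linarith
    obtain ⟨m1, m2, m3⟩ := K2c (p := a) (q := d) (a := a) (o := o) (b := b) (c := c) h.hda.symm
      (Or.inl rfl) hP' hb hc hab
      (fun z hz => h.DB z (by rw [segment_symm]; exact hz))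
      (fun z hz => h.DC z (by rw [segment_symm]; exact hz))
      (by rw [segment_symm]; exact hx) hxc hs.1 hs1
    exact ⟨m1.symm1, m2.symm1, m3⟩
  · -- frame `d, a`
    have hflip : ∀ z : ℂ, cr (a - d) (z - d) = -cr (d - a) (z - a) := by
      intro z
      simp [cr]; ring
    have hneg : (1 - r) * cr (d - a) (b - a) + r * cr (d - a) (c - a) < 0 := by
      rw [hyY]
      have := mul_pos hμ0 hP'
      linarith
    have hb : 0 ≤ cr (a - d) (b - d) := by
      rw [hflip]
      by_contra hcon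
      push Not at hcon
      have h0 : 0 < cr (d - a) (b - a) := by linarith
      have h1 : 0 ≤ cr (d - a) (c - a) := by
        by_contra h'
        push Not at h'
        have := mul_neg_of_pos_of_neg h0 h'
        linarith
      have h2 := mul_nonneg h1r h0.le
      have h3 := mul_nonneg hr0 h1
      linarith
    have hc : 0 ≤ cr (a - d) (c - d) := by
      rw [hflip]
      by_contra hcon
      push Not at hcon
      have h0 : 0 < cr (d - a) (c - a) := by linarith
      have h1 : 0 ≤ cr (d - a) (b - a) := by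
        by_contra h'
        push Not at h'
        have := mul_neg_of_neg_of_pos h' h0
        linarith
      have h2 := mul_nonneg h1r h1
      have h3 := mul_nonneg hr0 h0.le
      linarith
    obtain ⟨m1, m2, m3⟩ := K2c (p := d) (q := a) (a := a) (o := o) (b := b) (c := c) h.hda
      (Or.inr rfl) (by rw [hflip]; linarith) hb hc hab h.DB h.DC hx hxc hs.1 hs1
    exact ⟨m1, m2, m3⟩

/-- two disjoint links: one of them is on one side of the other one -/
lemma side_or {d a b c : ℂ} (hda : d ≠ a) (DC : ∀ z ∈ segment ℝ d a, z ∉ segment ℝ b c) :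
    0 ≤ cr (d - a) (b - a) * cr (d - a) (c - a) ∨ 0 ≤ cr (c - b) (a - b) * cr (c - b) (d - b) := by
  by_contra hcon
  rw [not_or] at hcon
  obtain ⟨h1, h2⟩ := hcon
  push Not at h1 h2
  obtain ⟨u, hu⟩ : ∃ u, u = d - a := ⟨_, rfl⟩
  have hu0 : u ≠ 0 := by rw [hu]; exact sub_ne_zero.2 hda
  have hnu : 0 < ‖u‖ := norm_pos_iff.2 hu0
  obtain ⟨δ, hδ⟩ : ∃ δ : ℝ, δ = ‖u‖ ^ 2 := ⟨_, rfl⟩
  have hδ0 : 0 < δ := by rw [hδ]; positivity
  have huu : (d - a) * conj u = (δ : ℂ) := by
    rw [← hu, Complex.mul_conj, Complex.normSq_eq_norm_sq, hδ]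
  rw [← hu] at h1
  rw [cr_im, cr_im] at h1
  have hDC : ∀ x ∈ Set.Icc (0 : ℝ) δ, ∀ r ∈ Set.Icc (0 : ℝ) 1,
      ¬ (x = ((b - a) * conj u).re + r * (((c - a) * conj u).re - ((b - a) * conj u).re) ∧
        0 = ((b - a) * conj u).im + r * (((c - a) * conj u).im - ((b - a) * conj u).im)) := by
    rintro x ⟨hx0, hx1⟩ r ⟨hr0, hr1⟩ ⟨e1, e2⟩
    obtain ⟨g1, g2⟩ := coord_add a u b c r
    refine DC (b + r * (c - b)) (mem_seg'.2 ⟨x / δ, by positivity, (div_le_one hδ0).2 hx1, ?_⟩)
      (mem_seg.2 ⟨r, hr0, hr1, rfl⟩)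
    have hz : (a + ((x / δ : ℝ) : ℂ) * (d - a) - a) * conj u = ((x / δ : ℝ) : ℂ) * δ := by
      rw [← huu]; ring
    apply coord_eq (p := a) hu0
    · rw [g1, ← e1, hz, ← Complex.ofReal_mul, Complex.ofReal_re, div_mul_cancel₀ _ hδ0.ne']
    · rw [g2, ← e2, hz, ← Complex.ofReal_mul, Complex.ofReal_im]
  have h3 := k2_side hδ0 hDC h1
  have e : ∀ z : ℂ, δ * cr (c - b) (z - b) =
      (((c - a) * conj u).re - ((b - a) * conj u).re) * (((z - a) * conj u).im - ((b - a) * conj u).im) -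
      (((c - a) * conj u).im - ((b - a) * conj u).im) *
        (((z - a) * conj u).re - ((b - a) * conj u).re) := by
    intro z
    have h2 : δ = u.re ^ 2 + u.im ^ 2 := by rw [hδ, norm_sq_re_im]
    rw [h2]
    simp only [cr, Complex.mul_re, Complex.mul_im, Complex.conj_re, Complex.conj_im, Complex.sub_re,
      Complex.sub_im]
    ring
  have ea := e a
  have ed := e d
  rw [sub_self, zero_mul, Complex.zero_re, Complex.zero_im] at ea
  rw [huu, Complex.ofReal_re, Complex.ofReal_im] at ed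
  rw [← ea, ← ed] at h3
  have h4 : δ * cr (c - b) (a - b) * (δ * cr (c - b) (d - b)) =
      δ ^ 2 * (cr (c - b) (a - b) * cr (c - b) (d - b)) := by ring
  rw [h4] at h3
  have h5 := mul_neg_of_pos_of_neg (by positivity : 0 < δ ^ 2) h2
  linarith

/-- the middle joint is bent -/
lemma core_lt {d a o b c : ℂ} {t1 t2 t3 : ℝ} (h : Cfg d a o b c t1 t2 t3) (ht : t2 < π) :
    (t1 ≠ π ∧ Free1 d a o b c t1) ∨ Free2 d a o b c t2 ∨ (t3 ≠ π ∧ Free3 d a o b c t3) := by
  by_cases h1 : t1 = π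
  · right
    rw [h1] at h
    exact case_ray h ht
  by_cases h3 : t3 = π
  · rw [h3] at h
    rcases case_ray h.sw ht with h' | h'
    · exact Or.inr (Or.inl h'.sw)
    · exact Or.inl ⟨h'.1, h'.2.sw⟩
  by_contra hcon
  rw [not_or, not_or, not_and, not_and] at hcon
  obtain ⟨n1, n2, n3⟩ := hcon
  obtain ⟨y, hy, hyc⟩ := not_free1 h (n1 h1)
  obtain ⟨x, hx, hxc⟩ := not_free3 h (n3 h3)
  rcases hy with hy | hy
  · rcases K1c h ht hy hyc with h' | h'
    · exact n2 h'
    · exact n3 h3 h'.2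
  rcases hx with hx | hx
  · rcases side_or h.hda h.DC with hs | hs
    · exact n2 (case_side h ht h1 hy hyc hx hxc hs)
    · apply n2
      apply Free2.sw
      refine case_side h.sw ht h3 (x := conj y) (y := conj x) ?_ hxc.cj ?_ hyc.cj ?_
      · have := seg_conj hx
        rwa [segment_symm] at this
      · have := seg_conj hy
        rwa [segment_symm] at this
      · rw [← map_sub, ← map_sub, ← map_sub, cr_conj, cr_conj]
        rw [neg_mul_neg]
        exact hs
  · have hx' : conj x ∈ segment ℝ (conj o) (conj a) := by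
      have := seg_conj hx
      rwa [segment_symm] at this
    rcases K1c h.sw ht hx' hxc.cj with h' | h'
    · exact n2 h'.sw
    · exact n1 h1 h'.2.sw

/-- the middle joint is straight, the first and the last one are bent -/
lemma eq_both {d a o b c : ℂ} {t1 t3 : ℝ} (h : Cfg d a o b c t1 π t3) {x y : ℂ}
    (hy : y ∈ segment ℝ b c) (hyc : InCone d a o y) (hx : x ∈ segment ℝ d a) (hxc : InCone c b o x)
    (hP : 0 < cr (d - a) (b - a)) : False := by
  obtain ⟨κ, hκ, hκe⟩ := angle_pi (sub_ne_zero.2 h.hao) h.a2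
  have hκ1 : 0 < 1 + κ := by linarith
  have hκc : ((1 : ℂ) + κ) ≠ 0 := by exact_mod_cast hκ1.ne'
  have hoa : o - a = ((1 / (1 + κ) : ℝ) : ℂ) * (b - a) := by
    push_cast
    field_simp
    linear_combination (-1 : ℂ) * hκe
  have hbo : b - o = ((κ / (1 + κ) : ℝ) : ℂ) * (b - a) := by
    push_cast
    field_simp
    linear_combination hκe
  have hac : 0 < cr (d - a) (c - a) := by
    refine halfplane (o := a) (a := d) (b := b) (c := c) (x := x) hP (by rw [segment_symm]; exact hx) ?_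
      (fun z hz => h.DC z (by rw [segment_symm]; exact hz))
    obtain ⟨l, μ, hl, hμ, e1, e2⟩ := hxc
    refine ⟨l, μ * (κ / (1 + κ)), hl, by positivity, ?_, e2⟩
    rw [e1, hbo]; push_cast; ring
  obtain ⟨l, μ, hl, hμ, e1, e2⟩ := hyc
  have h1 : cr (d - a) (y - a) = -(μ * (1 / (1 + κ) * cr (d - a) (b - a))) := by
    rw [e1, cr_add, cr_smul, cr_smul, cr_self]
    have : a - o = -(o - a) := by ring
    rw [this, cr_neg, hoa, cr_smul]; ring
  have h2 : 0 ≤ μ * (1 / (1 + κ) * cr (d - a) (b - a)) := by positivity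
  obtain ⟨r, hr0, hr1, rfl⟩ := mem_seg.1 hy
  have h3 : cr (d - a) (b + r * (c - b) - a) =
      (1 - r) * cr (d - a) (b - a) + r * cr (d - a) (c - a) := by
    have : b + r * (c - b) - a = ((1 - r : ℝ) : ℂ) * (b - a) + (r : ℝ) * (c - a) := by
      push_cast; ring
    rw [this, cr_add, cr_smul, cr_smul]
  have h4 : 0 < (1 - r) * cr (d - a) (b - a) + r * cr (d - a) (c - a) := by
    rcases hr1.lt_or_eq with h5 | h5
    · have h6 : 0 < (1 - r) * cr (d - a) (b - a) := mul_pos (by linarith) hP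
      have h7 : 0 ≤ r * cr (d - a) (c - a) := mul_nonneg hr0 hac.le
      linarith
    · rw [h5]; linarith
  linarith

/-- the first two joints are straight -/
lemma eq_last {d a o b c : ℂ} {t3 : ℝ} (h : Cfg d a o b c π π t3) (h3 : t3 ≠ π) :
    Free3 d a o b c t3 := by
  by_contra n3
  obtain ⟨κ, hκ, hκe⟩ := angle_pi (sub_ne_zero.2 h.hao) h.a2
  have hκ0 : 0 < κ := by
    rcases hκ.lt_or_eq with h' | h'
    · exact h'
    · exfalso
      rw [← h'] at hκe
      apply h.hob
      have : b - o = 0 := by rw [hκe]; simp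
      exact (sub_eq_zero.1 this).symm
  have hda : d - a ≠ 0 := sub_ne_zero.2 h.hda
  obtain ⟨ν, hν, hνe⟩ := angle_pi hda h.a1
  have hν0 : 0 < ν := by
    rcases hν.lt_or_eq with h' | h'
    · exact h'
    · exfalso
      rw [← h'] at hνe
      apply h.hao
      have : o - a = 0 := by rw [hνe]; simp
      exact (sub_eq_zero.1 this).symm
  have hκc : (κ : ℂ) ≠ 0 := by exact_mod_cast hκ0.ne'
  have hνc : (ν : ℂ) ≠ 0 := by exact_mod_cast hν0.ne'
  have hP : cr (o - b) (c - b) ≠ 0 := by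
    rw [cr_angle (sub_ne_zero.2 h.hob) h.a3]
    have h2 := sin_ne h.a3.1 h.a3.2.1 h3
    have h3 : 0 < ‖o - b‖ := norm_pos_iff.2 (sub_ne_zero.2 h.hob)
    have h4 : 0 < ‖c - b‖ := norm_pos_iff.2 (sub_ne_zero.2 h.hbc.symm)
    exact mul_ne_zero (by positivity) h2
  obtain ⟨x, hx, l, μ, hl, hμ, e1, e2⟩ := not_free3 h n3
  have hex : ∃ σ : ℝ, 0 < σ ∧ x - b = σ * (o - b) := by
    rcases hx with hx | hx
    · obtain ⟨t, ht0, ht1, rfl⟩ := mem_seg'.1 hx
      refine ⟨1 + (1 + t / ν) / κ, by positivity, ?_⟩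
      push_cast
      field_simp
      linear_combination ((ν : ℂ) + t) * hκe + (κ : ℂ) * t * hνe
    · obtain ⟨t, ht0, ht1, rfl⟩ := mem_seg'.1 hx
      refine ⟨1 + t / κ, by positivity, ?_⟩
      push_cast
      field_simp
      linear_combination (t : ℂ) * hκe
  obtain ⟨σ, hσ, hσe⟩ := hex
  have e4 : (σ : ℂ) * (o - b) = l * (c - b) + ((-μ : ℝ) : ℂ) * (o - b) := by
    rw [← hσe, e1]; push_cast; ring
  have e5 := congrArg (cr (c - b)) e4
  rw [cr_add, cr_smul, cr_smul, cr_smul, cr_self] at e5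
  have e6 : (σ + μ) * cr (c - b) (o - b) = 0 := by linarith
  have e7 : cr (c - b) (o - b) = -cr (o - b) (c - b) := by simp [cr]; ring
  rcases mul_eq_zero.1 e6 with h' | h'
  · linarith
  · rw [e7] at h'
    exact hP (by linarith)

/-- the middle joint is straight: a cone point at `b` is not on `[a, o]` -/
lemma eq_notA {d a o b c : ℂ} {t1 t3 : ℝ} (h : Cfg d a o b c t1 π t3) (h3 : t3 ≠ π) {x : ℂ}
    (hx : x ∈ segment ℝ a o) : ¬ InCone c b o x := by
  rintro ⟨l, μ, hl, hμ, e1, e2⟩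
  obtain ⟨κ, hκ, hκe⟩ := angle_pi (sub_ne_zero.2 h.hao) h.a2
  have hκ0 : 0 < κ := by
    rcases hκ.lt_or_eq with h' | h'
    · exact h'
    · exfalso
      rw [← h'] at hκe
      apply h.hob
      have : b - o = 0 := by rw [hκe]; simp
      exact (sub_eq_zero.1 this).symm
  have hκc : (κ : ℂ) ≠ 0 := by exact_mod_cast hκ0.ne'
  have hP : cr (o - b) (c - b) ≠ 0 := by
    rw [cr_angle (sub_ne_zero.2 h.hob) h.a3]
    have h2 := sin_ne h.a3.1 h.a3.2.1 h3
    have h3 : 0 < ‖o - b‖ := norm_pos_iff.2 (sub_ne_zero.2 h.hob)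
    have h4 : 0 < ‖c - b‖ := norm_pos_iff.2 (sub_ne_zero.2 h.hbc.symm)
    exact mul_ne_zero (by positivity) h2
  obtain ⟨t, ht0, ht1, rfl⟩ := mem_seg'.1 hx
  have e3 : o + t * (a - o) - b = ((1 + t / κ : ℝ) : ℂ) * (o - b) := by
    push_cast
    field_simp
    linear_combination (t : ℂ) * hκe
  have e4 : ((1 + t / κ : ℝ) : ℂ) * (o - b) = l * (c - b) + ((-μ : ℝ) : ℂ) * (o - b) := by
    rw [← e3, e1]; push_cast; ring
  have e5 := congrArg (cr (c - b)) e4
  rw [cr_add, cr_smul, cr_smul, cr_smul, cr_self] at e5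
  have e6 : (1 + t / κ + μ) * cr (c - b) (o - b) = 0 := by linarith
  have e7 : cr (c - b) (o - b) = -cr (o - b) (c - b) := by simp [cr]; ring
  rcases mul_eq_zero.1 e6 with h' | h'
  · have : 0 < 1 + t / κ + μ := by positivity
    linarith
  · rw [e7] at h'
    exact hP (by linarith)

/-- the middle joint is straight -/
lemma core_eq {d a o b c : ℂ} {t1 t3 : ℝ} (h : Cfg d a o b c t1 π t3) :
    (t1 ≠ π ∧ Free1 d a o b c t1) ∨ (t3 ≠ π ∧ Free3 d a o b c t3) ∨ (t1 = π ∧ t3 = π) := by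
  by_cases h1 : t1 = π
  · by_cases h3 : t3 = π
    · exact Or.inr (Or.inr ⟨h1, h3⟩)
    · rw [h1] at h
      exact Or.inr (Or.inl ⟨h3, eq_last h h3⟩)
  by_cases h3 : t3 = π
  · rw [h3] at h
    exact Or.inl ⟨h1, (eq_last h.sw h1).sw⟩
  by_contra hcon
  rw [not_or, not_or, not_and, not_and] at hcon
  obtain ⟨n1, n3, _⟩ := hcon
  obtain ⟨y, hy, hyc⟩ := not_free1 h (n1 h1)
  obtain ⟨x, hx, hxc⟩ := not_free3 h (n3 h3)
  have hx' : x ∈ segment ℝ d a := by
    rcases hx with hx | hx
    · exact hx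
    · exact absurd hxc (eq_notA h h3 hx)
  have hy' : y ∈ segment ℝ b c := by
    rcases hy with hy | hy
    · exfalso
      refine eq_notA h.sw h1 (x := conj y) ?_ hyc.cj
      have := seg_conj hy
      rwa [segment_symm] at this
    · exact hy
  obtain ⟨κ, hκ, hκe⟩ := angle_pi (sub_ne_zero.2 h.hao) h.a2
  have hκ1 : 0 < 1 + κ := by linarith
  have hba : b - a = ((1 + κ : ℝ) : ℂ) * (o - a) := by
    push_cast
    linear_combination hκe
  have hP : cr (d - a) (b - a) ≠ 0 := by
    rw [hba, cr_smul, cr_angle (sub_ne_zero.2 h.hda) h.a1]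
    have h2 := sin_ne h.a1.1 h.a1.2.1 h1
    have h3 : 0 < ‖d - a‖ := norm_pos_iff.2 (sub_ne_zero.2 h.hda)
    have h4 : 0 < ‖o - a‖ := norm_pos_iff.2 (sub_ne_zero.2 h.hao.symm)
    exact mul_ne_zero hκ1.ne' (mul_ne_zero (by positivity) h2)
  rcases lt_or_gt_of_ne hP with hP' | hP'
  · have hcj := h.cj
    rw [show 2 * π - π = π by ring] at hcj
    refine eq_both hcj (x := conj x) (y := conj y) (seg_conj hy') hyc.cj (seg_conj hx') hxc.cj ?_
    rw [← map_sub, ← map_sub, cr_conj]
    linarith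
  · exact eq_both h hy' hyc hx' hxc hP'

/-- **Every four-link chain which is not straight has a bent joint which can be opened.** -/
theorem core {d a o b c : ℂ} {t1 t2 t3 : ℝ} (h : Cfg d a o b c t1 t2 t3) :
    (t1 ≠ π ∧ Free1 d a o b c t1) ∨ (t2 ≠ π ∧ Free2 d a o b c t2) ∨ (t3 ≠ π ∧ Free3 d a o b c t3) ∨
      (t1 = π ∧ t2 = π ∧ t3 = π) := by
  rcases lt_trichotomy t2 π with ht | ht | ht
  · rcases core_lt h ht with h' | h' | h'
    · exact Or.inl h'
    · exact Or.inr (Or.inl ⟨ht.ne, h'⟩)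
    · exact Or.inr (Or.inr (Or.inl h'))
  · subst ht
    rcases core_eq h with h' | h' | h'
    · exact Or.inl h'
    · exact Or.inr (Or.inr (Or.inl h'))
    · exact Or.inr (Or.inr (Or.inr ⟨h'.1, rfl, h'.2⟩))
  · rcases core_lt h.cj (by linarith) with h' | h' | h'
    · exact Or.inl ⟨fun e => h'.1 (by rw [e]; ring), h'.2.cj⟩
    · exact Or.inr (Or.inl ⟨ht.ne', h'.cj⟩)
    · exact Or.inr (Or.inr (Or.inl ⟨fun e => h'.1 (by rw [e]; ring), h'.2.cj⟩))

end Pool.Agent.Y862.CH
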