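import Mathlib

set_option autoImplicit false

namespace Pool.Agent.Y862.CH

lemma k1_pos {A y1 y2 : ℝ} (hy2 : 0 < y2) (hA : 0 < A) (hst : y1 ^ 2 + y2 ^ 2 < A * y1) :
    0 < y1 ∧ 0 < A - y1 ∧ y2 ^ 2 < y1 * (A - y1) := by
  have h2 : 0 < y2 ^ 2 := by positivity
  have h1 : 0 ≤ y1 ^ 2 := sq_nonneg _
  have hy1 : 0 < y1 := by
    have : 0 < A * y1 := by linarith
    exact (mul_pos_iff_of_pos_left hA).1 this
  have h3 : y2 ^ 2 < y1 * (A - y1) := by linarith [show y1 * (A - y1) = A * y1 - y1 ^ 2 by ring]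
  refine ⟨hy1, ?_, h3⟩
  have : 0 < y1 * (A - y1) := by linarith
  exact (mul_pos_iff_of_pos_left hy1).1 this

/-- a point rotated clockwise, if it stays in the upper half-plane, moves right and down -/
lemma k1_rot {w1 w2 z1 z2 C S : ℝ} (hw1 : 0 < w1) (hw2 : 0 ≤ w2) (hCS : C ^ 2 + S ^ 2 = 1) (hS : 0 ≤ S)
    (hz1 : z1 = w1 * C + w2 * S) (hz2 : z2 = w2 * C - w1 * S) (hz : 0 < z2)
    (hne : ¬ (z1 = w1 ∧ z2 = w2)) :
    0 < w2 ∧ z2 < w2 ∧ w1 < z1 ∧ z1 ^ 2 + z2 ^ 2 = w1 ^ 2 + w2 ^ 2 := by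
  have hwC : 0 < w2 * C := by
    have := mul_nonneg hw1.le hS
    linarith
  have hw2pp : 0 < w2 := by
    rcases hw2.lt_or_eq with h | h
    · exact h
    · rw [← h] at hwC; simp at hwC
  have hC : 0 < C := (mul_pos_iff_of_pos_left hw2pp).1 hwC
  have hC1 : C ≤ 1 := by
    by_contra h
    push Not at h
    have h1 : 1 < C ^ 2 := by nlinarith
    have h2 : 0 ≤ S ^ 2 := sq_nonneg _
    linarith
  have hSp : 0 < S := by
    rcases hS.lt_or_eq with h | h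
    · exact h
    · exfalso
      have hC' : C = 1 := by
        rw [← h] at hCS
        have h3 : (C - 1) * (C + 1) = 0 := by linear_combination hCS
        rcases mul_eq_zero.1 h3 with h4 | h4 <;> linarith
      apply hne
      rw [hz1, hz2, hC', ← h]
      constructor <;> ring
  have hzw2 : z2 < w2 := by
    have h1 : 0 < w1 * S := mul_pos hw1 hSp
    have h2 : w2 * C ≤ w2 * 1 := mul_le_mul_of_nonneg_left hC1 hw2
    linarith
  have hnorm : z1 ^ 2 + z2 ^ 2 = w1 ^ 2 + w2 ^ 2 := by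
    rw [hz1, hz2]
    linear_combination (w1 ^ 2 + w2 ^ 2) * hCS
  have hz1p : 0 < z1 := by rw [hz1]; positivity
  refine ⟨hw2pp, hzw2, ?_, hnorm⟩
  have h1 : z2 ^ 2 < w2 ^ 2 := by
    have := mul_self_lt_mul_self hz.le hzw2
    linarith [sq z2, sq w2]
  have h2 : w1 ^ 2 < z1 ^ 2 := by linarith
  exact lt_of_pow_lt_pow_left₀ 2 hz1p.le h2

/-- the rotated point is strictly on the side of the origin of the line through `a` and `y` -/
lemma k1_side {A y1 y2 k w1 w2 z1 z2 : ℝ} (hy1 : 0 < y1) (hy2 : 0 < y2) (hAy : 0 < A - y1)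
    (hst' : y2 ^ 2 < y1 * (A - y1)) (hk : 0 ≤ k) (hk1 : k ≤ 1) (hw1 : w1 = A - k * (A - y1))
    (hw2 : w2 = k * y2) (hzw2 : z2 < w2) (hzw1 : w1 < z1)
    (hnorm : z1 ^ 2 + z2 ^ 2 = w1 ^ 2 + w2 ^ 2) : (A - y1) * (z2 - y2) + y2 * (z1 - y1) < 0 := by
  have hw1y : y1 ≤ w1 := by
    rw [hw1]
    have : k * (A - y1) ≤ 1 * (A - y1) := mul_le_mul_of_nonneg_right hk1 hAy.le
    linarith
  have hw2y : w2 ≤ y2 := by
    rw [hw2]
    have : k * y2 ≤ 1 * y2 := mul_le_mul_of_nonneg_right hk1 hy2.le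
    linarith
  have e1 : (z1 - w1) * (z1 + w1) = (w2 - z2) * (w2 + z2) := by linear_combination hnorm
  have hzs : 2 * y1 < z1 + w1 := by linarith
  have e2 : y2 * (w2 + z2) < (A - y1) * (z1 + w1) := by
    have h3 : y2 * (w2 + z2) ≤ y2 * (2 * y2) := mul_le_mul_of_nonneg_left (by linarith) hy2.le
    have h4 : (A - y1) * (2 * y1) < (A - y1) * (z1 + w1) := mul_lt_mul_of_pos_left hzs hAy
    have h5 : y2 * (2 * y2) = 2 * y2 ^ 2 := by ring
    have h6 : (A - y1) * (2 * y1) = 2 * (y1 * (A - y1)) := by ring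
    linarith
  have h7 : 0 < w2 - z2 := by linarith
  have h4 : 0 < z1 + w1 := by linarith
  have e3 : y2 * (z1 - w1) < (A - y1) * (w2 - z2) := by
    have h5 : y2 * (z1 - w1) * (z1 + w1) < (A - y1) * (w2 - z2) * (z1 + w1) := by
      have h6 : y2 * (z1 - w1) * (z1 + w1) = (w2 - z2) * (y2 * (w2 + z2)) := by
        linear_combination y2 * e1
      have h8 : (A - y1) * (w2 - z2) * (z1 + w1) = (w2 - z2) * ((A - y1) * (z1 + w1)) := by ring
      rw [h6, h8]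
      exact mul_lt_mul_of_pos_left e2 h7
    exact lt_of_mul_lt_mul_right h5 h4.le
  have e4 : (A - y1) * (w2 - y2) + y2 * (w1 - y1) = 0 := by rw [hw1, hw2]; ring
  linarith

/-- the crossing point `G` of the segment from `b` to `z` with the line through `a` and `y` -/
lemma k1_cross {A y1 y2 β z1 z2 : ℝ} (hA : 0 < A) (hy2 : 0 < y2) (hβ : 1 < β) (hz2 : 0 < z2)
    (hh : (A - y1) * (z2 - y2) + y2 * (z1 - y1) < 0) (hcr : y1 * z2 - y2 * z1 < 0) :
    ∃ g kG : ℝ, 0 < g ∧ g < 1 ∧ 0 < kG ∧ kG < 1 ∧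
      (1 - g) * (β * y1) + g * z1 = A - kG * (A - y1) ∧ (1 - g) * (β * y2) + g * z2 = kG * y2 := by
  have hhb : 0 < (A - y1) * (β * y2 - y2) + y2 * (β * y1 - y1) := by
    have : (A - y1) * (β * y2 - y2) + y2 * (β * y1 - y1) = (β - 1) * A * y2 := by ring
    rw [this]
    have : 0 < β - 1 := by linarith
    positivity
  obtain ⟨hb, hhbd⟩ : ∃ hb, hb = (A - y1) * (β * y2 - y2) + y2 * (β * y1 - y1) := ⟨_, rfl⟩
  obtain ⟨hz, hhzd⟩ : ∃ hz, hz = (A - y1) * (z2 - y2) + y2 * (z1 - y1) := ⟨_, rfl⟩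
  rw [← hhbd] at hhb
  rw [← hhzd] at hh
  obtain ⟨g, hg⟩ : ∃ g, g = hb / (hb - hz) := ⟨_, rfl⟩
  have hden : 0 < hb - hz := by linarith
  have hg0 : 0 < g := by rw [hg]; positivity
  have hg1 : g < 1 := by rw [hg, div_lt_one hden]; linarith
  have hgeq : (1 - g) * hb + g * hz = 0 := by
    rw [hg]; field_simp; ring
  obtain ⟨G1, hG1⟩ : ∃ G1, G1 = (1 - g) * (β * y1) + g * z1 := ⟨_, rfl⟩
  obtain ⟨G2, hG2⟩ : ∃ G2, G2 = (1 - g) * (β * y2) + g * z2 := ⟨_, rfl⟩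
  have hG2p : 0 < G2 := by
    rw [hG2]
    have h1 : 0 < 1 - g := by linarith
    have h2 : 0 < β := by linarith
    positivity
  have hGline : (A - y1) * (G2 - y2) + y2 * (G1 - y1) = 0 := by
    rw [hG1, hG2]
    have : (A - y1) * ((1 - g) * (β * y2) + g * z2 - y2) + y2 * ((1 - g) * (β * y1) + g * z1 - y1) =
        (1 - g) * ((A - y1) * (β * y2 - y2) + y2 * (β * y1 - y1)) +
        g * ((A - y1) * (z2 - y2) + y2 * (z1 - y1)) := by ring
    rw [this, ← hhbd, ← hhzd, hgeq]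
  obtain ⟨kG, hkG⟩ : ∃ kG, kG = G2 / y2 := ⟨_, rfl⟩
  have hG2' : G2 = kG * y2 := by rw [hkG]; field_simp
  have hG1' : G1 = A - kG * (A - y1) := by
    have : y2 * (G1 - (A - kG * (A - y1))) = 0 := by
      rw [hG2'] at hGline
      linear_combination hGline
    rcases mul_eq_zero.1 this with h | h
    · exact absurd h hy2.ne'
    · linarith
  have hkGp : 0 < kG := by rw [hkG]; positivity
  have hkG1 : kG < 1 := by
    have hcrG : y1 * G2 - y2 * G1 < 0 := by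
      have : y1 * G2 - y2 * G1 = g * (y1 * z2 - y2 * z1) := by rw [hG1, hG2]; ring
      rw [this]
      exact mul_neg_of_pos_of_neg hg0 hcr
    rw [hG1', hG2'] at hcrG
    have h1 : y1 * (kG * y2) - y2 * (A - kG * (A - y1)) = (y2 * A) * (kG - 1) := by ring
    rw [h1] at hcrG
    have h2 : 0 < y2 * A := by positivity
    by_contra h
    push Not at h
    have := mul_nonneg h2.le (by linarith : 0 ≤ kG - 1)
    linarith
  exact ⟨g, kG, hg0, hg1, hkGp, hkG1, by rw [← hG1, hG1'], by rw [← hG2, hG2']⟩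

/-- the radius decreases from `a` to `y` -/
lemma k1_rad {A y1 y2 k kG : ℝ} (hAy : 0 < A - y1) (hst' : y2 ^ 2 < y1 * (A - y1))
    (hk : 0 ≤ k) (hkG : k < kG) (hkG1 : kG < 1) :
    (A - kG * (A - y1)) ^ 2 + (kG * y2) ^ 2 < (A - k * (A - y1)) ^ 2 + (k * y2) ^ 2 := by
  have h1 : (A - k * (A - y1)) ^ 2 + (k * y2) ^ 2 - ((A - kG * (A - y1)) ^ 2 + (kG * y2) ^ 2) =
      (kG - k) * ((A - y1) * (2 * A - (k + kG) * (A - y1)) - (k + kG) * y2 ^ 2) := by ring
  have h2 : 0 < kG - k := by linarith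
  have h3 : 0 < (A - y1) * (2 * A - (k + kG) * (A - y1)) - (k + kG) * y2 ^ 2 := by
    have h4 : 2 * y1 ≤ 2 * A - (k + kG) * (A - y1) := by
      have : (k + kG) * (A - y1) ≤ 2 * (A - y1) := mul_le_mul_of_nonneg_right (by linarith) hAy.le
      linarith
    have h5 : (k + kG) * y2 ^ 2 ≤ 2 * y2 ^ 2 := mul_le_mul_of_nonneg_right (by linarith) (sq_nonneg _)
    have h6 : (A - y1) * (2 * y1) ≤ (A - y1) * (2 * A - (k + kG) * (A - y1)) :=
      mul_le_mul_of_nonneg_left h4 hAy.le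
    have h7 : (A - y1) * (2 * y1) = 2 * (y1 * (A - y1)) := by ring
    linarith
  have := mul_pos h2 h3
  linarith

/-- `G` lies to the left of `b` -/
lemma k1_left {A y1 y2 k0 M β kG : ℝ} (hA : 0 < A) (hy1 : 0 < y1) (hy2 : 0 < y2) (hAy : 0 < A - y1)
    (hk0 : 0 < k0) (hM : 1 < M) (hMβ : M ≤ β)
    (hN : (M * y1 - A) ^ 2 + (M * y2) ^ 2 ≤ k0 ^ 2 * ((A - y1) ^ 2 + y2 ^ 2)) (hk : k0 < kG) :
    A - kG * (A - y1) < β * y1 := by
  by_contra h
  push Not at h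
  obtain ⟨G1, hG1⟩ : ∃ G1, G1 = A - kG * (A - y1) := ⟨_, rfl⟩
  obtain ⟨G2, hG2⟩ : ∃ G2, G2 = kG * y2 := ⟨_, rfl⟩
  rw [← hG1] at h
  have hkG : 0 < kG := by linarith
  have h1 : M * y1 ≤ G1 := by
    have : M * y1 ≤ β * y1 := mul_le_mul_of_nonneg_right hMβ hy1.le
    linarith
  have hG1A : G1 < A := by
    rw [hG1]
    have : 0 < kG * (A - y1) := by positivity
    linarith
  have hG2p : 0 < G2 := by rw [hG2]; positivity
  have hline : (A - y1) * (G2 - y2) + y2 * (G1 - y1) = 0 := by rw [hG1, hG2]; ring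
  have h2 : 0 < (A - y1) * (M * y2 - y2) + y2 * (M * y1 - y1) := by
    have : (A - y1) * (M * y2 - y2) + y2 * (M * y1 - y1) = (M - 1) * A * y2 := by ring
    rw [this]
    have : 0 < M - 1 := by linarith
    positivity
  have h3 : 0 < (A - y1) * (M * y2 - G2) := by
    have e : (A - y1) * (M * y2 - G2) = ((A - y1) * (M * y2 - y2) + y2 * (M * y1 - y1)) -
        ((A - y1) * (G2 - y2) + y2 * (G1 - y1)) + y2 * (G1 - M * y1) := by ring
    rw [e, hline]
    have : 0 ≤ y2 * (G1 - M * y1) := mul_nonneg hy2.le (by linarith)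
    linarith
  have h4 : 0 < M * y2 - G2 := (mul_pos_iff_of_pos_left hAy).1 h3
  have h5 : (A - G1) ^ 2 ≤ (A - M * y1) ^ 2 := by
    apply pow_le_pow_left₀ (by linarith)
    linarith
  have h6 : G2 ^ 2 < (M * y2) ^ 2 := by
    apply pow_lt_pow_left₀ (by linarith) hG2p.le (by norm_num)
  have h8 : (A - G1) ^ 2 + G2 ^ 2 = kG ^ 2 * ((A - y1) ^ 2 + y2 ^ 2) := by
    rw [hG1, hG2]; ring
  have h9 : k0 ^ 2 * ((A - y1) ^ 2 + y2 ^ 2) < kG ^ 2 * ((A - y1) ^ 2 + y2 ^ 2) := by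
    apply mul_lt_mul_of_pos_right _ (by positivity)
    exact pow_lt_pow_left₀ hk hk0.le (by norm_num)
  have h10 : (M * y1 - A) ^ 2 = (A - M * y1) ^ 2 := by ring
  linarith

end Pool.Agent.Y862.CH
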