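import Pool.Agent.Y862.CH.K1a

set_option autoImplicit false

namespace Pool.Agent.Y862.CH

/-- parameters for the first case -/
lemma k1_par {A d1 d2 b1 b2 τ l μ : ℝ} (hA : 0 < A) (hb2 : 0 < b2) (hd : ¬ (d2 = 0 ∧ d1 ≤ A))
    (hτ0 : 0 ≤ τ) (hτ1 : τ ≤ 1) (hl : 0 ≤ l) (hμ : 0 ≤ μ)
    (e1 : τ * b1 - A = l * (d1 - A) + μ * A) (e2 : τ * b2 = l * d2)
    (hn : (τ * b1 - A) ^ 2 + (τ * b2) ^ 2 ≤ (d1 - A) ^ 2 + d2 ^ 2)
    (hDB : ∀ t ∈ Set.Icc (0 : ℝ) 1, ∀ r ∈ Set.Icc (0 : ℝ) 1,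
      ¬ (A + t * (d1 - A) = r * b1 ∧ t * d2 = r * b2)) :
    ∃ y1 y2 k0 M β : ℝ, 0 < y2 ∧ 0 < k0 ∧ k0 < 1 ∧ 1 < M ∧ M ≤ β ∧ b1 = β * y1 ∧ b2 = β * y2 ∧
      d1 = A - k0 * (A - y1) ∧ d2 = k0 * y2 ∧
      (M * y1 - A) ^ 2 + (M * y2) ^ 2 ≤ k0 ^ 2 * ((A - y1) ^ 2 + y2 ^ 2) ∧
      y1 ^ 2 + y2 ^ 2 < A * y1 := by
  -- l > 0
  have hl0 : 0 < l := by
    rcases hl.lt_or_eq with h | h
    · exact h
    · exfalso
      rw [← h] at e1 e2
      have h1 : τ * b2 = 0 := by linarith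
      have h2 : τ = 0 := by
        rcases mul_eq_zero.1 h1 with h3 | h3
        · exact h3
        · exact absurd h3 hb2.ne'
      rw [h2] at e1
      have : 0 ≤ μ * A := by positivity
      linarith
  have hd2 : d2 ≠ 0 := by
    intro h
    rw [h] at e2
    have h1 : τ * b2 = 0 := by linarith
    have h2 : τ = 0 := by
      rcases mul_eq_zero.1 h1 with h3 | h3
      · exact h3
      · exact absurd h3 hb2.ne'
    rw [h2] at e1
    have h3 : A < d1 := by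
      by_contra h'
      push Not at h'
      exact hd ⟨h, h'⟩
    have h4 : 0 < l * (d1 - A) := mul_pos hl0 (by linarith)
    have : 0 ≤ μ * A := by positivity
    linarith
  have hd2p : 0 < d2 := by
    have h1 : 0 ≤ l * d2 := by rw [← e2]; positivity
    have h2 : 0 ≤ d2 := by
      by_contra h
      push Not at h
      have := mul_neg_of_pos_of_neg hl0 h
      linarith
    exact lt_of_le_of_ne h2 (Ne.symm hd2)
  have hτ : 0 < τ := by
    rcases hτ0.lt_or_eq with h | h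
    · exact h
    · exfalso
      rw [← h] at e2
      have : 0 < l * d2 := by positivity
      linarith
  have hM0 : 0 < 1 + μ := by linarith
  obtain ⟨y1, hy1⟩ : ∃ y1, y1 = τ / (1 + μ) * b1 := ⟨_, rfl⟩
  obtain ⟨y2, hy2⟩ : ∃ y2, y2 = τ / (1 + μ) * b2 := ⟨_, rfl⟩
  have hy2p : 0 < y2 := by rw [hy2]; positivity
  have hM1 : (1 + μ) * y1 = τ * b1 := by rw [hy1]; field_simp
  have hM2 : (1 + μ) * y2 = τ * b2 := by rw [hy2]; field_simp
  obtain ⟨κ, hκ⟩ : ∃ κ, κ = l / (1 + μ) := ⟨_, rfl⟩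
  have hκl : (1 + μ) * κ = l := by rw [hκ]; field_simp
  have hκ0 : 0 < κ := by rw [hκ]; positivity
  have hyd1 : y1 = A + κ * (d1 - A) := by
    have h1 : (1 + μ) * (y1 - (A + κ * (d1 - A))) = 0 := by
      have : (1 + μ) * (y1 - (A + κ * (d1 - A))) = (1 + μ) * y1 - (1 + μ) * A -
        ((1 + μ) * κ) * (d1 - A) := by ring
      rw [this, hM1, hκl]
      linarith
    rcases mul_eq_zero.1 h1 with h | h
    · exact absurd h hM0.ne'
    · linarith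
  have hyd2 : y2 = κ * d2 := by
    have h1 : (1 + μ) * (y2 - κ * d2) = 0 := by
      have : (1 + μ) * (y2 - κ * d2) = (1 + μ) * y2 - ((1 + μ) * κ) * d2 := by ring
      rw [this, hM2, hκl]
      linarith
    rcases mul_eq_zero.1 h1 with h | h
    · exact absurd h hM0.ne'
    · linarith
  have hτ' : τ / (1 + μ) ≤ 1 := by
    rw [div_le_one hM0]; linarith
  have hκ1 : 1 < κ := by
    by_contra h
    push Not at h
    apply hDB κ ⟨hκ0.le, h⟩ (τ / (1 + μ)) ⟨by positivity, hτ'⟩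
    rw [← hyd1, ← hyd2, ← hy1, ← hy2]
    exact ⟨rfl, rfl⟩
  -- norms
  have hnd : (A - y1) ^ 2 + y2 ^ 2 = κ ^ 2 * ((d1 - A) ^ 2 + d2 ^ 2) := by
    rw [hyd1, hyd2]; ring
  have hsq : 0 < (d1 - A) ^ 2 + d2 ^ 2 := by positivity
  have hlt : ((1 + μ) * y1 - A) ^ 2 + ((1 + μ) * y2) ^ 2 < (A - y1) ^ 2 + y2 ^ 2 := by
    rw [hM1, hM2, hnd]
    have h1 : 1 < κ ^ 2 := by nlinarith
    have h2 : 1 * ((d1 - A) ^ 2 + d2 ^ 2) < κ ^ 2 * ((d1 - A) ^ 2 + d2 ^ 2) :=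
      mul_lt_mul_of_pos_right h1 hsq
    linarith
  have hkey : μ * ((2 + μ) * (y1 ^ 2 + y2 ^ 2) - 2 * (A * y1)) < 0 := by
    have : μ * ((2 + μ) * (y1 ^ 2 + y2 ^ 2) - 2 * (A * y1)) =
      (((1 + μ) * y1 - A) ^ 2 + ((1 + μ) * y2) ^ 2) - ((A - y1) ^ 2 + y2 ^ 2) := by ring
    rw [this]; linarith
  have hμp : 0 < μ := by
    rcases hμ.lt_or_eq with h | h
    · exact h
    · exfalso
      rw [← h] at hkey
      simp at hkey
  have hst : y1 ^ 2 + y2 ^ 2 < A * y1 := by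
    have h1 : (2 + μ) * (y1 ^ 2 + y2 ^ 2) - 2 * (A * y1) < 0 := by
      by_contra h
      push Not at h
      have := mul_nonneg hμp.le h
      linarith
    have h2 : 0 ≤ μ * (y1 ^ 2 + y2 ^ 2) := by positivity
    linarith [show (2 + μ) * (y1 ^ 2 + y2 ^ 2) = 2 * (y1 ^ 2 + y2 ^ 2) + μ * (y1 ^ 2 + y2 ^ 2) by ring]
  have hk0 : κ⁻¹ * κ = 1 := inv_mul_cancel₀ hκ0.ne'
  refine ⟨y1, y2, κ⁻¹, 1 + μ, (1 + μ) / τ, hy2p, by positivity, inv_lt_one_of_one_lt₀ hκ1, by linarith,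
    ?_, ?_, ?_, ?_, ?_, ?_, hst⟩
  · rw [le_div_iff₀ hτ]
    have : (1 + μ) * τ ≤ (1 + μ) * 1 := mul_le_mul_of_nonneg_left hτ1 hM0.le
    linarith
  · rw [div_mul_eq_mul_div, hM1]; field_simp
  · rw [div_mul_eq_mul_div, hM2]; field_simp
  · rw [hyd1]
    linear_combination (A - d1) * hk0
  · rw [hyd2]
    linear_combination (-d2) * hk0
  · rw [hM1, hM2, hnd]
    have : κ⁻¹ ^ 2 * (κ ^ 2 * ((d1 - A) ^ 2 + d2 ^ 2)) = (κ⁻¹ * κ) ^ 2 * ((d1 - A) ^ 2 + d2 ^ 2) := by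
      ring
    rw [this, hk0]
    linarith

/-- the rotated point cannot lie in the upper half-plane -/
lemma k1_up {A y1 y2 k0 M β c1 c2 k C S r0 : ℝ} (hA : 0 < A) (hy2 : 0 < y2) (hk00 : 0 < k0)
    (hk01 : k0 < 1) (hM : 1 < M) (hMβ : M ≤ β)
    (hN : (M * y1 - A) ^ 2 + (M * y2) ^ 2 ≤ k0 ^ 2 * ((A - y1) ^ 2 + y2 ^ 2))
    (hst : y1 ^ 2 + y2 ^ 2 < A * y1)
    (hDC : ∀ k ∈ Set.Icc (0 : ℝ) k0, ∀ r ∈ Set.Icc (0 : ℝ) 1,
      ¬ (A - k * (A - y1) = β * y1 + r * (c1 - β * y1) ∧ k * y2 = β * y2 + r * (c2 - β * y2)))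
    (hside : y1 * c2 - y2 * c1 < 0)
    (hk : 0 ≤ k) (hkk : k ≤ k0) (hCS : C ^ 2 + S ^ 2 = 1) (hS : 0 ≤ S) (hr : 0 ≤ r0) (hr1 : r0 ≤ 1)
    (hz1 : β * y1 + r0 * (c1 - β * y1) = (A - k * (A - y1)) * C + k * y2 * S)
    (hz2 : β * y2 + r0 * (c2 - β * y2) = k * y2 * C - (A - k * (A - y1)) * S) :
    β * y2 + r0 * (c2 - β * y2) ≤ 0 := by
  by_contra hcon
  push Not at hcon
  obtain ⟨z1, hz1d⟩ : ∃ z1, z1 = β * y1 + r0 * (c1 - β * y1) := ⟨_, rfl⟩
  obtain ⟨z2, hz2d⟩ : ∃ z2, z2 = β * y2 + r0 * (c2 - β * y2) := ⟨_, rfl⟩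
  rw [← hz2d] at hcon
  obtain ⟨hy1, hAy, hst'⟩ := k1_pos hy2 hA hst
  have hk1 : k ≤ 1 := by linarith
  obtain ⟨w1, hw1⟩ : ∃ w1, w1 = A - k * (A - y1) := ⟨_, rfl⟩
  obtain ⟨w2, hw2⟩ : ∃ w2, w2 = k * y2 := ⟨_, rfl⟩
  rw [← hz1d, ← hw1, ← hw2] at hz1
  rw [← hz2d, ← hw1, ← hw2] at hz2
  have hw1p : 0 < w1 := by
    rw [hw1]
    have : k * (A - y1) ≤ 1 * (A - y1) := mul_le_mul_of_nonneg_right hk1 hAy.le
    linarith
  have hw2p : 0 ≤ w2 := by rw [hw2]; positivity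
  have hne : ¬ (z1 = w1 ∧ z2 = w2) := by
    rintro ⟨h1, h2⟩
    apply hDC k ⟨hk, hkk⟩ r0 ⟨hr, hr1⟩
    rw [← hz1d, ← hz2d, ← hw1, ← hw2]
    exact ⟨h1.symm, h2.symm⟩
  obtain ⟨hw2pp, hzw2, hzw1, hnorm⟩ := k1_rot hw1p hw2p hCS hS hz1 hz2 hcon hne
  have hh := k1_side hy1 hy2 hAy hst' hk hk1 hw1 hw2 hzw2 hzw1 hnorm
  have hβ : 1 < β := by linarith
  have hβ0 : 0 < β := by linarith
  -- r0 > 0
  have hr0p : 0 < r0 := by
    rcases hr.lt_or_eq with h | h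
    · exact h
    · exfalso
      rw [← h] at hz1d hz2d
      have e1 : z1 = β * y1 := by linarith
      have e2 : z2 = β * y2 := by linarith
      rw [e1, e2] at hh
      have h3 : (A - y1) * (β * y2 - y2) + y2 * (β * y1 - y1) = (β - 1) * A * y2 := by ring
      have h4 : 0 < (β - 1) * A * y2 := by
        have : 0 < β - 1 := by linarith
        positivity
      linarith
  have hcrz : y1 * z2 - y2 * z1 < 0 := by
    have : y1 * z2 - y2 * z1 = r0 * (y1 * c2 - y2 * c1) := by rw [hz1d, hz2d]; ring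
    rw [this]
    exact mul_neg_of_pos_of_neg hr0p hside
  obtain ⟨g, kG, hg0, hg1, hkGp, hkG1, hG1, hG2⟩ := k1_cross hA hy2 hβ hcon hh hcrz
  have hkGk0 : k0 < kG := by
    by_contra h
    push Not at h
    apply hDC kG ⟨hkGp.le, h⟩ (g * r0) ⟨by positivity, by
      have : g * r0 ≤ 1 * 1 := mul_le_mul hg1.le hr1 hr (by norm_num)
      linarith⟩
    rw [← hG1, ← hG2]
    constructor
    · rw [hz1d]; ring
    · rw [hz2d]; ring
  have hGb1 := k1_left hA hy1 hy2 hAy hk00 hM hMβ hN hkGk0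
  have hrad := k1_rad hAy hst' hk (lt_of_le_of_lt hkk hkGk0) hkG1
  obtain ⟨G1, hG1d⟩ : ∃ G1, G1 = A - kG * (A - y1) := ⟨_, rfl⟩
  obtain ⟨G2, hG2d⟩ : ∃ G2, G2 = kG * y2 := ⟨_, rfl⟩
  rw [← hG1d] at hG1 hGb1 hrad
  rw [← hG2d] at hG2 hrad
  have hcrG : y1 * G2 - y2 * G1 < 0 := by
    have : y1 * G2 - y2 * G1 = g * (y1 * z2 - y2 * z1) := by rw [← hG1, ← hG2]; ring
    rw [this]
    exact mul_neg_of_pos_of_neg hg0 hcrz
  have hGb2 : G2 < β * y2 := by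
    have h2 : y2 * G1 < y2 * (β * y1) := mul_lt_mul_of_pos_left hGb1 hy2
    have h3 : y1 * G2 < y1 * (β * y2) := by linarith
    exact lt_of_mul_lt_mul_left h3 hy1.le
  have hzG1 : z1 ≤ G1 := by
    have h1 : g * (G1 - z1) = (1 - g) * (β * y1 - G1) := by rw [← hG1]; ring
    have h2 : 0 ≤ (1 - g) * (β * y1 - G1) := mul_nonneg (by linarith) (by linarith)
    by_contra h
    push Not at h
    have := mul_neg_of_pos_of_neg hg0 (by linarith : G1 - z1 < 0)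
    linarith
  have hzG2 : z2 ≤ G2 := by
    have h1 : g * (G2 - z2) = (1 - g) * (β * y2 - G2) := by rw [← hG2]; ring
    have h2 : 0 ≤ (1 - g) * (β * y2 - G2) := mul_nonneg (by linarith) (by linarith)
    by_contra h
    push Not at h
    have := mul_neg_of_pos_of_neg hg0 (by linarith : G2 - z2 < 0)
    linarith
  have h1 : z1 ^ 2 ≤ G1 ^ 2 := pow_le_pow_left₀ (by linarith) hzG1 2
  have h2 : z2 ^ 2 ≤ G2 ^ 2 := pow_le_pow_left₀ hcon.le hzG2 2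
  rw [← hw1, ← hw2] at hrad
  linarith

/-- if the last link crosses the positive real axis beyond `a`, then the first two links avoid the cone
at `b` -/
lemma k1_cone {A y1 y2 k0 β c1 c2 r ξ : ℝ} (hA : 0 < A) (hy2 : 0 < y2) (hk01 : k0 < 1) (hβ : 1 < β)
    (hr : 0 < r) (hξ : A < ξ) (e1 : β * y1 + r * (c1 - β * y1) = ξ) (e2 : β * y2 + r * (c2 - β * y2) = 0)
    {l μ : ℝ} (hμ : 0 ≤ μ) :
    (∀ t ∈ Set.Icc (0 : ℝ) 1, ¬ (β * y1 + l * (c1 - β * y1) + μ * (β * y1) = t * A ∧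
      β * y2 + l * (c2 - β * y2) + μ * (β * y2) = 0)) ∧
    ∀ k ∈ Set.Icc (0 : ℝ) k0, ¬ (β * y1 + l * (c1 - β * y1) + μ * (β * y1) = A - k * (A - y1) ∧
      β * y2 + l * (c2 - β * y2) + μ * (β * y2) = k * y2) := by
  have hβ0 : 0 < β := by linarith
  -- the functional f(x) = r * cross (c - b, x - b)
  have key : ∀ x1 x2 : ℝ, β * y1 + l * (c1 - β * y1) + μ * (β * y1) = x1 →
      β * y2 + l * (c2 - β * y2) + μ * (β * y2) = x2 →
      0 ≤ (ξ - β * y1) * (x2 - β * y2) + (β * y2) * (x1 - β * y1) := by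
    intro x1 x2 h1 h2
    have h3 : ξ - β * y1 = r * (c1 - β * y1) := by linarith
    have h4 : β * y2 = -(r * (c2 - β * y2)) := by linarith
    have h5 : (ξ - β * y1) * (x2 - β * y2) + (β * y2) * (x1 - β * y1) =
        μ * ((ξ - β * y1) * (β * y2) + β * y2 * (β * y1)) := by
      have h6 : x1 - β * y1 = l * (c1 - β * y1) + μ * (β * y1) := by linarith
      have h7 : x2 - β * y2 = l * (c2 - β * y2) + μ * (β * y2) := by linarith
      rw [h6, h7]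
      have h8 : (ξ - β * y1) * (l * (c2 - β * y2)) + β * y2 * (l * (c1 - β * y1)) = 0 := by
        rw [h3]
        have : r * (c1 - β * y1) * (l * (c2 - β * y2)) = l * (c1 - β * y1) * (r * (c2 - β * y2)) := by
          ring
        rw [this]
        have h9 : r * (c2 - β * y2) = -(β * y2) := by linarith
        rw [h9]; ring
      linear_combination h8
    rw [h5]
    have h6 : (ξ - β * y1) * (β * y2) + β * y2 * (β * y1) = ξ * (β * y2) := by ring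
    rw [h6]
    have : 0 < ξ := by linarith
    positivity
  constructor
  · rintro t ⟨ht0, ht1⟩ ⟨h1, h2⟩
    have h3 := key _ _ h1 h2
    have h4 : (ξ - β * y1) * (0 - β * y2) + β * y2 * (t * A - β * y1) = β * y2 * (t * A - ξ) := by ring
    rw [h4] at h3
    have h5 : t * A ≤ 1 * A := mul_le_mul_of_nonneg_right ht1 hA.le
    have h6 : 0 < β * y2 := by positivity
    have := mul_neg_of_pos_of_neg h6 (by linarith : t * A - ξ < 0)
    linarith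
  · rintro k ⟨hk0, hk1⟩ ⟨h1, h2⟩
    have h3 := key _ _ h1 h2
    have h4 : (ξ - β * y1) * (k * y2 - β * y2) + β * y2 * (A - k * (A - y1) - β * y1) =
        y2 * (ξ * (k - β) + β * A * (1 - k)) := by ring
    rw [h4] at h3
    have h5 : ξ * (k - β) ≤ A * (k - β) := mul_le_mul_of_nonpos_right hξ.le (by linarith)
    have h6 : A * (k - β) + β * A * (1 - k) = A * k * (1 - β) := by ring
    have h7 : A * k * (1 - β) ≤ 0 :=
      mul_nonpos_of_nonneg_of_nonpos (mul_nonneg hA.le hk0) (by linarith)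
    have h8 : ξ * (k - β) < A * (k - β) := mul_lt_mul_of_neg_right hξ (by linarith)
    have := mul_neg_of_pos_of_neg hy2 (by linarith : ξ * (k - β) + β * A * (1 - k) < 0)
    linarith

end Pool.Agent.Y862.CH
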