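import Pool.Agent.Y862.CH.K1b

set_option autoImplicit false

namespace Pool.Agent.Y862.CH

/-- If the last link contains a rotated point of height `≤ 0`, it crosses the positive real axis beyond
`a`. -/
lemma k1_axis {A y1 y2 β c1 c2 r0 : ℝ} (hA : 0 < A) (hy2 : 0 < y2) (hβ : 1 < β)
    (hside : y1 * c2 - y2 * c1 < 0) (hr : 0 ≤ r0) (hr1 : r0 ≤ 1)
    (hz : β * y2 + r0 * (c2 - β * y2) ≤ 0)
    (hAC : ∀ t ∈ Set.Icc (0 : ℝ) 1, ∀ r ∈ Set.Icc (0 : ℝ) 1,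
      ¬ (t * A = β * y1 + r * (c1 - β * y1) ∧ 0 = β * y2 + r * (c2 - β * y2))) :
    ∃ r ξ : ℝ, 0 < r ∧ A < ξ ∧ β * y1 + r * (c1 - β * y1) = ξ ∧ β * y2 + r * (c2 - β * y2) = 0 := by
  have hb2 : 0 < β * y2 := by
    have : 0 < β := by linarith
    positivity
  have h1 : 0 < r0 * (β * y2 - c2) := by linarith [show r0 * (c2 - β * y2) = -(r0 * (β * y2 - c2)) by ring]
  have hr0 : 0 < r0 := by
    rcases hr.lt_or_eq with h | h
    · exact h
    · rw [← h] at h1; simp at h1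
  have h2 : 0 < β * y2 - c2 := (mul_pos_iff_of_pos_left hr0).1 h1
  obtain ⟨r, hrd⟩ : ∃ r, r = β * y2 / (β * y2 - c2) := ⟨_, rfl⟩
  have hrp : 0 < r := by rw [hrd]; positivity
  have hreq : r * (β * y2 - c2) = β * y2 := by rw [hrd]; field_simp
  have hrr0 : r ≤ r0 := by
    rw [hrd, div_le_iff₀ h2]
    linarith [show r0 * (c2 - β * y2) = -(r0 * (β * y2 - c2)) by ring]
  have e2 : β * y2 + r * (c2 - β * y2) = 0 := by linear_combination (-1) * hreq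
  refine ⟨r, β * y1 + r * (c1 - β * y1), hrp, ?_, rfl, e2⟩
  obtain ⟨ξ, hξ⟩ : ∃ ξ, ξ = β * y1 + r * (c1 - β * y1) := ⟨_, rfl⟩
  rw [← hξ]
  have hξ0 : 0 < ξ := by
    have h3 : y2 * ξ = -(r * (y1 * c2 - y2 * c1)) := by
      rw [hξ]
      linear_combination y1 * e2
    have h4 : 0 < y2 * ξ := by
      rw [h3]
      have := mul_neg_of_pos_of_neg hrp hside
      linarith
    exact (mul_pos_iff_of_pos_left hy2).1 h4
  by_contra h
  push Not at h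
  apply hAC (ξ / A) ⟨by positivity, (div_le_one hA).2 h⟩ r ⟨hrp.le, by linarith⟩
  rw [div_mul_cancel₀ _ hA.ne']
  exact ⟨hξ, e2.symm⟩

/-- the far side: no rotated point -/
lemma k1_far {A y1 y2 β c1 c2 k t w1 w2 C S r0 : ℝ} (hA : 0 < A) (hy2 : 0 < y2) (hβ : 1 < β)
    (hside : 0 ≤ y1 * c2 - y2 * c1) (hc : ¬ (y1 * c2 - y2 * c1 = 0 ∧ c2 ≤ β * y2))
    (hr : 0 ≤ r0) (ht : 0 ≤ t) (hk : 0 ≤ k) (hk1 : k < 1)
    (hw1 : w1 = t * ((1 - k) * A + k * y1)) (hw2 : w2 = t * (k * y2))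
    (hCS : C ^ 2 + S ^ 2 = 1) (hS : 0 ≤ S) (hθ : 0 ≤ S * y1 + C * y2)
    (hz1 : β * y1 + r0 * (c1 - β * y1) = w1 * C + w2 * S)
    (hz2 : β * y2 + r0 * (c2 - β * y2) = w2 * C - w1 * S)
    (ho : ¬ (0 = β * y1 + r0 * (c1 - β * y1) ∧ 0 = β * y2 + r0 * (c2 - β * y2))) : False := by
  have hb2 : 0 < β * y2 := by
    have : 0 < β := by linarith
    positivity
  have htp : 0 < t := by
    rcases ht.lt_or_eq with h | h
    · exact h
    · exfalso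
      rw [← h] at hw1 hw2
      apply ho
      rw [hz1, hz2, hw1, hw2]
      constructor <;> ring
  have hcr : r0 * (y1 * c2 - y2 * c1) =
      -(t * ((1 - k) * A * (S * y1 + C * y2) + k * (S * (y1 ^ 2 + y2 ^ 2)))) := by
    have h1 : r0 * (y1 * c2 - y2 * c1) = y1 * (β * y2 + r0 * (c2 - β * y2)) -
        y2 * (β * y1 + r0 * (c1 - β * y1)) := by ring
    rw [h1, hz1, hz2, hw1, hw2]
    ring
  have h0 : 0 ≤ r0 * (y1 * c2 - y2 * c1) := mul_nonneg hr hside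
  have h1k : 0 < (1 - k) * A := mul_pos (by linarith) hA
  have h2 : 0 ≤ (1 - k) * A * (S * y1 + C * y2) := mul_nonneg h1k.le hθ
  have h3 : 0 ≤ k * (S * (y1 ^ 2 + y2 ^ 2)) := by positivity
  have h4 : (1 - k) * A * (S * y1 + C * y2) + k * (S * (y1 ^ 2 + y2 ^ 2)) ≤ 0 := by
    by_contra h
    push Not at h
    have := mul_pos htp h
    linarith
  have h5 : (1 - k) * A * (S * y1 + C * y2) = 0 := by linarith
  have h6 : k * (S * (y1 ^ 2 + y2 ^ 2)) = 0 := by linarith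
  have h7 : S * y1 + C * y2 = 0 := by
    rcases mul_eq_zero.1 h5 with h | h
    · exact absurd h h1k.ne'
    · exact h
  have hSp : 0 < S := by
    rcases hS.lt_or_eq with h | h
    · exact h
    · exfalso
      rw [← h] at h7 hCS
      have h8 : C = 0 := by
        have : C * y2 = 0 := by linarith
        rcases mul_eq_zero.1 this with h' | h'
        · exact h'
        · exact absurd h' hy2.ne'
      rw [h8] at hCS
      norm_num at hCS
  have hk0 : k = 0 := by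
    rcases mul_eq_zero.1 h6 with h | h
    · exact h
    · exfalso
      have : 0 < S * (y1 ^ 2 + y2 ^ 2) := by positivity
      linarith
  have hz2' : β * y2 + r0 * (c2 - β * y2) = -(t * A * S) := by
    rw [hz2, hw1, hw2, hk0]; ring
  have hneg : 0 < t * A * S := by positivity
  have h8 : r0 * (y1 * c2 - y2 * c1) = 0 := by rw [hcr]; rw [h5, h6]; ring
  rcases mul_eq_zero.1 h8 with h | h
  · rw [h] at hz2'
    linarith
  · have h9 : β * y2 < c2 := by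
      by_contra h'
      push Not at h'
      exact hc ⟨h, h'⟩
    have : 0 ≤ r0 * (c2 - β * y2) := mul_nonneg hr (by linarith)
    linarith

/-- **First case.** The link `[d, a]` cannot be opened because of the link `[o, b]`. If the middle joint
cannot be opened because of the last link, the last joint can be opened. -/
theorem k1_main {A d1 d2 b1 b2 c1 c2 τ l μ : ℝ} (hA : 0 < A) (hb2 : 0 < b2) (hd : ¬ (d2 = 0 ∧ d1 ≤ A))
    (hc : ¬ (b1 * c2 - b2 * c1 = 0 ∧ c2 ≤ b2))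
    (hτ0 : 0 ≤ τ) (hτ1 : τ ≤ 1) (hl : 0 ≤ l) (hμ : 0 ≤ μ)
    (e1 : τ * b1 - A = l * (d1 - A) + μ * A) (e2 : τ * b2 = l * d2)
    (hn : (τ * b1 - A) ^ 2 + (τ * b2) ^ 2 ≤ (d1 - A) ^ 2 + d2 ^ 2)
    (hDB : ∀ t ∈ Set.Icc (0 : ℝ) 1, ∀ r ∈ Set.Icc (0 : ℝ) 1,
      ¬ (A + t * (d1 - A) = r * b1 ∧ t * d2 = r * b2))
    (hDC : ∀ t ∈ Set.Icc (0 : ℝ) 1, ∀ r ∈ Set.Icc (0 : ℝ) 1,
      ¬ (A + t * (d1 - A) = b1 + r * (c1 - b1) ∧ t * d2 = b2 + r * (c2 - b2)))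
    (hAC : ∀ t ∈ Set.Icc (0 : ℝ) 1, ∀ r ∈ Set.Icc (0 : ℝ) 1,
      ¬ (t * A = b1 + r * (c1 - b1) ∧ 0 = b2 + r * (c2 - b2))) :
    (∀ t ∈ Set.Icc (0 : ℝ) 1, b1 * (t * d2) - b2 * (A + t * (d1 - A)) < 0) ∧
    ((∃ w1 w2 C S r0 : ℝ, C ^ 2 + S ^ 2 = 1 ∧ 0 ≤ S ∧ 0 ≤ S * b1 + C * b2 ∧ 0 ≤ r0 ∧ r0 ≤ 1 ∧
      ((∃ t ∈ Set.Icc (0 : ℝ) 1, w1 = A + t * (d1 - A) ∧ w2 = t * d2) ∨
        ∃ t ∈ Set.Icc (0 : ℝ) 1, w1 = t * A ∧ w2 = 0) ∧
      b1 + r0 * (c1 - b1) = w1 * C + w2 * S ∧ b2 + r0 * (c2 - b2) = w2 * C - w1 * S) →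
      b1 * c2 - b2 * c1 < 0 ∧ ∀ l' μ' : ℝ, 0 ≤ μ' →
        (∀ t ∈ Set.Icc (0 : ℝ) 1, ¬ (b1 + l' * (c1 - b1) + μ' * b1 = A + t * (d1 - A) ∧
          b2 + l' * (c2 - b2) + μ' * b2 = t * d2)) ∧
        ∀ t ∈ Set.Icc (0 : ℝ) 1, ¬ (b1 + l' * (c1 - b1) + μ' * b1 = t * A ∧
          b2 + l' * (c2 - b2) + μ' * b2 = 0)) := by
  obtain ⟨y1, y2, k0, M, β, hy2, hk00, hk01, hM, hMβ, hb1', hb2', hd1', hd2', hN, hst⟩ :=
    k1_par hA hb2 hd hτ0 hτ1 hl hμ e1 e2 hn hDB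
  subst hb1' hb2' hd1' hd2'
  have hβ : 1 < β := by linarith
  have hβ0 : 0 < β := by linarith
  have hDC' : ∀ k ∈ Set.Icc (0 : ℝ) k0, ∀ r ∈ Set.Icc (0 : ℝ) 1,
      ¬ (A - k * (A - y1) = β * y1 + r * (c1 - β * y1) ∧ k * y2 = β * y2 + r * (c2 - β * y2)) := by
    rintro k ⟨hk0, hk1⟩ r hr ⟨h1, h2⟩
    apply hDC (k / k0) ⟨by positivity, (div_le_one hk00).2 hk1⟩ r hr
    have h3 : k / k0 * k0 = k := div_mul_cancel₀ _ hk00.ne'
    constructor
    · rw [← h1]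
      linear_combination (-(A - y1)) * h3
    · rw [← h2]
      linear_combination y2 * h3
  constructor
  · rintro t ⟨ht0, ht1⟩
    have h1 : β * y1 * (t * (k0 * y2)) - β * y2 * (A + t * (A - k0 * (A - y1) - A)) =
        -(β * y2 * A * (1 - t * k0)) := by ring
    rw [h1]
    have h2 : t * k0 < 1 := by
      have : t * k0 ≤ 1 * k0 := mul_le_mul_of_nonneg_right ht1 hk00.le
      linarith
    have : 0 < β * y2 * A * (1 - t * k0) := by
      have : 0 < 1 - t * k0 := by linarith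
      positivity
    linarith
  · rintro ⟨w1, w2, C, S, r0, hCS, hS, hθ, hr0, hr1, hw, hz1, hz2⟩
    have hθ' : 0 ≤ S * y1 + C * y2 := by
      have h1 : S * (β * y1) + C * (β * y2) = β * (S * y1 + C * y2) := by ring
      rw [h1] at hθ
      by_contra h
      push Not at h
      have := mul_neg_of_pos_of_neg hβ0 h
      linarith
    have hcr : β * y1 * c2 - β * y2 * c1 = β * (y1 * c2 - y2 * c1) := by ring
    have hc' : ¬ (y1 * c2 - y2 * c1 = 0 ∧ c2 ≤ β * y2) := by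
      rintro ⟨h1, h2⟩
      apply hc
      rw [hcr, h1]
      exact ⟨by ring, h2⟩
    have ho : ¬ (0 = β * y1 + r0 * (c1 - β * y1) ∧ 0 = β * y2 + r0 * (c2 - β * y2)) := by
      rintro ⟨h1, h2⟩
      exact hAC 0 ⟨le_rfl, zero_le_one⟩ r0 ⟨hr0, hr1⟩ ⟨by rw [zero_mul]; exact h1, h2⟩
    have hnear : y1 * c2 - y2 * c1 < 0 := by
      by_contra hcon
      push Not at hcon
      rcases hw with ⟨t, ⟨ht0, ht1⟩, hw1, hw2⟩ | ⟨t, ⟨ht0, ht1⟩, hw1, hw2⟩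
      · refine k1_far (t := 1) (k := t * k0) hA hy2 hβ hcon hc' hr0 zero_le_one (by positivity) ?_
          (by rw [hw1]; ring) (by rw [hw2]; ring) hCS hS hθ' hz1 hz2 ho
        have : t * k0 ≤ 1 * k0 := mul_le_mul_of_nonneg_right ht1 hk00.le
        linarith
      · exact k1_far (t := t) (k := 0) hA hy2 hβ hcon hc' hr0 ht0 le_rfl zero_lt_one
          (by rw [hw1]; ring) (by rw [hw2]; ring) hCS hS hθ' hz1 hz2 ho
    have hlow : β * y2 + r0 * (c2 - β * y2) ≤ 0 := by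
      rcases hw with ⟨t, ⟨ht0, ht1⟩, hw1, hw2⟩ | ⟨t, ⟨ht0, ht1⟩, hw1, hw2⟩
      · have h1 : 0 ≤ t * k0 := by positivity
        have h2 : t * k0 ≤ k0 := by
          have : t * k0 ≤ 1 * k0 := mul_le_mul_of_nonneg_right ht1 hk00.le
          linarith
        refine k1_up (k := t * k0) hA hy2 hk00 hk01 hM hMβ hN hst hDC' hnear h1 h2 hCS hS hr0 hr1 ?_ ?_
        · rw [hz1, hw1, hw2]; ring
        · rw [hz2, hw1, hw2]; ring
      · rw [hz2, hw1, hw2]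
        have : 0 ≤ t * A * S := by positivity
        linarith
    obtain ⟨r, ξ, hrp, hξ, f1, f2⟩ := k1_axis hA hy2 hβ hnear hr0 hr1 hlow hAC
    refine ⟨by rw [hcr]; exact mul_neg_of_pos_of_neg hβ0 hnear, ?_⟩
    intro l' μ' hμ'
    obtain ⟨g1, g2⟩ := k1_cone (l := l') hA hy2 hk01 hβ hrp hξ f1 f2 hμ'
    constructor
    · rintro t ⟨ht0, ht1⟩ ⟨h1, h2⟩
      apply g2 (t * k0) ⟨by positivity, by
        have : t * k0 ≤ 1 * k0 := mul_le_mul_of_nonneg_right ht1 hk00.le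
        linarith⟩
      constructor
      · rw [h1]; ring
      · rw [h2]; ring
    · exact g1

end Pool.Agent.Y862.CH
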