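import Pool.Agent.Helper134.ChainDefs

/-!
Statements of the parts of the project CH (straightening planar chains by few moves, MP_7e0f10_lc).
-/

set_option autoImplicit false

namespace Pool.Agent.Y862.CH

open Real CH134

/-- `[0, T]` is cut into `k` consecutive pieces, and on each piece every joint angle is a polynomial
function of time of degree at most `d`. -/
def PolyPieces (n d : ℕ) (T : ℝ) (p : ℝ → ℕ → ℂ) (k : ℕ) : Prop :=
  ∃ τ : ℕ → ℝ, τ 0 = 0 ∧ τ k = T ∧ (∀ j < k, τ j ≤ τ (j + 1)) ∧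
    ∀ j < k, ∀ i : ℕ, i + 1 < n → ∃ f : Polynomial ℝ, f.natDegree ≤ d ∧
      ∀ t ∈ Set.Icc (τ j) (τ (j + 1)), JointAngle (p t) i (f.eval t)

/-- The chain with lengths `l` can be straightened from the configuration `q` by a motion that is
piecewise polynomial of degree at most `d` in angle space, with `k` pieces. -/
def PolyStraightenedBy (n d : ℕ) (l : ℕ → ℝ) (q : ℕ → ℂ) (k : ℕ) : Prop :=
  ∃ (T : ℝ) (p : ℝ → ℕ → ℂ), 0 ≤ T ∧ IsMotion n l T p ∧ (∀ i ≤ n, p 0 i = q i) ∧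
    PolyPieces n d T p k ∧ Straight n (p T)

/-- the configuration `q` with the joints `i > j` rotated about the joint `j` by the angle `s` -/
noncomputable def turn (j : ℕ) (s : ℝ) (q : ℕ → ℂ) : ℕ → ℂ :=
  fun i => if i ≤ j then q i else q j + (q i - q j) * Complex.exp (s * Complex.I)

/-- (job POLY) no almost solutions of the trap equation by polynomials of bounded degree -/
def S_POLY : Prop :=
  ∀ (d : ℕ) (Δ : ℝ), 0 < Δ → ∃ η : ℝ, 0 < η ∧ ∀ A X Y : Polynomial ℝ,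
    A.natDegree ≤ d → X.natDegree ≤ d → Y.natDegree ≤ d →
    (∀ s ∈ Set.Icc (0 : ℝ) 1, |A.eval s| ≤ 1 ∧ |X.eval s| ≤ 21 ∧ |Y.eval s| ≤ 21) →
    Δ ≤ A.eval 1 - A.eval 0 →
    ∃ s ∈ Set.Icc (0 : ℝ) 1, η < |X.eval s * cos (A.eval s) - sin (A.eval s) + Y.eval s|

/-- (job FIVE) five links, polynomial moves of degree at most `d` -/
def S_FIVE : Prop :=
  ∀ d N : ℕ, ∃ (l : ℕ → ℝ) (q : ℕ → ℂ), (∀ i < 5, 0 < l i) ∧ HasLengths 5 l q ∧
    Simple 5 q ∧ ∀ k : ℕ, PolyStraightenedBy 5 d l q k → N < k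

/-- (job EXT) a simple chain can be prolonged by one link -/
def S_EXT : Prop :=
  ∀ (n : ℕ) (l : ℕ → ℝ) (q : ℕ → ℂ), (∀ i < n, 0 < l i) → HasLengths n l q → Simple n q →
    ∃ (l' : ℕ → ℝ) (q' : ℕ → ℂ), (∀ i < n + 1, 0 < l' i) ∧ HasLengths (n + 1) l' q' ∧
      Simple (n + 1) q' ∧ (∀ i < n, l' i = l i) ∧ ∀ i ≤ n, q' i = q i

/-- (job EXT) restriction to a shorter chain -/
def S_RES : Prop :=
  (∀ (n : ℕ) (l l' : ℕ → ℝ) (q q' : ℕ → ℂ) (k : ℕ), (∀ i < n, l' i = l i) → (∀ i ≤ n, q' i = q i) →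
    StraightenedBy (n + 1) l' q' k → StraightenedBy n l q k) ∧
  ∀ (n d : ℕ) (l l' : ℕ → ℝ) (q q' : ℕ → ℂ) (k : ℕ), (∀ i < n, l' i = l i) → (∀ i ≤ n, q' i = q i) →
    PolyStraightenedBy (n + 1) d l' q' k → PolyStraightenedBy n d l q k

/-- (job CONS) one move followed by `k` moves -/
def S_CONS : Prop :=
  ∀ (n : ℕ) (l : ℕ → ℝ) (q q' : ℕ → ℂ) (g : ℝ → ℕ → ℂ) (k : ℕ),
    (∀ i ≤ n, ContinuousOn (fun t => g t i) (Set.Icc 0 1)) →
    (∀ t ∈ Set.Icc (0 : ℝ) 1, HasLengths n l (g t) ∧ Simple n (g t)) →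
    (∀ i ≤ n, g 0 i = q i) → (∀ i ≤ n, g 1 i = q' i) →
    (∀ i : ℕ, i + 1 < n → ∃ α β : ℝ, ∀ t ∈ Set.Icc (0 : ℝ) 1, JointAngle (g t) i (α + β * t)) →
    StraightenedBy n l q' k → StraightenedBy n l q (k + 1)

/-- (job TURN) effect of `turn` on the joint angles, and the move which rotates a part of the chain -/
def S_TURN : Prop :=
  (∀ (q : ℕ → ℂ) (j i : ℕ) (s t : ℝ), i + 1 ≠ j → (JointAngle (turn j s q) i t ↔ JointAngle q i t)) ∧
  (∀ (q : ℕ → ℂ) (i : ℕ) (s t : ℝ), JointAngle q i t → 0 < t + s → t + s < 2 * π →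
    JointAngle (turn (i + 1) s q) i (t + s)) ∧
  (∀ (n : ℕ) (l : ℕ → ℝ) (q : ℕ → ℂ) (j : ℕ) (s : ℝ), HasLengths n l q → HasLengths n l (turn j s q)) ∧
  ∀ (n : ℕ) (l : ℕ → ℝ) (q : ℕ → ℂ) (j : ℕ) (θ φ : ℝ) (k : ℕ), HasLengths n l q →
    (∀ i : ℕ, i + 1 < n → ∃ t, JointAngle q i t) → JointAngle q j θ → 0 < θ + φ → θ + φ < 2 * π →
    (∀ s ∈ Set.uIcc 0 φ, Simple n (turn (j + 1) s q)) →
    StraightenedBy n l (turn (j + 1) φ q) k → StraightenedBy n l q (k + 1)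

end Pool.Agent.Y862.CH
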